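import Pool.Agent.Helper12.HR2.Sound
import Pool.Agent.Helper12.HR2.TabCore

/-!
MP_16b0ee, project HR2: correctness of the tables for basis monomials of weight at most 4.
-/

set_option autoImplicit false

namespace Pool.Agent.Helper12.HR2

/-- the basis monomials -/
def tab4bas : List Mo := [([], []), ([], [0]), ([0], []), ([], [0, 0]), ([], [1]), ([0], [0]), ([0, 0], []), ([1], []), ([], [0, 0, 0]), ([], [0, 1]), ([], [2]), ([0], [0, 0]), ([0], [1]), ([0, 0], [0]), ([1], [0]), ([0, 0, 0], []), ([0, 1], []), ([2], []), ([], [0, 0, 0, 0]), ([], [0, 0, 1]), ([], [0, 2]), ([], [1, 1]), ([], [3]), ([0], [0, 0, 0]), ([0], [0, 1]), ([0], [2]), ([0, 0], [0, 0]), ([0, 0], [1]), ([1], [0, 0]), ([1], [1]), ([0, 0, 0], [0]), ([0, 1], [0]), ([2], [0]), ([0, 0, 0, 0], []), ([0, 0, 1], []), ([0, 2], []), ([1, 1], []), ([3], [])]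

/-- pairs of basis monomials -/
def tab4prs : List (Mo × Mo) := [(([], []), ([], [])), (([], []), ([0], [])), (([], []), ([0, 0], [])), (([], []), ([1], [])), (([], []), ([0], [0])), (([], []), ([0, 0, 0], [])), (([], []), ([0, 1], [])), (([], []), ([2], [])), (([], []), ([0, 0], [0])), (([], []), ([1], [0])), (([], []), ([0, 0, 0, 0], [])), (([], []), ([0, 0, 1], [])), (([], []), ([0, 2], [])), (([], []), ([1, 1], [])), (([], []), ([3], [])), (([], []), ([0, 0, 0], [0])), (([], []), ([0, 1], [0])), (([], []), ([2], [0])), (([], []), ([0, 0], [0, 0])), (([], []), ([1], [0, 0])), (([], []), ([1], [1])), (([], [0]), ([0, 0, 0, 0], [])), (([], [0]), ([0, 0, 1], [])), (([], [0]), ([0, 2], [])), (([], [0]), ([1, 1], [])), (([], [0]), ([3], [])), (([], [1]), ([2], [])), (([], [0]), ([0, 0, 0], [0])), (([], [0]), ([0, 1], [0])), (([], [0]), ([2], [0])), (([0], []), ([1, 1], [])), (([0], []), ([3], [])), (([],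 [0]), ([0, 0], [0, 0])), (([], [0]), ([1], [0, 0])), (([0], []), ([2], [0])), (([0], []), ([1], [0, 0])), (([0], []), ([1], [1])), (([1], []), ([2], [])), (([], [0, 0]), ([0, 0, 0, 0], [])), (([], [0, 0]), ([0, 0, 1], [])), (([], [0, 0]), ([0, 2], [])), (([], [0, 0]), ([1, 1], [])), (([], [0, 0]), ([3], [])), (([], [1]), ([0, 2], [])), (([], [1]), ([1, 1], [])), (([], [1]), ([3], [])), (([], [2]), ([2], [])), (([], [0, 0]), ([0, 0, 0], [0])), (([], [0, 0]), ([0, 1], [0])), (([], [0, 0]), ([2], [0])), (([], [1]), ([0, 1], [0])), (([0], [0]), ([3], [])), (([], [1]), ([2], [0])), (([], [0, 0]), ([0, 0], [0, 0])), (([], [0, 0]), ([1], [0, 0])), (([0], [0]), ([2], [0])), (([], [1]), ([1], [0, 0])), (([0, 0], []), ([3], [])), (([], [0, 0]), ([0], [0, 0, 0])), (([], [1]), ([0], [0, 0, 0])), (([0, 0], []), ([2], [0])), (([], [1]), ([], [0, 0, 0, 0])), (([], [1]), ([], [0, 0, 1])), (([], [1]), ([0], [0, 1])),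 (([1], []), ([2], [0])), (([], [1]), ([], [0, 2])), (([], [1]), ([1], [1])), (([1], []), ([3], [])), (([], [2]), ([], [2])), (([], [0, 0, 0]), ([0, 0, 0, 0], [])), (([], [0, 0, 0]), ([0, 0, 1], [])), (([], [0, 0, 0]), ([0, 2], [])), (([], [0, 0, 0]), ([1, 1], [])), (([], [0, 0, 0]), ([3], [])), (([], [0, 1]), ([0, 2], [])), (([], [0, 1]), ([1, 1], [])), (([], [0, 1]), ([3], [])), (([], [2]), ([0, 2], [])), (([], [2]), ([1, 1], [])), (([], [2]), ([3], [])), (([], [0, 0, 0]), ([0, 0, 0], [0])), (([], [0, 0, 0]), ([0, 1], [0])), (([], [0, 0, 0]), ([2], [0])), (([], [0, 1]), ([0, 1], [0])), (([0], [0, 0]), ([3], [])), (([], [0, 1]), ([2], [0])), (([0], [1]), ([1, 1], [])), (([0], [1]), ([3], [])), (([], [2]), ([2], [0])), (([], [0, 0, 0]), ([0, 0], [0, 0])), (([], [0, 0, 0]), ([1], [0, 0])), (([], [2]), ([0, 0], [0, 0])), (([], [0, 1]), ([1], [0, 0])), (([0, 0], [0]), ([3], [])), (([], [2]), ([1], [0, 0])),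 (([], [0, 0, 0]), ([0], [0, 0, 0])), (([], [0, 1]), ([0], [0, 0, 0])), (([], [2]), ([0], [0, 0, 0])), (([0], [1]), ([1], [0, 0])), (([0, 0, 0], []), ([3], [])), (([], [0, 1]), ([], [0, 0, 0, 0])), (([], [2]), ([], [0, 0, 0, 0])), (([0], [1]), ([], [0, 0, 0, 0])), (([0], [1]), ([], [0, 0, 1])), (([], [0, 1]), ([], [0, 0, 1])), (([], [2]), ([], [0, 0, 1])), (([0], [1]), ([], [0, 2])), (([], [2]), ([0], [0, 1])), (([0], [1]), ([1], [1])), (([0, 1], []), ([3], [])), (([0], [1]), ([], [1, 1])), (([], [2]), ([], [0, 2])), (([0], [1]), ([], [3])), (([], [2]), ([1], [1])), (([], [2]), ([], [1, 1])), (([2], []), ([3], [])), (([], [0, 0, 0, 0]), ([0, 0, 0, 0], [])), (([], [0, 0, 0, 0]), ([0, 0, 1], [])), (([], [0, 0, 0, 0]), ([0, 2], [])), (([], [0, 0, 0, 0]), ([1, 1], [])), (([], [0, 0, 0, 0]), ([3], [])), (([], [0, 0, 1]), ([0, 2], [])), (([], [0, 0, 1]), ([1, 1], [])), (([], [0, 0, 1]), ([3], [])), (([], [0,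 2]), ([0, 2], [])), (([], [0, 2]), ([1, 1], [])), (([], [0, 2]), ([3], [])), (([], [1, 1]), ([1, 1], [])), (([], [1, 1]), ([3], [])), (([], [3]), ([3], [])), (([], [0, 0, 0, 0]), ([0, 0, 0], [0])), (([], [0, 0, 0, 0]), ([0, 1], [0])), (([], [0, 0, 0, 0]), ([2], [0])), (([], [0, 0, 1]), ([0, 1], [0])), (([], [3]), ([0, 0, 0], [0])), (([], [0, 0, 1]), ([2], [0])), (([], [1, 1]), ([0, 1], [0])), (([], [3]), ([0, 1], [0])), (([], [0, 2]), ([2], [0])), (([], [1, 1]), ([2], [0])), (([], [3]), ([2], [0])), (([], [0, 0, 0, 0]), ([0, 0], [0, 0])), (([], [0, 0, 0, 0]), ([1], [0, 0])), (([], [0, 2]), ([0, 0], [0, 0])), (([], [0, 0, 1]), ([1], [0, 0])), (([], [3]), ([0, 0], [0, 0])), (([], [0, 2]), ([1], [0, 0])), (([], [1, 1]), ([1], [0, 0])), (([], [3]), ([1], [0, 0])), (([0], [2]), ([2], [0])), (([], [0, 0, 0, 0]), ([0], [0, 0, 0])), (([], [0, 0, 1]), ([0], [0, 0, 0])), (([], [0, 2]), ([0], [0, 0, 0])), (([],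 [1, 1]), ([0], [0, 0, 0])), (([], [3]), ([0], [0, 0, 0])), (([0], [2]), ([1], [0, 0])), (([], [0, 0, 0, 0]), ([], [0, 0, 0, 0])), (([], [0, 0, 1]), ([], [0, 0, 0, 0])), (([], [0, 2]), ([], [0, 0, 0, 0])), (([], [1, 1]), ([], [0, 0, 0, 0])), (([], [3]), ([], [0, 0, 0, 0])), (([0], [0, 1]), ([], [0, 0, 0, 0])), (([0], [2]), ([], [0, 0, 0, 0])), (([0, 0], [1]), ([], [0, 0, 0, 0])), (([0, 0], [1]), ([], [0, 0, 1])), (([0], [0, 1]), ([], [0, 0, 1])), (([0], [2]), ([], [0, 0, 1])), (([0, 0], [1]), ([], [0, 2])), (([], [0, 0, 1]), ([], [0, 0, 1])), (([], [0, 2]), ([], [0, 0, 1])), (([], [1, 1]), ([], [0, 0, 1])), (([], [3]), ([], [0, 0, 1])), (([0, 0], [1]), ([], [1, 1])), (([0], [0, 1]), ([], [0, 2])), (([0], [2]), ([], [0, 2])), (([0, 0], [1]), ([], [3])), (([], [1, 1]), ([0], [0, 1])), (([], [3]), ([0], [0, 1])), (([0], [2]), ([1], [1])), (([0], [2]), ([], [1, 1])), (([1], [1]), ([], [0, 2])), (([], [0,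 2]), ([], [0, 2])), (([], [1, 1]), ([], [0, 2])), (([], [3]), ([], [0, 2])), (([0], [2]), ([], [3])), (([], [1, 1]), ([1], [1])), (([], [3]), ([1], [1])), (([], [1, 1]), ([], [1, 1])), (([], [3]), ([], [1, 1])), (([], [3]), ([], [3]))]

/-- second factors -/
def tab4Bt : List (List (List ℕ)) := [[[], [0], [0, 0], [1], [0, 0, 0], [0, 1], [2], [0, 0, 0, 0], [0, 0, 1], [0, 2], [1, 1], [3], [0, 0, 0, 0, 0], [0, 0, 0, 1], [0, 0, 2], [0, 1, 1], [0, 3], [1, 2], [0, 0, 0, 0, 0, 0], [0, 0, 0, 0, 1], [0, 0, 0, 2], [0, 0, 1, 1], [0, 0, 3], [0, 1, 2], [1, 1, 1], [1, 3], [2, 2], [0, 0, 0, 0, 0, 0, 0], [0, 0, 0, 0, 0, 1], [0, 0, 0, 0, 2], [0, 0, 0, 1, 1], [0, 0, 0, 3], [0, 0, 1, 2], [0, 1, 1, 1], [0, 1, 3], [0, 2, 2], [1, 1, 2], [2, 3]], [[], [0], [0, 0], [1], [0, 0, 0], [0, 1], [2], [0, 0, 0, 0], [0, 0, 1], [0, 2], [1, 1], [3], [0, 0, 0, 0, 0], [0, 0, 0, 1], [0, 0, 2], [0, 1, 1], [0, 3], [1, 2], [0, 0, 0, 0, 0,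 0], [0, 0, 0, 0, 1], [0, 0, 0, 2], [0, 0, 1, 1], [0, 0, 3], [0, 1, 2], [1, 1, 1], [1, 3], [2, 2]], [[], [0], [0, 0], [1], [0, 0, 0], [0, 1], [2], [0, 0, 0, 0], [0, 0, 1], [0, 2], [1, 1], [3], [0, 0, 0, 0, 0], [0, 0, 0, 1], [0, 0, 2], [0, 1, 1], [0, 3], [1, 2]], [[], [0], [0, 0], [1], [0, 0, 0], [0, 1], [2], [0, 0, 0, 0], [0, 0, 1], [0, 2], [1, 1], [3]], [[], [0], [0, 0], [1], [0, 0, 0], [0, 1], [2]], [[], [0], [0, 0], [1]], [[], [0]], [[]]]

instance (n W : ℕ) (m : Mo) : Decidable (VM n W m) := by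
  unfold VM
  infer_instance

theorem lk_map (K : ℕ) (l : List ℕ) (k : ℕ) : lk (l.map (fun x => K * x)) k = K * lk l k := by
  induction l generalizing k with
  | nil => rfl
  | cons x l ih =>
    rcases k with _ | k
    · rfl
    · exact ih k

theorem tab4inj : Inj 4 8 (lk [12, 1, 430, 574]) (lk [75, 329, 5, 664]) :=
  inj_of_dist 4 8 _ _ (by decide +kernel)

/-- correctness of the tables -/
theorem tab4ok : TabOK tab4 tab4bas tab4prs tab4Bt 3 7 160 where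
  ba := by decide +kernel
  bb := by decide +kernel
  bc := by decide +kernel
  ra := by decide +kernel
  rb := by decide +kernel
  ta := by decide +kernel
  tb := by decide +kernel
  inj := ⟨lk [12, 1, 430, 574], lk [75, 329, 5, 664],
    fun k => lk_map 160 [12, 1, 430, 574] k, fun k => lk_map 160 [75, 329, 5, 664] k, tab4inj⟩
  basV := ⟨4, by norm_num, by decide +kernel⟩
  prsM := by decide +kernel
  BtV := by decide +kernel

end Pool.Agent.Helper12.HR2
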