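import Mathlib
import Pool.Agent.Helper12.HR2.TabSpec
import Pool.Agent.Helper24.HR2.Defs

/-!
MP_16b0ee, project HR2: a checked certificate gives the pointwise inequality needed for the
Beurling estimate with a fixed complex exponent.
-/

set_option autoImplicit false

open scoped ComplexConjugate

namespace Pool.Agent.Helper12.HR2

open Pool.Agent.Helper39.MH (ev wt dval Dv DGs)
open Pool.Agent.Helper24.HR2 (relS XS qS poch)

theorem dvl_eq (c : ℕ → ℂ) (n : ℕ) : dvl c n = dval c n := rfl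

theorem Dvl_eq (c : ℕ → ℂ) (A : List ℕ) : Dvl c A = Dv c A := by
  induction A with
  | nil => rfl
  | cons a A ih =>
    change dvl c a * (A.map c).prod + c a * Dvl c A = dval c a * ev c A + c a * Dv c A
    rw [ih, dvl_eq]
    rfl

/-- the relations are those of the project -/
theorem rel_eq (s : ℂ) (b : ℝ) (c : ℕ → ℂ) (P : Pol) :
    rel s (b : ℂ) c P = (P.map (fun t => gv t.2 * relS s b c t.1.1 t.1.2)).sum := by
  unfold rel
  congr 1
  apply List.map_congr_left
  intro t _
  unfold relS DGs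
  rw [← Dvl_eq]
  have h1 : ((b + wt t.1.1 + wt t.1.2 : ℝ) : ℂ) = (b : ℂ) + wl t.1.1 + wl t.1.2 := by
    push_cast
    rfl
  rw [h1]
  have h2 : ev c t.1.1 = (t.1.1.map c).prod := rfl
  have h3 : ev c t.1.2 = (t.1.2.map c).prod := rfl
  rw [h2, h3]
  ring

/-- the Gaussian integer matrix of the area form -/
abbrev M3 := ℕ → ℕ → GZ

/-- the scaled moments as polynomials -/
def XP (P : Par) : ℕ → Pol
  | 0 => [(([], []), (1, 0))]
  | 1 => [(([0, 0], []), (P.p, P.q)), (([1], []), (-P.p, -P.q))]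
  | 2 =>
    let S2 : GZ := gmul (P.p, P.q) (P.p, P.q)
    let T : GZ := ((P.sr : ℤ) * P.p, (P.sr : ℤ) * P.q)
    [(([0, 0, 0, 0], []), (3 * (S2.1 + T.1), 3 * (S2.2 + T.2))),
     (([0, 0, 1], []), (3 * (-2 * S2.1 - 4 * T.1), 3 * (-2 * S2.2 - 4 * T.2))),
     (([1, 1], []), (3 * (S2.1 + T.1), 3 * (S2.2 + T.2))),
     (([3], []), (-6 * T.1, -6 * T.2)),
     (([0, 2], []), (12 * T.1, 12 * T.2))]
  | _ => []

/-- minus the area form with integer coefficients -/
def qfM (P : Par) (M : M3) : Pol :=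
  (List.range 3).flatMap (fun r => (List.range 3).flatMap (fun t =>
    pmul (pmul [(([], []), (-(M r t).1, -(M r t).2))] (XP P t)) (pconj (XP P r))))

/-- the normalisation of the moments -/
noncomputable def xsc (P : Par) : ℕ → ℝ
  | 0 => 1
  | 1 => 1 / (2 * P.sr)
  | 2 => 1 / (4 * P.sr ^ 2)
  | _ => 0

theorem pv_XP (P : Par) (hs : P.sr ≠ 0) (c ψ : ℕ → ℂ) {r : ℕ} (hr : r < 3) :
    XS (((P.p : ℂ) + P.q * Complex.I) / P.sr) c r = xsc P r * pv c ψ (XP P r) := by
  have hs' : (P.sr : ℂ) ≠ 0 := by exact_mod_cast hs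
  have hI : Complex.I ^ 2 = -1 := Complex.I_sq
  interval_cases r
  · simp [XS, xsc, XP, pv_cons, pv_nil, mv, gv]
  · simp only [XS, xsc, XP, pv_cons, pv_nil, mv, gv, List.map_cons, List.map_nil, List.prod_cons,
      List.prod_nil]
    push_cast
    field_simp
    ring
  · simp only [XS, xsc, XP, pv_cons, pv_nil, mv, gv, gmul, List.map_cons, List.map_nil,
      List.prod_cons, List.prod_nil]
    push_cast
    field_simp
    ring_nf
    simp only [hI]
    ring

theorem pv_flatMap {α : Type} (φ ψ : ℕ → ℂ) (l : List α) (f : α → Pol) :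
    pv φ ψ (l.flatMap f) = (l.map (fun x => pv φ ψ (f x))).sum := by
  induction l with
  | nil => rfl
  | cons x l ih =>
    rw [List.flatMap_cons, pv_append, ih, List.map_cons, List.sum_cons]

theorem sum_range_list (n : ℕ) (f : ℕ → ℂ) :
    ((List.range n).map f).sum = ∑ i ∈ Finset.range n, f i := by
  induction n with
  | zero => simp
  | succ n ih => rw [List.range_succ, List.map_append, List.sum_append, ih, Finset.sum_range_succ]; simp

/-- the area form is the polynomial -/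
theorem qS_eq (P : Par) (hs : P.sr ≠ 0) (M : M3) (Q : ℕ → ℕ → ℂ) {N b : ℝ} (c : ℕ → ℂ)
    (hQ : ∀ r < 3, ∀ t < 3, ((N * (b * (b + 1) * (b + 2) / poch b (2 * r + 2 * t)
      * (xsc P r * xsc P t)) : ℝ) : ℂ) * Q r t = gv (M r t)) :
    N * qS Q (((P.p : ℂ) + P.q * Complex.I) / P.sr) b c
      = -(pv c (fun k => conj (c k)) (qfM P M)).re := by
  unfold qS qfM
  rw [pv_flatMap, sum_range_list]
  have h1 : ∀ r ∈ Finset.range 3, ∀ t ∈ Finset.range 3,
      N * (b * (b + 1) * (b + 2) * ((Q r t * (XS (((P.p : ℂ) + P.q * Complex.I) / P.sr) c t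
        * conj (XS (((P.p : ℂ) + P.q * Complex.I) / P.sr) c r))).re / poch b (2 * r + 2 * t)))
      = -(pv c (fun k => conj (c k)) (pmul (pmul [(([], []), (-(M r t).1, -(M r t).2))] (XP P t))
          (pconj (XP P r)))).re := by
    intro r hr t ht
    have hr' := Finset.mem_range.1 hr
    have ht' := Finset.mem_range.1 ht
    have h2 := hQ r hr' t ht'
    rw [pv_XP P hs c (fun k => conj (c k)) hr', pv_XP P hs c (fun k => conj (c k)) ht', pv_mul,
      pv_mul, pv_conj]
    have h3 : (fun k => conj ((fun k => conj (c k)) k)) = c := by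
      funext k
      simp
    rw [h3]
    have h4 : pv c (fun k => conj (c k)) [((([] : List ℕ), ([] : List ℕ)),
        ((-(M r t).1, -(M r t).2) : GZ))] = -gv (M r t) := by
      simp [pv_cons, pv_nil, mv, gv]
      ring
    rw [h4, ← h2]
    rw [← Complex.neg_re]
    have h5 : -(-(((N * (b * (b + 1) * (b + 2) / poch b (2 * r + 2 * t)
        * (xsc P r * xsc P t)) : ℝ) : ℂ) * Q r t) * pv c (fun k => conj (c k)) (XP P t)
          * conj (pv c (fun k => conj (c k)) (XP P r)))
        = ((N * (b * (b + 1) * (b + 2) / poch b (2 * r + 2 * t)) : ℝ) : ℂ)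
          * (Q r t * ((xsc P t : ℂ) * pv c (fun k => conj (c k)) (XP P t)
            * conj ((xsc P r : ℂ) * pv c (fun k => conj (c k)) (XP P r)))) := by
      rw [map_mul, Complex.conj_ofReal]
      push_cast
      ring
    rw [h5, Complex.re_ofReal_mul]
    ring
  have h6 : (∑ i ∈ Finset.range 3, pv c (fun k => conj (c k))
      ((List.range 3).flatMap (fun t => pmul (pmul [(([], []), (-(M i t).1, -(M i t).2))] (XP P t))
        (pconj (XP P i))))).re
      = ∑ r ∈ Finset.range 3, ∑ t ∈ Finset.range 3, (pv c (fun k => conj (c k))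
        (pmul (pmul [(([], []), (-(M r t).1, -(M r t).2))] (XP P t)) (pconj (XP P r)))).re := by
    rw [Complex.re_sum]
    refine Finset.sum_congr rfl fun r _ => ?_
    rw [pv_flatMap, sum_range_list, Complex.re_sum]
  rw [h6, ← Finset.sum_neg_distrib, Finset.mul_sum, Finset.mul_sum]
  refine Finset.sum_congr rfl fun r hr => ?_
  rw [← Finset.sum_neg_distrib, Finset.mul_sum, Finset.mul_sum]
  refine Finset.sum_congr rfl fun t ht => ?_
  exact h1 r hr t ht

/-- the relations used by a certificate -/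
noncomputable def relsC (C : Cert) (N : ℝ) (Bt : List (List (List ℕ))) : List (ℂ × List ℕ × List ℕ) :=
  (decGs C.wL C.hL C.G Bt).map (fun t => (-((C.mL / N : ℝ) : ℂ) * gv t.2, t.1.1, t.1.2))

theorem hc_of_cert {t : Tab} {bas : List Mo} {prs : List (Mo × Mo)} {Bt : List (List (List ℕ))}
    {n W K : ℕ} (ht : TabOK t bas prs Bt n W K) (C : Cert) (h : check t n W K C = true)
    (M : M3) (hqf : C.qf = qfM C.P M) (Q : ℕ → ℕ → ℂ) {N b : ℝ} (hN : 0 < N) {s : ℂ}
    (hs : s = ((C.P.p : ℂ) + C.P.q * Complex.I) / C.P.sr) (hb : b = (C.P.bn : ℝ) / C.P.bd)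
    (hQ : ∀ r < 3, ∀ t < 3, ((N * (b * (b + 1) * (b + 2) / poch b (2 * r + 2 * t)
      * (xsc C.P r * xsc C.P t)) : ℝ) : ℂ) * Q r t = gv (M r t)) (c : ℕ → ℂ) :
    (C.eta : ℝ) / N ≤ qS Q s b c
      + ((relsC C N Bt).map (fun x => (x.1 * relS s b c x.2.1 x.2.2).re)).sum := by
  have h1 := sound ht C h c
  have hsr : C.P.sr ≠ 0 := by
    have h2 := h
    simp only [check, Bool.and_eq_true] at h2
    obtain ⟨_, _, hsr, _⟩ := h2
    have hsr' : 1 ≤ C.P.sr := Nat.ble_eq.mp hsr
    omega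
  have hbc : ((C.P.bn : ℂ) / C.P.bd) = ((b : ℝ) : ℂ) := by
    rw [hb]
    push_cast
    rfl
  have h2 := qS_eq C.P hsr M Q (N := N) (b := b) c hQ
  rw [← hs] at h2
  rw [hbc, ← hs, rel_eq, hqf] at h1
  have h3 : ((relsC C N Bt).map (fun x => (x.1 * relS s b c x.2.1 x.2.2).re)).sum
      = -(C.mL / N) * ((decGs C.wL C.hL C.G Bt).map (fun t => gv t.2
        * relS s b c t.1.1 t.1.2)).sum.re := by
    unfold relsC
    generalize decGs C.wL C.hL C.G Bt = L
    induction L with
    | nil => simp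
    | cons x L ih =>
      simp only [List.map_cons, List.sum_cons, Complex.add_re] at ih ⊢
      rw [ih]
      have h4 : (-((C.mL / N : ℝ) : ℂ) * gv x.2 * relS s b c x.1.1 x.1.2).re
          = -(C.mL / N) * (gv x.2 * relS s b c x.1.1 x.1.2).re := by
        rw [mul_assoc, ← Complex.ofReal_neg, Complex.re_ofReal_mul]
      rw [h4]
      ring
  rw [h3]
  obtain ⟨q, hq⟩ : ∃ q, q = qS Q s b c := ⟨_, rfl⟩
  obtain ⟨r, hr⟩ : ∃ r, r = ((decGs C.wL C.hL C.G Bt).map (fun t => gv t.2
        * relS s b c t.1.1 t.1.2)).sum.re := ⟨_, rfl⟩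
  rw [← hq] at h2 ⊢
  rw [← hr] at h1 ⊢
  have h5 : (C.eta : ℝ) ≤ N * q - C.mL * r := by linarith
  rw [div_le_iff₀ hN]
  have h6 : (q + -(C.mL / N) * r) * N = N * q - C.mL * r := by
    field_simp
    ring
  rw [h6]
  exact h5

end Pool.Agent.Helper12.HR2
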