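import Mathlib.Data.Int.Basic

/-!
MP_16b0ee, project HR2: the kernel computation of a certificate. All functions are written with
recursors and the operations of `Nat` and `Int` for the sake of kernel evaluation.

A polynomial in the variables `c_k` and their conjugates is evaluated at `c_k = 2 ^ (al k)`,
`conj c_k = 2 ^ (be k)`; coefficients are packed digits with an offset.
-/

set_option autoImplicit false

namespace Pool.Agent.Helper12.HR2

/-- look up in a list -/
noncomputable def lk (l : List ℕ) : ℕ → ℕ :=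
  List.rec (motive := fun _ => ℕ → ℕ) (fun _ => 0)
    (fun x _ ih k => Nat.rec (motive := fun _ => ℕ) x (fun k' _ => ih k') k) l

/-- sum of the digits of `n` to the base `w`, shifted by the elements of the list -/
noncomputable def pk (w : ℕ) (es : List ℕ) : ℕ → ℕ :=
  List.rec (motive := fun _ => ℕ → ℕ) (fun _ => 0)
    (fun e _ ih n => Nat.add (Nat.shiftLeft (Nat.mod n w) e) (ih (Nat.div n w))) es

/-- sum of the powers of two -/
noncomputable def sm (es : List ℕ) : ℕ :=
  List.rec (motive := fun _ => ℕ) 0 (fun e _ ih => Nat.add (Nat.shiftLeft 1 e) ih) es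

/-- the same with multiplicities -/
noncomputable def pkm (w : ℕ) (es : List (ℕ × ℕ)) : ℕ → ℕ :=
  List.rec (motive := fun _ => ℕ → ℕ) (fun _ => 0)
    (fun e _ ih n => Nat.add (Nat.shiftLeft (Nat.mul e.2 (Nat.mod n w)) e.1) (ih (Nat.div n w))) es

/-- the same with multiplicities -/
noncomputable def smm (es : List (ℕ × ℕ)) : ℕ :=
  List.rec (motive := fun _ => ℕ) 0 (fun e _ ih => Nat.add (Nat.shiftLeft e.2 e.1) ih) es

/-- sum of the moduli of the digits -/
noncomputable def sab (w h : ℕ) (es : List ℕ) : ℕ → ℕ :=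
  List.rec (motive := fun _ => ℕ → ℕ) (fun _ => 0)
    (fun _ _ ih n => Nat.add (Nat.add (Nat.sub (Nat.mod n w) h) (Nat.sub h (Nat.mod n w)))
      (ih (Nat.div n w))) es

/-- addition -/
noncomputable def kadd (x y : ℤ × ℤ) : ℤ × ℤ := (Int.add x.1 y.1, Int.add x.2 y.2)

/-- multiplication -/
noncomputable def kmul (x y : ℤ × ℤ) : ℤ × ℤ :=
  (Int.sub (Int.mul x.1 y.1) (Int.mul x.2 y.2), Int.add (Int.mul x.1 y.2) (Int.mul x.2 y.1))

/-- conjugation -/
noncomputable def kcj (x : ℤ × ℤ) : ℤ × ℤ := (x.1, Int.neg x.2)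

/-- multiplication by an integer -/
noncomputable def ksc (n : ℤ) (x : ℤ × ℤ) : ℤ × ℤ := (Int.mul n x.1, Int.mul n x.2)

/-- a packed polynomial -/
noncomputable def rowv (w h : ℕ) (es : List ℕ) (x y : ℕ) : ℤ × ℤ :=
  (Int.subNatNat (pk w es x) (Nat.mul h (sm es)), Int.subNatNat (pk w es y) (Nat.mul h (sm es)))

/-- a packed polynomial with multiplicities -/
noncomputable def rowm (w h : ℕ) (es : List (ℕ × ℕ)) (x y : ℕ) : ℤ × ℤ :=
  (Int.subNatNat (pkm w es x) (Nat.mul h (smm es)), Int.subNatNat (pkm w es y) (Nat.mul h (smm es)))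

/-- the sum of the squares of the rows -/
noncomputable def rws (w h : ℕ) (rs : List (ℕ × ℕ)) : List ℕ → List ℕ → ℤ × ℤ :=
  List.rec (motive := fun _ => List ℕ → List ℕ → ℤ × ℤ) (fun _ _ => (0, 0))
    (fun r _ ih es es' =>
      kadd (kmul (rowv w h es r.1 r.2) (kcj (rowv w h es' r.1 r.2))) (ih es.tail es'.tail)) rs

/-- the shift of a monomial -/
noncomputable def shf (al : List ℕ) (A : List ℕ) : ℕ :=
  List.rec (motive := fun _ => ℕ) 0 (fun a _ ih => Nat.add (lk al a) ih) A

/-- the sum in the derivative of a variable -/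
noncomputable def dsum (al : List ℕ) (k : ℕ) (j : ℕ) : ℕ :=
  Nat.rec (motive := fun _ => ℕ) 0
    (fun i ih => Nat.add ih (Nat.shiftLeft 1 (Nat.add (lk al (Nat.succ i)) (lk al (Nat.sub k i))))) j

/-- the derivative of a variable -/
noncomputable def dk (al : List ℕ) (k : ℕ) : ℤ :=
  Nat.rec (motive := fun _ => ℤ)
    (Int.subNatNat (Nat.shiftLeft 3 (lk al 1)) (Nat.shiftLeft 1 (Nat.mul 2 (lk al 0))))
    (fun k' _ => Int.ofNat (Nat.add (Nat.shiftLeft (Nat.add k' 4) (lk al (Nat.add k' 2)))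
      (dsum al k' k'))) k

/-- the derivative of a monomial -/
noncomputable def Dk (al : List ℕ) (A : List ℕ) : ℤ :=
  List.rec (motive := fun _ => ℤ) (Int.ofNat 0)
    (fun a A ih => Int.add (Int.mul (dk al a) (Int.ofNat (Nat.shiftLeft 1 (shf al A))))
      (Int.mul (Int.ofNat (Nat.shiftLeft 1 (lk al a))) ih)) A

/-- the weight of a monomial -/
noncomputable def wtk (A : List ℕ) : ℕ :=
  List.rec (motive := fun _ => ℕ) 0 (fun a _ ih => Nat.add (Nat.succ a) ih) A

/-- the parameters: numerators of `s`, denominator of `s`, numerator and denominator of `b` -/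
structure Par where
  /-- numerator of the real part of `s` -/
  p : ℤ
  /-- numerator of the imaginary part of `s` -/
  q : ℤ
  /-- denominator of `s` -/
  sr : ℕ
  /-- numerator of `b` -/
  bn : ℕ
  /-- denominator of `b` -/
  bd : ℕ

/-- the first factor -/
noncomputable def EK (P : Par) (al : List ℕ) (A : List ℕ) : ℤ × ℤ :=
  (Int.sub (Int.sub (Int.mul (Int.ofNat (Nat.mul P.bd P.sr)) (Dk al A))
      (Int.mul (Int.mul (Int.ofNat (Nat.mul 2 P.bd)) P.p)
        (Int.ofNat (Nat.shiftLeft 1 (Nat.add (lk al 0) (shf al A))))))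
      (Int.ofNat (Nat.shiftLeft (Nat.mul P.sr (Nat.add P.bn (Nat.mul P.bd (wtk A)))) (shf al A))),
    Int.neg (Int.mul (Int.mul (Int.ofNat (Nat.mul 2 P.bd)) P.q)
        (Int.ofNat (Nat.shiftLeft 1 (Nat.add (lk al 0) (shf al A))))))

/-- a block of the multipliers -/
noncomputable def tA (P : Par) (w h : ℕ) (al : List ℕ) (es : List ℕ) (em : List (ℕ × ℕ))
    (g : List ℕ × ℕ × ℕ) : ℤ × ℤ :=
  kadd (kmul (EK P al g.1) (rowv w h es g.2.1 g.2.2))
    (ksc (Int.neg (Int.ofNat (Nat.shiftLeft (Nat.mul P.sr P.bd) (shf al g.1))))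
      (rowm w h em g.2.1 g.2.2))

/-- a group of blocks -/
noncomputable def tG (P : Par) (w h : ℕ) (al : List ℕ) (es : List ℕ) (em : List (ℕ × ℕ))
    (G : List (List ℕ × ℕ × ℕ)) : ℤ × ℤ :=
  List.rec (motive := fun _ => ℤ × ℤ) (0, 0) (fun g _ ih => kadd (tA P w h al es em g) ih) G

/-- all blocks; `tb` is the table of the shifts -/
noncomputable def tGs (P : Par) (w h : ℕ) (al : List ℕ) (Gs : List (List (List ℕ × ℕ × ℕ))) :
    List (List ℕ × List (ℕ × ℕ)) → ℤ × ℤ :=
  List.rec (motive := fun _ => List (List ℕ × List (ℕ × ℕ)) → ℤ × ℤ) (fun _ => (0, 0))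
    (fun G _ ih tb => List.rec (motive := fun _ => ℤ × ℤ) (0, 0)
      (fun t tb' _ => kadd (tG P w h al t.1 t.2 G) (ih tb')) tb) Gs

/-- the value of a short polynomial -/
noncomputable def evk (al be : List ℕ) (Q : List ((List ℕ × List ℕ) × (ℤ × ℤ))) : ℤ × ℤ :=
  List.rec (motive := fun _ => ℤ × ℤ) (0, 0)
    (fun x _ ih => kadd (ksc (Int.ofNat (Nat.shiftLeft 1 (Nat.add (shf al x.1.1) (shf be x.1.2))))
      x.2) ih) Q

/-- the norm of a short polynomial -/
noncomputable def nrk (Q : List ((List ℕ × List ℕ) × (ℤ × ℤ))) : ℕ :=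
  List.rec (motive := fun _ => ℕ) 0
    (fun x _ ih => Nat.add (Nat.add (Int.natAbs x.2.1) (Int.natAbs x.2.2)) ih) Q

/-- the length of a list -/
noncomputable def len {α : Type} (l : List α) : ℕ :=
  List.rec (motive := fun _ => ℕ) 0 (fun _ _ ih => Nat.succ ih) l

/-- the tables: everything that does not depend on the exponent -/
structure Tab where
  /-- shifts of the variables -/
  a : List ℕ
  /-- shifts of the conjugate variables -/
  b : List ℕ
  /-- shifts of the basis monomials -/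
  ba : List ℕ
  /-- shifts of the conjugate basis monomials -/
  bb : List ℕ
  /-- shifts of the squares of the moduli of the basis monomials -/
  bc : List ℕ
  /-- shifts of the products -/
  ra : List ℕ
  /-- shifts of the conjugate products -/
  rb : List ℕ
  /-- shifts of the second factors of the multipliers -/
  ta : List (List ℕ × List (ℕ × ℕ))
  /-- shifts of the second factors of the multipliers, conjugate -/
  tb : List (List ℕ × List (ℕ × ℕ))

/-- the data of a certificate -/
structure Cert where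
  /-- parameters -/
  P : Par
  /-- the constant -/
  eta : ℕ
  /-- the form -/
  qf : List ((List ℕ × List ℕ) × (ℤ × ℤ))
  /-- base of the digits of the multipliers -/
  wL : ℕ
  /-- offset -/
  hL : ℕ
  /-- common factor of the multipliers -/
  mL : ℕ
  /-- the multipliers -/
  G : List (List (List ℕ × ℕ × ℕ))
  /-- base of the digits of the rows -/
  wU : ℕ
  /-- offset -/
  hU : ℕ
  /-- the rows -/
  U : List (ℕ × ℕ)
  /-- base of the digits of the residual -/
  wR : ℕ
  /-- offset -/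
  hR : ℕ
  /-- the residual, real parts -/
  rx : ℕ
  /-- the residual, imaginary parts -/
  ry : ℕ
  /-- the multiple of the sum of squares -/
  eps : ℕ
  /-- multiplier of the left side -/
  m1 : ℕ
  /-- multiplier of the rows -/
  m2 : ℕ

/-- the value of the left side at the point `(al, be)` -/
noncomputable def TK (C : Cert) (al be : List ℕ) (tb : List (List ℕ × List (ℕ × ℕ))) : ℤ × ℤ :=
  kadd (kadd (Int.ofNat (Nat.mul (Nat.mul C.P.sr C.P.bd) C.eta), Int.ofNat 0)
    (ksc (Int.ofNat (Nat.mul C.P.sr C.P.bd)) (evk al be C.qf)))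
    (ksc (Int.ofNat C.mL) (tGs C.P C.wL C.hL al C.G tb))

/-- the value of the whole identity -/
noncomputable def FK (t : Tab) (C : Cert) : ℤ × ℤ :=
  kadd (kadd (ksc (Int.ofNat C.m1) (kadd (TK C t.a t.b t.ta) (kcj (TK C t.b t.a t.tb))))
    (ksc (Int.ofNat C.m2) (rws C.wU C.hU C.U t.ba t.bb)))
    (kadd (Int.ofNat (Nat.mul C.eps (sm t.bc)), Int.ofNat 0)
      (kadd (rowv C.wR C.hR t.ra C.rx C.ry) (kcj (rowv C.wR C.hR t.rb C.rx C.ry))))

/-- the bound of the norm of the group of blocks -/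
noncomputable def nG (P : Par) (w W : ℕ) (n : ℕ) (G : List (List ℕ × ℕ × ℕ)) : ℕ :=
  Nat.mul (len G) (Nat.mul (Nat.add (Nat.add (Nat.mul (Nat.mul P.bd P.sr) (Nat.mul 5 W))
    (Nat.mul (Nat.mul 2 P.bd) (Nat.add (Int.natAbs P.p) (Int.natAbs P.q))))
    (Nat.mul P.sr (Nat.add P.bn (Nat.mul P.bd W)))) (Nat.mul (Nat.mul 2 n) w))

/-- the bound of the norm of the blocks -/
noncomputable def nGs (P : Par) (w W : ℕ) (Gs : List (List (List ℕ × ℕ × ℕ))) :
    List (List ℕ × List (ℕ × ℕ)) → ℕ :=
  List.rec (motive := fun _ => List (List ℕ × List (ℕ × ℕ)) → ℕ) (fun _ => 0)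
    (fun G _ ih tb => List.rec (motive := fun _ => ℕ) 0
      (fun t tb' _ => Nat.add (nG P w W (len t.1) G) (ih tb')) tb) Gs

/-- the bound of the norm of the identity -/
noncomputable def nF (t : Tab) (C : Cert) (W : ℕ) : ℕ :=
  Nat.add (Nat.add (Nat.mul (Nat.mul 2 C.m1) (Nat.add (Nat.mul (Nat.mul C.P.sr C.P.bd)
    (Nat.add C.eta (nrk C.qf))) (Nat.mul C.mL (nGs C.P C.wL W C.G t.ta))))
    (Nat.mul C.m2 (Nat.mul (len C.U) (Nat.mul (Nat.mul (Nat.mul 2 (len t.ba)) C.wU)
      (Nat.mul (Nat.mul 2 (len t.ba)) C.wU)))))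
    (Nat.add (Nat.mul C.eps (len t.bc)) (Nat.mul 2 (Nat.mul (Nat.mul 2 (len t.ra)) C.wR)))

/-- the weight of the second factors (they are ordered by weight) -/
noncomputable def mwt (em : List (ℕ × ℕ)) : ℕ :=
  List.rec (motive := fun _ => ℕ) 0 (fun e _ ih => Bool.rec ih e.2 (Nat.ble ih e.2)) em

/-- all indices are smaller than `n` -/
noncomputable def alt (n : ℕ) (A : List ℕ) : Bool :=
  List.rec (motive := fun _ => Bool) true (fun a _ ih => and (Nat.ble (Nat.succ a) n) ih) A

/-- validity of a group -/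
noncomputable def okG (n W : ℕ) (G : List (List ℕ × ℕ × ℕ)) : Bool :=
  List.rec (motive := fun _ => Bool) true
    (fun g _ ih => and (and (alt n g.1) (Nat.ble (wtk g.1) W)) ih) G

/-- validity of the groups: `n + 1` variables, weights at most `W + 1` -/
noncomputable def okGs (n W : ℕ) (Gs : List (List (List ℕ × ℕ × ℕ))) :
    List (List ℕ × List (ℕ × ℕ)) → Bool :=
  List.rec (motive := fun _ => List (List ℕ × List (ℕ × ℕ)) → Bool) (fun _ => true)
    (fun G _ ih tb => List.rec (motive := fun _ => Bool) true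
      (fun t tb' _ => and (and (okG n (Nat.sub W (mwt t.2)) G) (Nat.ble (mwt t.2) W)) (ih tb')) tb)
      Gs

/-- validity of a short polynomial -/
noncomputable def okP (n W : ℕ) (Q : List ((List ℕ × List ℕ) × (ℤ × ℤ))) : Bool :=
  List.rec (motive := fun _ => Bool) true
    (fun x _ ih => and (and (and (alt n x.1.1) (alt n x.1.2))
      (Nat.ble (Nat.add (wtk x.1.1) (wtk x.1.2)) W)) ih) Q

/-- equality to zero -/
noncomputable def isz (x : ℤ) : Bool :=
  Int.rec (motive := fun _ => Bool) (fun n => Nat.beq n 0) (fun _ => false) x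

/-- the check; `n + 1` variables, weights up to `W + 1`, base `2 ^ K` -/
noncomputable def check (t : Tab) (n W K : ℕ) (C : Cert) : Bool :=
  and (and (and (and (isz (FK t C).1) (isz (FK t C).2))
    (Nat.ble (Nat.succ (nF t C (Nat.succ W))) (Nat.pow 2 K)))
    (and (okGs n W C.G t.ta) (okP (Nat.succ n) (Nat.succ W) C.qf)))
    (and (Nat.ble (Nat.mul 2 (Nat.add (sab C.wR C.hR t.ra C.rx) (sab C.wR C.hR t.ra C.ry))) C.eps)
      (and (Nat.ble 1 C.P.sr) (and (Nat.ble 1 C.P.bd) (and (Nat.ble 1 C.m1)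
        (and (Nat.ble (Nat.succ C.hL) C.wL) (and (Nat.ble (Nat.succ C.hU) C.wU)
          (Nat.ble (Nat.succ C.hR) C.wR)))))))

end Pool.Agent.Helper12.HR2
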