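import Pool.Agent.Helper12.HR2.QTree

/-!
MP_16b0ee, project HR2: the covering of the annulus by the discs of the checked exponents.
-/

set_option autoImplicit false
set_option linter.defProp false

namespace Pool.Agent.Helper12.HR2.B

/-- the parameters -/
def cw_P : QP := ⟨73, 100, 54, 10000⟩

/-- the first disc (used by default) -/
def cw_d : Dsc := ⟨70, -7, 200, 16668, 100000⟩

/-- the other discs -/
def cw_ds : List Dsc := [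
  ⟨23, -3, 100, 7154, 100000⟩,
  ⟨-13, -12, 2000, 9888, 100000000⟩,
  ⟨13, -2, 200, 5560, 1000000⟩,
  ⟨-22, -12, 1000, 7906, 10000000⟩,
  ⟨21, 0, 500, 22554, 10000000⟩,
  ⟨16, -12, 100, 5214, 100000⟩,
  ⟨19, -2, 100, 4820, 100000⟩,
  ⟨23, -6, 500, 2892, 1000000⟩,
  ⟨10, -9, 100, 23370, 1000000⟩,
  ⟨9, -7, 200, 4156, 1000000⟩,
  ⟨41, -2, 100, 22727, 100000⟩,
  ⟨-10, -12, 100, 3001, 100000⟩,
  ⟨-4, -18, 4000, 2689, 100000000⟩,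
  ⟨4, -19, 500, 19112, 10000000⟩,
  ⟨-16, -10, 500, 17879, 10000000⟩,
  ⟨10, -21, 200, 17246, 1000000⟩,
  ⟨20, -3, 4000, 3239, 100000000⟩,
  ⟨-21, -9, 200, 16092, 1000000⟩,
  ⟨4, -19, 4000, 2983, 100000000⟩,
  ⟨24, -18, 100, 11784, 100000⟩,
  ⟨-2, -25, 4000, 4975, 100000000⟩,
  ⟨-12, -15, 4000, 2917, 100000000⟩,
  ⟨-14, -18, 1000, 6558, 10000000⟩,
  ⟨-3, -38, 100, 17461, 100000⟩,
  ⟨-21, -1, 4000, 3492, 100000000⟩,
  ⟨31, -26, 100, 21231, 100000⟩,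
  ⟨-7, -12, 1000, 24386, 100000000⟩,
  ⟨56, -33, 100, 5368, 10000⟩,
  ⟨18, -2, 2000, 10401, 100000000⟩,
  ⟨-22, -13, 4000, 5158, 100000000⟩,
  ⟨18, -10, 2000, 13446, 100000000⟩,
  ⟨14, -20, 500, 3036, 1000000⟩,
  ⟨7, -13, 200, 6945, 1000000⟩,
  ⟨-23, -24, 100, 13057, 100000⟩,
  ⟨2, -12, 200, 4687, 1000000⟩,
  ⟨-11, -6, 200, 4900, 1000000⟩,
  ⟨20, -1, 200, 12992, 1000000⟩,
  ⟨12, -16, 1000, 5077, 10000000⟩,
  ⟨-34, -8, 100, 14240, 100000⟩,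
  ⟨12, -10, 1000, 3097, 10000000⟩,
  ⟨-13, -13, 200, 10513, 1000000⟩,
  ⟨-17, -12, 2000, 13673, 100000000⟩,
  ⟨-15, -7, 4000, 21654, 1000000000⟩,
  ⟨28, -9, 100, 11536, 100000⟩,
  ⟨25, -6, 4000, 5236, 100000000⟩,
  ⟨9, -13, 500, 12708, 10000000⟩,
  ⟨12, -18, 2000, 14830, 100000000⟩,
  ⟨-20, -6, 100, 5256, 100000⟩,
  ⟨-3, -24, 2000, 18501, 100000000⟩,
  ⟨-23, -3, 500, 2694, 1000000⟩,
  ⟨16, -10, 500, 18158, 10000000⟩,
  ⟨20, -9, 200, 15570, 1000000⟩,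
  ⟨13, -12, 200, 10046, 1000000⟩,
  ⟨-6, -20, 200, 13647, 1000000⟩,
  ⟨-5, -22, 500, 2569, 1000000⟩,
  ⟨2, -18, 2000, 10380, 100000000⟩,
  ⟨2, -16, 100, 3274, 100000⟩,
  ⟨16, -20, 100, 8449, 100000⟩,
  ⟨-18, -3, 1000, 4196, 10000000⟩,
  ⟨-15, 0, 100, 2747, 100000⟩,
  ⟨-4, -18, 1000, 4298, 10000000⟩,
  ⟨16, -3, 500, 13520, 10000000⟩,
  ⟨5, -24, 1000, 7615, 10000000⟩,
  ⟨9, -15, 100, 3917, 100000⟩,
  ⟨33, -3, 100, 14778, 100000⟩,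
  ⟨-13, -9, 1000, 3154, 10000000⟩,
  ⟨43, -19, 100, 2921, 10000⟩,
  ⟨-24, -4, 2000, 18675, 100000000⟩,
  ⟨34, -13, 100, 17675, 100000⟩,
  ⟨-7, -22, 100, 6531, 100000⟩,
  ⟨14, -5, 200, 7109, 1000000⟩,
  ⟨-35, -52, 100, 4386, 10000⟩,
  ⟨40, -10, 100, 22803, 100000⟩,
  ⟨-14, -2, 500, 10056, 10000000⟩,
  ⟨5, -13, 1000, 24584, 100000000⟩,
  ⟨15, -6, 100, 3414, 100000⟩,
  ⟨-16, -3, 2000, 8368, 100000000⟩,
  ⟨4, -61, 100, 4325, 10000⟩,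
  ⟨10, -14, 4000, 23427, 1000000000⟩,
  ⟨16, -20, 4000, 5195, 100000000⟩,
  ⟨-7, -9, 200, 4076, 1000000⟩,
  ⟨-15, -12, 100, 4487, 100000⟩,
  ⟨14, -2, 100, 2615, 100000⟩,
  ⟨-10, -14, 500, 14907, 10000000⟩,
  ⟨-7, -12, 2000, 6101, 100000000⟩,
  ⟨17, -9, 4000, 2930, 100000000⟩,
  ⟨17, -4, 1000, 3876, 10000000⟩,
  ⟨12, -9, 2000, 7130, 100000000⟩,
  ⟨-7, -17, 2000, 10686, 100000000⟩,
  ⟨-3, -14, 500, 10360, 10000000⟩,
  ⟨6, -24, 100, 7680, 100000⟩,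
  ⟨65, -14, 100, 5692, 10000⟩,
  ⟨23, -5, 1000, 7051, 10000000⟩,
  ⟨-16, -2, 200, 8069, 1000000⟩,
  ⟨21, -9, 100, 6890, 100000⟩,
  ⟨13, -3, 1000, 22599, 100000000⟩,
  ⟨5, -14, 2000, 6996, 100000000⟩,
  ⟨35, -50, 100, 4548, 10000⟩,
  ⟨27, -1, 100, 9769, 100000⟩,
  ⟨52, -5, 100, 3640, 10000⟩,
  ⟨3, -17, 1000, 3774, 10000000⟩,
  ⟨3, -19, 200, 11708, 1000000⟩,
  ⟨-3, -13, 100, 22232, 1000000⟩,
  ⟨18, -32, 100, 16972, 100000⟩,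
  ⟨20, -13, 1000, 7237, 10000000⟩,
  ⟨-60, -18, 100, 4335, 10000⟩,
  ⟨-4, -14, 200, 6664, 1000000⟩]

/-- a leaf -/
abbrev L : ℕ → QT := QT.leaf
/-- a node -/
abbrev N : QT → QT → QT → QT → QT := QT.node
/-- outside -/
abbrev O : QT := QT.out
/-- inside -/
abbrev I : QT := QT.inn

/-- the tree of the right quadrant -/
def cw_t1 : QT :=
    (N (N (N (N (N (N (N (N (N I I I (N I I I (N I I I (L 78)))) (N (N I (N I (L 16) (N I (L 16) I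
    (L 16)) (L 16)) I (N (N I (L 16) I (L 16)) (L 16) (N (N I I I (L 85)) (L 16) (L 85) (L 85)) (L
    16))) (L 16) (N (N I (N I I I (L 85)) I (L 85)) (L 85) (N (N I (L 85) I (L 85)) (L 85) (N (L
    78) (L 85) (L 78) (L 78)) (L 85)) (L 85)) (N (L 85) (L 44) (L 85) (N (L 44) (L 44) (L 85) (L
    44)))) (N (N I I (N I (N I I (L 18) (L 18)) (L 18) (L 18)) (L 18)) (N (N I I (L 78) (L 78)) (L
    78) (N (L 78) (L 78) (L 18) (L 78)) (L 78)) (N (L 18) (L 18) (N (L 18) (L 18) (L 20) (L 18)) (L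
    18)) (N (L 18) (N (N (L 78) (L 78) (N (L 18) (L 78) (L 18) (L 18)) (L 78)) (L 79) (N (L 18) (L
    79) (N (L 18) (L 18) (L 18) (N (L 18) (L 18) (L 18) (L 79))) (L 79)) (L 79)) (N (L 18) (L 18)
    (L 18) (L 96)) (L 96))) (N (N (N (L 78) (N (L 78) (L 85) (L 78) (L 78)) (L 78) (L 78)) (N (L
    85) (L 85) (N (N (L 85) (L 85) (L 78) (L 79)) (L 85) (L 79) (L 79)) (N (L 85) (L 85) (L 79) (L
    79))) (N (L 78) (L 78) (L 78) (L 79)) (L 79)) (N (N (L 85) (L 85) (N (L 85) (L 85) (L 79) (L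
    79)) (L 87)) (L 87) (L 79) (L 87)) (L 79) (N (L 79) (L 87) (L 79) (L 87)))) (N (N (L 44) (L 28)
    (L 44) (N (L 28) (L 28) (N (L 28) (L 28) (N (L 44) (L 28) (L 44) (N (L 28) (L 28) (N (L 44) (L
    28) (L 30) (L 30)) (L 28))) (L 28)) (L 28))) (N (L 28) (N (L 28) (N (L 28) (L 95) (L 28) (L
    95)) (L 28) (L 28)) (L 28) (L 95)) (N (L 87) (N (N (N (N (L 44) (L 30) (L 30) (L 30)) (L 30) (L
    30) (L 30)) (L 30) (L 30) (L 30)) (L 30) (L 30) (L 30)) (L 87) (L 30)) (N (L 30) (L 95) (L 30)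
    (L 30))) (N (N (N (L 20) (N (L 20) (L 96) (L 20) (L 96)) (L 20) (L 96)) (L 96) (L 55) (L 96))
    (N (N (L 96) (L 79) (L 96) (L 96)) (N (L 79) (N (L 79) (L 87) (N (L 79) (L 87) (L 46) (L 46))
    (L 87)) (N (N (L 79) (L 79) (L 96) (L 46)) (L 46) (L 46) (L 46)) (L 46)) (N (L 96) (L 96) (L
    96) (L 46)) (L 46)) (N (L 55) (L 55) (N (L 48) (L 55) (L 48) (L 48)) (N (L 55) (N (L 55) (L 55)
    (L 55) (L 74)) (N (L 55) (L 55) (N (L 48) (L 55) (L 48) (N (L 48) (L 55) (L 48) (L 74))) (L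
    74)) (L 74))) (N (N (N (L 55) (L 46) (L 55) (L 46)) (L 46) (N (L 55) (L 46) (L 55) (N (L 46) (L
    46) (L 74) (L 46))) (L 46)) (L 46) (L 74) (L 74))) (N (N (N (L 87) (N (L 30) (L 30) (N (L 87)
    (L 30) (L 46) (L 30)) (L 30)) (L 46) (L 46)) (N (L 30) (L 30) (N (L 30) (L 30) (L 46) (L 30))
    (L 30)) (L 46) (N (L 46) (N (L 30) (L 30) (L 46) (N (L 30) (L 30) (L 46) (L 46))) (L 46) (L
    46))) (N (L 30) (N (L 30) (L 30) (L 30) (L 39)) (N (N (L 30) (L 30) (N (L 30) (L 30) (L 39) (L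
    39)) (L 39)) (L 39) (L 39) (L 39)) (L 39)) (N (L 46) (L 46) (L 46) (N (L 46) (L 39) (L 74) (N
    (N (L 46) (L 39) (L 46) (L 39)) (L 39) (L 74) (L 39)))) (L 39))) (N (N (L 95) (N (N (L 95) (L
    86) (L 86) (L 86)) (L 86) (L 86) (L 86)) (L 95) (L 86)) (N (N (L 86) (N (L 86) (L 92) (L 86) (L
    86)) (L 86) (L 86)) (L 92) (L 86) (L 92)) (N (N (N (N (L 95) (L 95) (L 39) (L 39)) (L 95) (L
    39) (L 39)) (N (L 95) (L 86) (L 39) (L 86)) (L 39) (L 39)) (N (L 86) (L 86) (N (L 39) (L 86) (L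
    39) (N (L 39) (L 86) (L 39) (L 39))) (N (L 86) (L 86) (N (L 86) (L 86) (N (L 86) (L 86) (L 39)
    (L 86)) (L 86)) (L 86))) (L 39) (N (L 39) (L 104) (L 39) (L 104))) (N (N (L 86) (L 86) (N (L
    86) (L 86) (L 86) (L 104)) (L 92)) (L 92) (L 104) (L 104))) (N (N (N (L 48) (N (N (L 48) (L 74)
    (L 48) (L 74)) (L 74) (L 74) (L 74)) (N (L 48) (L 48) (L 48) (L 100)) (L 74)) (L 74) (L 100) (L
    100)) (N (N (L 74) (N (L 74) (N (L 74) (L 39) (L 74) (L 74)) (L 74) (L 74)) (L 74) (L 74)) (N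
    (N (L 39) (L 37) (L 37) (L 37)) (L 37) (L 37) (L 37)) (N (L 74) (L 37) (L 100) (L 37)) (L 37))
    (N (L 100) (L 100) (L 62) (L 62)) (N (N (L 100) (N (L 37) (L 37) (N (L 37) (L 37) (L 62) (L
    37)) (L 37)) (L 62) (L 62)) (L 37) (L 62) (N (L 62) (N (L 37) (L 37) (L 62) (N (L 37) (L 37) (N
    (L 37) (L 37) (L 62) (L 62)) (N (L 37) (L 37) (L 45) (L 45)))) (L 62) (N (L 62) (N (L 62) (L
    45) (L 45) (L 45)) (L 62) (L 45))))) (N (N (L 37) (L 104) (L 37) (L 37)) (L 104) (N (L 37) (N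
    (L 37) (N (L 37) (L 104) (L 37) (L 45)) (L 37) (L 45)) (N (N (L 37) (L 37) (L 37) (L 45)) (L
    45) (L 45) (L 45)) (L 45)) (N (N (L 104) (L 104) (L 45) (L 45)) (N (L 104) (L 104) (L 45) (N (N
    (L 45) (L 104) (L 45) (L 45)) (N (N (L 104) (L 50) (L 45) (L 50)) (L 50) (L 45) (L 50)) (L 45)
    (L 45))) (L 45) (L 45)))) (N (N (N (L 92) (N (N (L 92) (L 61) (L 61) (L 61)) (L 61) (L 61) (L
    61)) (L 92) (L 61)) (L 61) (N (L 92) (L 61) (N (L 92) (L 92) (L 104) (N (L 92) (L 61) (L 104)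
    (L 104))) (L 61)) (L 61)) (N (L 4) (L 4) (N (L 61) (L 4) (L 61) (L 7)) (L 7)) (N (N (L 104) (N
    (N (N (L 104) (L 61) (L 104) (N (L 61) (L 61) (L 104) (L 61))) (L 61) (N (L 104) (L 50) (L 50)
    (L 50)) (L 50)) (L 50) (L 50) (L 50)) (N (L 104) (L 50) (L 104) (L 50)) (L 50)) (L 50) (L 50)
    (L 50)) (N (N (L 7) (L 7) (L 50) (L 7)) (L 7) (L 50) (N (L 7) (L 7) (N (L 7) (L 7) (L 9) (L 7))
    (L 7)))) (N (N (N (L 62) (L 62) (N (L 62) (L 62) (L 89) (L 62)) (L 62)) (N (L 62) (L 62) (L 62)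
    (N (L 62) (L 45) (N (L 62) (L 62) (L 13) (L 13)) (L 45))) (N (N (L 89) (N (L 62) (L 62) (N (L
    62) (L 62) (N (L 89) (L 13) (L 13) (L 13)) (L 13)) (L 13)) (N (L 89) (L 89) (L 89) (L 13)) (L
    13)) (N (L 62) (L 13) (L 13) (L 13)) (L 13) (L 13)) (L 13)) (N (L 45) (L 45) (N (L 45) (L 45)
    (L 13) (N (L 13) (L 45) (L 13) (L 13))) (N (L 45) (L 45) (L 45) (L 31))) (N (L 13) (L 13) (N (L
    13) (L 13) (N (L 13) (L 13) (L 54) (L 13)) (L 13)) (L 13)) (N (L 13) (L 31) (N (L 13) (L 13) (L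
    13) (N (L 13) (N (L 13) (L 31) (L 13) (L 31)) (N (L 13) (L 13) (L 13) (L 34)) (N (N (L 13) (L
    31) (L 13) (L 31)) (L 31) (L 34) (L 31)))) (L 31))) (N (N (N (L 45) (L 50) (L 45) (N (L 50) (L
    50) (N (N (L 45) (L 45) (L 31) (L 31)) (L 50) (L 31) (L 31)) (L 31))) (L 50) (L 31) (N (L 31)
    (N (L 31) (L 9) (L 9) (L 9)) (L 31) (L 9))) (N (N (L 50) (L 9) (L 9) (L 9)) (L 9) (L 9) (L 9))
    (L 31) (N (L 9) (L 9) (N (L 9) (L 9) (L 31) (L 9)) (L 9)))) (N (N (N (N (L 4) (L 4) (L 4) (L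
    7)) (N (N (N (L 4) (L 4) (L 4) (L 2)) (L 2) (L 2) (L 2)) (L 2) (L 2) (L 2)) (L 7) (L 2)) (L 2)
    (N (L 7) (L 2) (L 7) (N (L 7) (L 2) (N (L 7) (L 70) (N (L 7) (L 7) (L 9) (L 70)) (L 70)) (L
    70))) (L 2)) (N (N (L 2) (N (L 2) (N (N (L 2) (L 36) (L 2) (L 36)) (L 36) (L 2) (L 36)) (L 2)
    (L 36)) (L 2) (L 2)) (L 36) (L 70) (N (N (L 36) (L 36) (L 70) (L 36)) (L 36) (L 70) (L 36))) (N
    (N (L 9) (N (N (L 9) (L 70) (L 9) (L 9)) (L 70) (L 9) (L 70)) (L 9) (L 9)) (L 70) (N (L 9) (L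
    9) (L 9) (N (L 9) (L 9) (L 9) (L 52))) (N (N (L 70) (L 70) (N (L 9) (L 70) (L 9) (N (L 70) (L
    70) (L 52) (L 52))) (L 70)) (L 70) (L 52) (L 52))) (N (L 70) (N (L 70) (N (N (L 70) (L 36) (L
    51) (L 51)) (L 51) (L 51) (L 51)) (L 70) (L 51)) (N (L 70) (L 70) (L 52) (N (N (L 70) (L 51) (L
    52) (L 51)) (L 51) (L 52) (L 51))) (L 51))) (N (N (N (N (N (L 54) (N (L 13) (L 13) (L 34) (L
    34)) (L 34) (L 34)) (L 34) (L 34) (L 34)) (L 34) (L 34) (L 34)) (N (L 34) (N (N (N (L 31) (L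
    31) (L 34) (L 31)) (L 31) (L 34) (L 31)) (L 31) (L 34) (N (L 31) (L 31) (L 34) (L 34))) (L 34)
    (L 34)) (L 34) (L 34)) (N (N (L 31) (L 31) (L 32) (L 32)) (N (N (L 31) (N (L 9) (L 9) (L 32) (L
    32)) (L 32) (L 32)) (N (L 9) (L 9) (L 32) (N (L 32) (N (L 9) (L 9) (L 32) (L 32)) (L 32) (L
    32))) (L 32) (L 32)) (L 32) (L 32)) (N (N (N (L 34) (L 34) (N (L 34) (L 34) (N (N (L 34) (L 34)
    (L 106) (L 34)) (L 34) (L 101) (L 101)) (L 34)) (L 34)) (L 34) (L 101) (L 101)) (N (L 34) (N (L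
    32) (L 32) (L 101) (L 32)) (L 101) (L 101)) (L 101) (L 101)) (N (L 32) (L 32) (L 101) (L 15)))
    (N (N (N (N (L 9) (L 52) (N (N (L 9) (L 9) (L 32) (L 52)) (L 52) (L 32) (L 52)) (L 52)) (L 52)
    (L 52) (L 52)) (L 52) (L 52) (L 52)) (N (L 52) (L 51) (L 52) (N (L 52) (L 51) (N (L 52) (L 52)
    (L 8) (L 8)) (L 8))) (N (N (L 32) (L 52) (N (L 32) (N (L 32) (L 32) (L 15) (L 15)) (L 15) (L
    15)) (N (L 52) (L 52) (L 15) (L 15))) (L 52) (L 15) (N (L 15) (N (L 15) (N (L 15) (L 52) (L 15)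
    (L 15)) (L 15) (L 15)) (L 15) (L 15))) (N (N (L 52) (L 52) (L 52) (L 8)) (L 8) (N (N (N (L 52)
    (L 8) (N (L 15) (L 8) (L 15) (L 8)) (L 8)) (L 8) (N (L 15) (L 8) (L 8) (L 8)) (L 8)) (L 8) (L
    8) (L 8)) (L 8)))) (N (N (L 36) (N (N (L 36) (L 82) (L 36) (L 82)) (L 82) (L 82) (L 82)) (N (L
    51) (N (L 51) (N (L 51) (L 82) (L 51) (L 51)) (L 51) (L 51)) (L 51) (L 51)) (N (L 82) (L 82) (N
    (L 51) (L 82) (L 51) (N (L 51) (L 75) (L 51) (L 51))) (L 82))) (N (L 82) (N (N (N (L 82) (L 6)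
    (L 6) (L 6)) (L 6) (L 6) (L 6)) (L 6) (L 6) (L 6)) (N (L 82) (L 82) (L 75) (L 75)) (N (L 6) (L
    6) (L 75) (L 6))) (N (N (L 51) (L 51) (L 51) (N (L 51) (L 51) (L 8) (L 8))) (N (N (L 51) (L 75)
    (L 51) (L 75)) (L 75) (N (N (L 51) (L 51) (L 51) (L 75)) (L 75) (N (L 8) (L 75) (L 8) (L 8)) (L
    75)) (L 75)) (L 8) (N (N (L 8) (L 75) (L 8) (L 8)) (L 75) (L 8) (N (N (L 8) (L 75) (L 8) (L 8))
    (L 75) (L 8) (N (L 75) (L 5) (L 5) (L 5))))) (N (L 75) (N (L 75) (N (L 75) (L 6) (L 75) (L 75))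
    (L 75) (L 75)) (L 75) (N (L 75) (N (L 75) (L 94) (L 75) (L 94)) (L 5) (L 94)))) (N (N (L 101)
    (L 15) (N (N (L 102) (L 101) (L 56) (L 56)) (N (L 101) (L 101) (L 56) (L 56)) (L 56) (L 56)) (N
    (N (N (L 15) (L 15) (L 56) (L 15)) (L 15) (L 56) (L 15)) (L 15) (L 56) (L 56))) (N (L 15) (N (N
    (L 15) (L 8) (L 15) (L 8)) (L 8) (N (L 15) (L 8) (L 15) (L 63)) (L 8)) (N (L 15) (L 15) (N (L
    15) (L 15) (L 56) (L 63)) (L 63)) (L 63)) (L 56) (N (N (L 56) (L 63) (L 56) (L 63)) (L 63) (N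
    (L 56) (L 63) (L 56) (L 90)) (L 63))) (N (N (L 8) (N (L 8) (N (L 8) (L 5) (L 5) (L 5)) (N (L 8)
    (L 5) (L 8) (L 5)) (L 5)) (L 63) (N (N (N (L 8) (L 5) (L 63) (L 5)) (L 5) (L 63) (L 5)) (L 5)
    (L 63) (L 5))) (L 5) (N (L 63) (N (L 63) (N (L 5) (L 5) (L 63) (L 5)) (L 63) (L 57)) (L 63) (L
    57)) (N (N (L 5) (L 5) (L 57) (L 5)) (N (L 5) (L 5) (L 5) (L 57)) (L 57) (L 57)))) (N (N (N (L
    6) (L 0) (L 6) (L 0)) (N (L 0) (L 98) (L 0) (L 98)) (N (N (N (L 6) (L 6) (N (L 6) (L 6) (N (N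
    (L 6) (L 6) (L 75) (L 6)) (L 6) (L 75) (L 94)) (L 94)) (N (L 6) (L 6) (L 94) (L 94))) (N (L 6)
    (L 0) (L 94) (L 94)) (L 94) (L 94)) (N (L 0) (L 0) (L 94) (L 94)) (L 94) (L 94)) (N (N (L 0) (L
    0) (L 0) (N (L 0) (L 0) (N (L 0) (L 0) (L 43) (L 43)) (L 43))) (N (N (L 0) (L 0) (L 0) (L 43))
    (L 43) (L 43) (L 43)) (N (L 94) (L 43) (L 94) (L 43)) (L 43))) (N (N (L 98) (N (L 98) (L 64) (L
    64) (L 64)) (N (L 98) (L 98) (L 98) (N (L 98) (L 64) (N (L 98) (L 98) (L 98) (N (L 98) (L 64)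
    (L 43) (L 43))) (L 64))) (L 64)) (N (L 64) (L 107) (L 64) (L 64)) (N (L 43) (N (L 64) (L 64) (L
    43) (N (L 43) (L 64) (L 43) (L 64))) (L 43) (L 43)) (N (L 64) (L 107) (N (N (N (L 43) (L 64) (L
    43) (N (L 43) (L 64) (L 43) (N (L 43) (L 64) (L 43) (L 68)))) (N (L 64) (L 64) (N (L 64) (L 64)
    (N (L 64) (L 64) (L 68) (L 68)) (L 68)) (L 107)) (L 43) (L 68)) (N (L 107) (L 107) (L 68) (L
    68)) (L 68) (L 68)) (N (N (L 107) (L 107) (L 68) (L 68)) (L 72) (L 68) (L 68)))) (N (N (L 94)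
    (L 94) (N (L 5) (L 94) (L 5) (N (L 5) (L 94) (L 5) (N (N (L 5) (L 19) (L 5) (L 19)) (L 19) (L
    19) (L 19)))) (N (L 94) (L 94) (N (L 94) (L 19) (L 19) (L 19)) (L 19))) (N (N (L 94) (L 43) (L
    94) (L 43)) (L 43) (N (N (L 94) (L 94) (L 19) (L 19)) (N (N (L 94) (L 43) (N (L 94) (L 94) (L
    19) (L 19)) (N (L 43) (L 43) (L 19) (L 19))) (L 43) (L 19) (L 19)) (L 19) (L 19)) (N (L 43) (L
    43) (L 19) (N (L 19) (L 43) (L 19) (L 19)))) (N (N (N (L 5) (L 5) (L 5) (N (L 5) (L 5) (L 5) (L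
    19))) (N (N (L 5) (L 19) (L 5) (L 19)) (L 19) (L 19) (L 19)) (L 57) (L 19)) (L 19) (L 19) (L
    19)) (L 19)) (N (N (L 43) (L 43) (N (L 43) (L 43) (L 43) (L 68)) (L 68)) (L 68) (N (N (L 19) (L
    68) (L 19) (N (L 19) (L 68) (L 19) (L 19))) (L 68) (L 19) (N (N (L 68) (L 68) (N (L 19) (L 68)
    (L 19) (L 25)) (L 68)) (L 68) (L 25) (L 25))) (L 68))) (N (N (N (N (L 56) (L 56) (N (L 56) (L
    56) (N (N (L 56) (L 56) (L 69) (L 90)) (L 56) (L 69) (L 90)) (L 90)) (L 90)) (L 90) (L 90) (L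
    90)) (L 90) (L 90) (L 90)) (N (N (N (L 90) (L 57) (L 90) (L 57)) (L 57) (L 90) (L 57)) (L 57)
    (N (L 90) (N (L 57) (L 57) (L 90) (L 57)) (L 90) (L 103)) (L 103)) (N (L 23) (N (L 90) (L 90)
    (L 23) (N (L 90) (L 103) (L 23) (L 103))) (L 23) (N (L 23) (N (L 23) (L 103) (L 23) (L 23)) (L
    23) (L 23))) (L 103)) (N (N (N (L 19) (L 19) (L 57) (L 19)) (L 19) (L 103) (L 25)) (N (L 25) (N
    (L 25) (N (L 25) (L 66) (L 25) (L 25)) (L 25) (L 25)) (L 25) (L 25)) (N (L 103) (N (L 25) (L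
    25) (L 103) (L 25)) (L 103) (L 103)) (N (L 25) (L 25) (L 97) (L 97)))) (N (N (N (N (L 10) (L
    10) (L 107) (L 10)) (N (L 10) (L 10) (L 10) (N (L 10) (L 10) (L 10) (L 99))) (N (N (L 107) (L
    10) (L 72) (L 72)) (L 72) (L 72) (L 72)) (N (N (L 10) (L 10) (L 10) (L 72)) (N (L 10) (L 99) (N
    (L 72) (L 99) (L 72) (L 72)) (L 99)) (L 72) (N (L 72) (L 99) (L 72) (N (L 72) (L 99) (L 72) (L
    72))))) (L 99) (N (L 72) (N (L 72) (L 72) (L 66) (L 66)) (L 66) (L 66)) (N (N (N (L 99) (L 99)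
    (N (N (L 72) (L 99) (N (L 72) (L 99) (L 66) (L 66)) (L 99)) (L 99) (L 66) (N (L 99) (L 99) (L
    66) (L 66))) (L 99)) (L 99) (N (L 66) (N (L 66) (L 99) (L 66) (L 66)) (L 66) (L 66)) (N (N (L
    99) (L 99) (N (L 66) (L 99) (L 66) (L 66)) (L 99)) (L 91) (N (L 66) (N (L 66) (L 91) (L 66) (L
    66)) (L 66) (L 66)) (L 91))) (L 91) (N (L 66) (N (L 66) (L 91) (L 66) (L 66)) (L 66) (L 66)) (L
    91))) (N (N (N (L 99) (L 91) (L 91) (L 91)) (L 91) (L 91) (L 91)) (L 91) (L 91) (L 91)) (N (N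
    (L 66) (L 66) (N (L 25) (L 66) (L 25) (N (L 25) (L 66) (L 25) (L 27))) (L 66)) (N (L 66) (L 27)
    (L 27) (L 27)) (N (N (L 25) (N (L 25) (L 27) (N (L 25) (L 27) (L 25) (L 27)) (L 27)) (N (L 25)
    (L 25) (L 25) (L 97)) (N (N (N (L 25) (L 25) (L 25) (L 27)) (L 27) (L 27) (L 27)) (L 27) (L 27)
    (L 27))) (L 27) (L 97) (L 27)) (L 27)) (N (L 27) (L 91) (L 27) (N (L 27) O (L 27) O))) (N (N (N
    (L 23) (L 23) (L 23) (L 77)) (N (N (N (L 23) (L 103) (L 23) (L 103)) (L 103) (L 77) (N (L 77)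
    (L 103) (L 77) (L 77))) (L 103) (L 77) (N (L 77) (N (L 77) (L 97) (L 77) (L 77)) (L 77) (L
    77))) (L 77) (L 77)) (N (N (L 103) (L 97) (L 97) (L 97)) (L 97) (L 97) (L 97)) (L 77) (N (N (L
    77) (L 97) (L 77) (L 77)) (L 97) (N (L 77) (N (L 77) (L 77) (L 77) (N (L 77) (L 97) (L 77) (N
    (L 77) (L 97) (L 77) (N (L 97) O O O)))) (L 77) (N (L 77) (N (L 77) O O O) O O)) (N (L 97) (L
    97) O O))) (N (N (L 97) (L 27) (L 97) (N (L 97) (N (L 27) (L 27) (L 97) (L 97)) (L 97) (N (L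
    97) (L 97) (L 97) O))) (N (L 27) O (N (N (L 27) O (L 27) O) O O O) O) (N (L 97) (N (L 97) O O
    O) O O) O))

/-- the tree of the left quadrant -/
def cw_t2 : QT :=
    (N (N (L 105) (N (L 105) (N (L 105) (L 38) (L 38) (L 38)) (L 105) (L 105)) (L 105) (N (L 105)
    (L 105) (L 105) (L 71))) (N (N (L 38) (N (N (L 38) (N (L 38) (L 47) (L 38) (L 38)) (L 38) (L
    38)) (L 47) (L 38) (L 47)) (L 38) (N (L 38) (N (L 47) (L 47) (N (L 38) (L 47) (L 33) (L 33)) (L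
    81)) (L 33) (L 33))) (N (N (N (L 47) (L 59) (L 47) (L 59)) (N (L 59) (N (L 59) (N (N (N (L 59)
    (L 93) (L 59) (L 93)) (L 93) (L 93) (L 93)) (L 93) (L 93) (L 93)) (L 17) (N (L 17) (L 93) (L
    17) (L 17))) (N (L 59) (L 17) (L 17) (L 17)) (L 17)) (L 47) (N (N (L 17) (L 17) (N (L 47) (L
    17) (L 47) (L 17)) (L 17)) (L 17) (L 81) (N (L 17) (N (L 17) (L 17) (L 11) (L 11)) (L 11) (L
    11)))) (N (N (L 93) (N (N (L 93) (N (L 93) (N (L 93) (N (L 93) (L 49) (L 49) (L 49)) (L 93) (L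
    49)) (L 93) (L 93)) (L 93) (L 93)) (L 49) (N (L 93) (L 93) (L 35) (L 35)) (N (N (N (L 49) (L
    35) (L 35) (L 35)) (L 49) (L 35) (L 35)) (L 49) (L 35) (L 35))) (N (L 17) (N (L 93) (L 93) (L
    17) (N (L 93) (L 35) (N (L 17) (L 35) (L 17) (L 17)) (L 35))) (L 17) (N (L 17) (N (L 17) (L 35)
    (L 17) (N (L 17) (L 35) (L 17) (L 35))) (L 17) (L 40))) (N (L 35) (L 35) (N (L 35) (L 35) (L
    40) (L 35)) (L 35))) (N (N (L 49) (N (L 73) (L 73) (N (L 73) (L 73) (N (N (L 49) (L 49) (L 49)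
    (L 14)) (L 73) (L 14) (L 14)) (N (L 73) (L 73) (L 14) (L 14))) (N (L 73) (L 73) (L 73) (L 3)))
    (N (L 49) (N (L 49) (L 14) (L 14) (L 14)) (N (L 35) (N (L 49) (L 14) (L 14) (L 14)) (L 35) (L
    35)) (L 14)) (N (L 14) (N (L 3) (L 3) (L 14) (L 3)) (L 14) (L 14))) (N (N (N (N (L 73) (L 58)
    (L 58) (L 58)) (L 58) (N (L 58) (L 58) (L 73) (L 58)) (L 58)) (N (L 58) (L 67) (L 58) (N (L 67)
    (L 67) (N (L 58) (L 67) (L 65) (L 65)) (N (L 67) (L 67) (L 65) (L 65)))) (N (L 3) (N (L 58) (L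
    58) (L 3) (L 3)) (L 3) (L 3)) (N (N (L 58) (L 65) (N (L 58) (L 65) (L 3) (L 65)) (L 65)) (L 65)
    (N (L 65) (L 65) (L 3) (L 65)) (L 65))) (N (N (N (L 67) (N (L 67) (L 76) (L 67) (L 76)) (L 67)
    (N (L 67) (L 76) (L 67) (L 76))) (N (L 76) (N (L 76) (L 24) (L 76) (N (L 24) (L 24) (L 76) (L
    24))) (L 76) (N (L 76) (N (L 76) (N (L 76) (N (L 24) (L 24) (L 29) (L 24)) (L 29) (L 29)) (L
    29) (L 29)) (L 76) (L 29))) (N (L 67) (N (L 67) (N (L 67) (L 76) (L 41) (L 41)) (L 41) (L 41))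
    (N (L 67) (L 41) (N (N (L 65) (L 67) (L 65) (L 41)) (L 41) (L 65) (L 41)) (L 41)) (L 41)) (N (N
    (L 76) (L 76) (L 41) (L 41)) (N (L 29) (L 29) (N (L 29) (L 1) (L 1) (L 1)) (L 29)) (L 41) (L
    1))) (N (N (N (L 24) (L 24) (L 24) (N (L 24) (L 24) (L 24) (L 42))) (N (N (L 24) I (L 24) (N (N
    (L 24) I (L 24) I) I (N (N (L 24) I (L 24) I) I (L 42) I) I)) I (N (N (L 24) (L 42) (L 24) (L
    42)) (L 42) (L 42) (L 42)) I) (N (N (N (L 24) (L 24) (L 29) (L 29)) (N (L 24) (L 24) (L 29) (L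
    29)) (L 29) (L 29)) (N (N (L 24) (L 42) (N (L 29) (N (L 24) (L 42) (L 29) (L 29)) (L 29) (L
    29)) (L 42)) (L 42) (L 29) (L 42)) (L 29) (L 29)) (N (L 42) (L 42) (N (L 42) (L 42) (L 29) (L
    42)) (N (L 42) (N (L 42) I (L 42) I) (N (L 42) (L 21) (L 21) (L 21)) (L 21)))) (N I I (N I I (N
    I I (N I I (L 21) I) I) I) I) (N (L 29) (N (N (L 29) (L 21) (L 29) (L 21)) (L 21) (N (L 21) (L
    21) (N (L 21) (L 21) (L 29) (L 21)) (L 21)) (L 21)) (N (L 1) (N (L 29) (N (L 29) (L 29) (L 29)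
    (L 84)) (L 1) (L 84)) (L 1) (L 1)) (L 84)) (N (N (L 21) (N I I (N (L 21) I (L 21) (L 21)) (N I
    I (N I I (N (L 21) I (L 12) (L 12)) (L 12)) I)) (L 21) (N (L 21) (L 12) (L 21) (L 12))) (N I I
    (L 12) (N (L 12) I (L 12) (L 12))) (N (N (L 21) (L 21) (L 84) (N (L 21) (N (L 21) (L 12) (L 21)
    (L 12)) (L 84) (L 84))) (L 12) (L 84) (N (N (L 84) (L 12) (L 84) (L 84)) (L 12) (L 84) (L 20)))
    (N (L 12) (L 12) (L 20) (L 20)))) (N (N (N (L 65) (L 41) (L 65) (L 41)) (L 41) (L 65) (N (L 41)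
    (L 41) (L 65) (L 41))) (N (L 1) (L 1) (L 41) (N (L 1) (L 1) (N (L 1) (L 1) (L 26) (L 26)) (N (L
    1) (L 1) (N (L 1) (L 1) (L 26) (L 26)) (N (L 1) (L 88) (L 26) (L 26))))) (N (L 65) (N (L 65) (N
    (L 65) (N (L 41) (L 26) (L 26) (L 26)) (L 26) (L 26)) (L 65) (L 26)) (L 65) (L 26)) (L 26)) (N
    (N (N (L 1) (L 1) (L 1) (L 84)) (L 84) (N (L 1) (L 88) (L 88) (L 88)) (L 88)) (N (N (L 84) (L
    20) (L 84) (N (L 20) (L 20) (L 88) (L 20))) (L 20) (L 88) (N (N (L 20) (L 20) (N (L 20) (L 20)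
    (L 88) (N (L 20) (L 20) (L 88) (L 20))) (L 20)) (L 20) (N (L 88) (L 55) (L 88) (L 55)) (L 55)))
    (N (N (L 88) (L 88) (L 26) (L 26)) (L 88) (L 26) (N (L 88) (L 48) (L 26) (L 48))) (N (N (L 88)
    (L 88) (L 48) (L 48)) (N (L 55) (L 55) (L 48) (L 48)) (L 48) (L 48)))) (N (L 3) (N (N (L 3) (N
    (L 3) (L 65) (L 3) (L 22)) (L 3) (L 22)) (N (L 65) (L 65) (L 22) (L 22)) (L 22) (L 22)) (N (N
    (L 3) (L 3) (L 14) (L 83)) (L 22) (L 83) (L 83)) (L 22)) (N (N (N (N (L 65) (L 26) (N (L 65) (L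
    65) (L 22) (N (L 22) (L 65) (L 22) (L 22))) (L 26)) (L 26) (N (L 22) (N (L 22) (L 26) (L 22) (L
    22)) (L 22) (L 22)) (L 26)) (L 26) (N (L 22) (N (L 22) (L 26) (L 22) (L 22)) (L 22) (L 22)) (N
    (N (L 26) (L 26) (N (L 26) (L 26) (L 22) (L 60)) (L 26)) (L 60) (L 60) (L 60))) (N (N (L 26) (L
    48) (L 26) (N (L 26) (L 48) (L 60) (L 48))) (L 48) (L 60) (N (L 60) (N (L 48) (L 48) (L 60) (L
    60)) (L 60) (L 60))) (N (L 22) (L 60) (N (L 22) (L 22) (L 22) (L 89)) (N (N (N (L 22) (L 60) (L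
    22) (L 60)) (L 60) (L 89) (L 60)) (L 60) (L 89) (L 89))) (N (L 60) (L 60) (L 60) (N (L 60) (N
    (L 60) (L 60) (L 60) (L 62)) (N (L 60) (L 60) (L 89) (L 89)) (N (N (L 60) (L 60) (L 60) (L 62))
    (L 62) (L 62) (L 62)))))) (N (N (L 35) (N (L 14) (L 14) (L 35) (L 14)) (L 35) (N (L 35) (N (N
    (L 14) (L 14) (L 80) (L 14)) (L 14) (L 80) (L 80)) (L 35) (L 80))) (N (L 14) (N (L 14) (L 14)
    (L 14) (L 83)) (N (N (L 14) (L 14) (L 80) (L 80)) (N (L 14) (L 14) (L 80) (L 80)) (L 80) (L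
    80)) (N (L 83) (L 83) (L 80) (L 83))) (L 80) (L 80)) (N (N (L 83) (N (L 83) (N (L 22) (N (L 22)
    (L 22) (L 83) (L 83)) (L 83) (L 83)) (L 83) (L 83)) (L 83) (N (L 83) (L 83) (L 83) (N (L 83) (N
    (L 83) (L 83) (L 54) (L 54)) (L 54) (L 54)))) (N (L 89) (L 89) (N (L 89) (L 89) (N (L 89) (L
    89) (L 54) (L 54)) (L 89)) (N (L 89) (L 89) (L 89) (N (L 89) (L 89) (L 89) (N (L 89) (L 13) (L
    13) (L 13))))) (N (N (L 83) (L 83) (N (L 80) (N (L 80) (N (L 83) (L 54) (L 54) (L 54)) (L 80)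
    (L 54)) (L 80) (L 54)) (L 54)) (L 54) (N (L 80) (L 54) (L 80) (L 54)) (L 54)) (N (L 54) (N (L
    54) (N (N (L 54) (N (L 89) (L 13) (L 54) (L 13)) (L 54) (L 13)) (L 13) (L 54) (L 13)) (L 54) (L
    54)) (L 54) (L 54)))) (N (N (L 17) (L 40) (L 17) (L 40)) (L 40) (N (N (L 17) (L 40) (L 11) (L
    40)) (L 40) (L 11) (N (L 11) (L 40) (L 11) (L 11))) (N (L 40) (L 40) (L 40) (N (L 40) (L 53) (N
    (L 40) (L 40) (L 53) (L 53)) (L 53)))) (N (N (L 80) (N (L 80) (L 80) (L 80) (L 106)) (N (L 40)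
    (N (L 80) (L 80) (N (L 40) (N (L 40) (L 80) (L 40) (L 80)) (L 40) (L 106)) (L 106)) (L 40) (N
    (N (L 40) (L 106) (L 40) (L 106)) (L 106) (L 106) (L 106))) (L 106)) (N (N (N (L 80) (L 54) (L
    80) (L 54)) (L 54) (L 106) (L 106)) (N (L 54) (L 54) (N (L 54) (L 54) (L 106) (N (L 54) (L 54)
    (L 106) (L 106))) (N (L 54) (L 34) (N (N (L 54) (L 34) (L 34) (L 34)) (L 34) (L 34) (L 34)) (L
    34))) (L 106) (N (L 106) (L 34) (L 106) (N (L 34) (L 34) (L 106) (L 34)))) (N (N (L 40) (L 106)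
    (L 53) (L 53)) (L 106) (L 53) (L 53)) (N (L 106) (N (L 106) (L 106) (L 106) (N (L 106) (N (L
    106) (L 106) (L 101) (L 101)) (L 106) (L 101))) (L 53) (N (N (L 53) (L 106) (L 53) (L 53)) (L
    101) (L 53) (L 101))))) (N (L 81) (L 11) (N (L 81) (L 81) (L 33) (L 33)) (N (L 81) (L 11) (N (L
    81) (L 81) (N (L 33) (L 81) (L 33) (L 33)) (L 69)) (L 69))) (N (N (L 11) (N (N (L 11) (N (L 11)
    (N (N (L 40) (L 40) (L 11) (L 53)) (L 53) (L 11) (L 53)) (L 11) (L 53)) (L 11) (L 11)) (L 53)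
    (L 11) (L 53)) (L 11) (N (L 11) (L 102) (L 11) (L 102))) (N (L 53) (N (L 53) (N (L 53) (L 101)
    (L 53) (L 53)) (L 53) (N (L 53) (L 101) (L 53) (L 102))) (L 102) (L 102)) (N (N (L 11) (L 11)
    (L 11) (L 69)) (N (N (L 11) (L 11) (L 11) (L 102)) (L 102) (L 69) (N (L 69) (L 102) (L 69) (L
    69))) (L 69) (L 69)) (N (L 102) (N (L 102) (L 56) (L 56) (L 56)) (N (L 69) (N (L 69) (L 102) (L
    69) (L 69)) (L 69) (L 69)) (N (L 56) (L 56) (N (L 69) (L 56) (L 69) (L 56)) (L 56))))) (N (N (N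
    (L 38) (L 38) (L 105) (L 33)) (L 33) (N (L 105) (L 33) (L 71) (L 33)) (L 33)) (L 33) (L 71) (N
    (L 33) (L 33) (L 71) (L 71))) (N (N (L 33) (N (N (L 33) (L 69) (L 33) (L 69)) (L 69) (L 33) (L
    69)) (L 33) (N (L 33) (L 69) (L 33) (L 69))) (N (L 69) (N (L 69) (N (L 69) (N (L 56) (L 56) (L
    69) (L 56)) (L 69) (L 69)) (L 69) (L 69)) (L 69) (N (L 69) (N (L 69) (L 69) (L 69) (N (L 69) (L
    69) (L 69) (L 90))) (L 23) (L 23))) (N (L 33) (N (N (L 33) (N (L 33) (L 33) (L 33) (N (L 33) (L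
    23) (L 23) (L 23))) (L 33) (N (L 33) (L 23) (L 23) (L 23))) (N (N (L 69) (L 23) (L 23) (L 23))
    (L 23) (L 23) (L 23)) (N (N (L 33) (L 23) (L 23) (L 23)) (L 23) (L 23) (L 23)) (L 23)) (N (N (L
    33) (L 33) (L 33) (L 71)) (N (L 33) (L 23) (N (L 33) (L 23) (L 71) (L 23)) (L 23)) (L 71) (N (L
    71) (L 23) (L 23) (L 23))) (L 23)) (L 23))) (N (N O (N (L 105) (L 105) (N O (L 105) O O) (L
    71)) O (N O (L 71) O O)) (L 71) O (N (L 71) (L 71) O O)) (N (L 71) (N (N (L 71) (L 23) (L 71)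
    (L 23)) (L 23) (L 71) (L 77)) (L 71) (N (L 77) (L 77) (N (L 71) (L 77) (N (L 71) (L 77) (N (L
    71) (L 77) O O) (L 77)) (L 77)) (L 77))))

theorem cw_h1 : qchk cw_P cw_ds cw_d cw_t1 0 0 1 = true := by decide +kernel

theorem cw_h2 : qchk cw_P cw_ds cw_d cw_t2 (-1) 0 1 = true := by decide +kernel

theorem cw_hd : okD (cw_d :: cw_ds) = true := by decide +kernel

end Pool.Agent.Helper12.HR2.B
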