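import Pool.Agent.Helper12.HR2.QTree

/-!
MP_16b0ee, project HR2: the covering of the annulus by the discs of the checked exponents.
-/

set_option autoImplicit false
set_option linter.defProp false

namespace Pool.Agent.Helper12.HR2

/-- the parameters -/
def cv_P : QP := ⟨2, 3, 295, 10000⟩

/-- the first disc (used by default) -/
def cv_d : Dsc := ⟨56, -32, 100, 5730, 10000⟩

/-- the other discs -/
def cv_ds : List Dsc := [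
  ⟨-12, -19, 1000, 6841, 10000000⟩,
  ⟨-23, -5, 1000, 7488, 10000000⟩,
  ⟨10, -22, 1000, 7948, 10000000⟩,
  ⟨24, -4, 1000, 8083, 10000000⟩,
  ⟨-1, -25, 1000, 8500, 10000000⟩,
  ⟨-22, -13, 1000, 8828, 10000000⟩,
  ⟨23, -12, 1000, 9186, 10000000⟩,
  ⟨19, -18, 1000, 9341, 10000000⟩,
  ⟨-18, -29, 1000, 15758, 10000000⟩,
  ⟨8, -38, 1000, 20506, 10000000⟩,
  ⟨22, -32, 1000, 20570, 10000000⟩,
  ⟨-40, -4, 1000, 21760, 10000000⟩,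
  ⟨40, -6, 1000, 22409, 10000000⟩,
  ⟨-9, -42, 1000, 2500, 1000000⟩,
  ⟨-38, -21, 1000, 2539, 1000000⟩,
  ⟨39, -23, 1000, 2807, 1000000⟩,
  ⟨-23, -40, 1000, 2876, 1000000⟩,
  ⟨12, -18, 400, 3995, 1000000⟩,
  ⟨25, -5, 400, 5590, 1000000⟩,
  ⟨-20, -17, 400, 5781, 1000000⟩,
  ⟨4, -27, 400, 6326, 1000000⟩,
  ⟨-8, -27, 400, 6690, 1000000⟩,
  ⟨-28, -5, 400, 6762, 1000000⟩,
  ⟨25, -18, 400, 8154, 1000000⟩,
  ⟨17, -32, 400, 11213, 1000000⟩,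
  ⟨37, -5, 400, 12057, 1000000⟩,
  ⟨-21, -33, 400, 12804, 1000000⟩,
  ⟨-1, -21, 200, 14922, 1000000⟩,
  ⟨17, -13, 200, 15791, 1000000⟩,
  ⟨-19, -12, 200, 16764, 1000000⟩,
  ⟨10, -23, 200, 21452, 1000000⟩,
  ⟨-26, -3, 200, 22584, 1000000⟩,
  ⟨27, -1, 200, 2546, 100000⟩,
  ⟨26, -10, 200, 2701, 100000⟩,
  ⟨24, -24, 200, 3979, 100000⟩,
  ⟨-12, -32, 200, 3875, 100000⟩,
  ⟨-25, -25, 200, 4103, 100000⟩,
  ⟨5, -37, 200, 4690, 100000⟩,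
  ⟨37, -7, 200, 4989, 100000⟩,
  ⟨-20, -4, 100, 5393, 100000⟩,
  ⟨18, -10, 100, 5934, 100000⟩,
  ⟨12, -17, 100, 5943, 100000⟩,
  ⟨27, -1, 100, 10434, 100000⟩,
  ⟨19, -20, 100, 10518, 100000⟩,
  ⟨26, -10, 100, 11014, 100000⟩,
  ⟨-19, -23, 100, 11387, 100000⟩,
  ⟨11, -29, 100, 12903, 100000⟩,
  ⟨-6, -31, 100, 12937, 100000⟩,
  ⟨-30, -11, 100, 12883, 100000⟩,
  ⟨35, -5, 100, 18073, 100000⟩,
  ⟨32, -23, 100, 21798, 100000⟩,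
  ⟨15, -37, 100, 21168, 100000⟩,
  ⟨38, -15, 100, 23955, 100000⟩,
  ⟨45, -3, 100, 2968, 10000⟩,
  ⟨-54, -15, 100, 3785, 10000⟩,
  ⟨-37, -44, 100, 4017, 10000⟩,
  ⟨34, -47, 100, 4475, 10000⟩,
  ⟨0, -60, 100, 4522, 10000⟩,
  ⟨59, -12, 100, 5118, 10000⟩]

/-- a leaf -/
abbrev L : ℕ → QT := QT.leaf
/-- a node -/
abbrev N : QT → QT → QT → QT → QT := QT.node
/-- outside -/
abbrev O : QT := QT.out
/-- inside -/
abbrev I : QT := QT.inn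

/-- the tree of the right quadrant -/
def cv_t1 : QT :=
    (N (N (N (N (N (N I (N I (N I (L 3) I (L 3)) I (N (N I I I (N I I I (L 6))) (L 3) (N I (L 6) (N
    I I I (L 6)) (L 6)) (L 6))) (N I I (N I I (L 4) (N (N I I (L 4) (N I I (L 2) (L 2))) (L 2) (L
    4) (L 2))) (N (N I I I (L 2)) (L 2) (L 2) (L 2))) (N (N I (N I I I (L 7)) (N I I I (N I (L 7)
    (L 7) (L 7))) (L 7)) (N (L 6) (L 6) (L 7) (L 6)) (N (L 2) (L 7) (L 2) (L 2)) (L 7))) (N (N (L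
    3) (N (L 3) (N (L 3) (L 12) (L 3) (L 12)) (L 3) (L 12)) (L 3) (N (L 3) (L 12) (L 6) (N (L 12)
    (L 12) (L 6) (L 12)))) (L 12) (N (L 6) (N (L 6) (N (L 6) (L 12) (L 6) (N (L 6) (L 12) (L 6) (L
    12))) (L 6) (N (L 6) (N (L 6) (L 15) (L 15) (L 15)) (N (L 6) (L 6) (L 6) (L 15)) (L 15))) (L 7)
    (N (N (L 6) (L 6) (L 6) (L 15)) (L 15) (N (N (L 7) (L 15) (L 7) (L 15)) (L 15) (N (N (L 7) (L
    15) (L 7) (L 15)) (L 15) (L 15) (L 15)) (L 15)) (L 15))) (N (N (L 12) (L 12) (L 15) (L 12)) (L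
    12) (L 15) (L 15))) (N (N (L 4) (L 2) (N (L 4) (L 4) (L 4) (L 9)) (N (N (L 2) (L 2) (L 9) (L
    9)) (L 2) (L 9) (L 9))) (N (L 2) (N (L 7) (L 7) (L 10) (L 10)) (N (L 2) (L 10) (L 9) (L 10)) (L
    10)) (L 9) (N (L 9) (L 10) (L 9) (L 10))) (N (N (N (L 7) (N (L 7) (N (L 7) (L 7) (L 7) (L 10))
    (L 10) (L 10)) (L 10) (L 10)) (L 15) (L 10) (L 10)) (L 15) (N (L 10) (L 10) (L 10) (L 17)) (N
    (L 17) (N (L 15) (L 15) (L 17) (L 17)) (L 17) (L 17)))) (N (N (N (L 12) (N (L 12) (L 18) (L 12)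
    (L 18)) (L 12) (L 18)) (L 18) (N (L 12) (L 18) (L 15) (L 18)) (L 18)) (N (L 18) (L 25) (L 18)
    (L 25)) (N (N (L 15) (N (L 15) (L 15) (L 15) (N (L 15) (L 15) (L 15) (L 18))) (L 15) (N (L 15)
    (N (L 15) (N (L 15) (L 18) (L 15) (L 23)) (L 15) (L 23)) (L 15) (L 23))) (N (L 18) (L 18) (L
    23) (L 23)) (N (N (L 15) (N (L 15) (L 15) (L 15) (L 23)) (N (L 15) (L 15) (N (L 15) (N (L 15)
    (L 15) (L 15) (L 17)) (L 17) (L 17)) (L 23)) (L 23)) (L 23) (N (N (L 17) (L 23) (L 17) (L 17))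
    (L 23) (L 17) (L 23)) (L 23)) (L 23)) (N (N (L 18) (L 18) (L 23) (L 23)) (N (L 25) (L 25) (N (L
    25) (L 25) (L 23) (L 25)) (L 25)) (L 23) (N (L 23) (N (L 25) (L 25) (L 23) (N (L 25) (L 25) (L
    23) (L 28))) (L 23) (L 28)))) (N (N (N (N (L 9) (L 9) (L 13) (L 9)) (L 9) (N (N (L 13) (L 13)
    (L 13) (N (L 13) (L 20) (L 13) (L 20))) (N (L 9) (L 9) (L 20) (L 20)) (L 20) (L 20)) (N (L 9)
    (L 9) (L 20) (L 20))) (N (L 9) (L 17) (N (L 20) (N (N (L 9) (L 9) (L 9) (L 20)) (L 17) (L 20)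
    (L 20)) (L 20) (L 20)) (L 17)) (L 20) (L 20)) (N (L 17) (L 17) (N (L 17) (L 17) (L 20) (N (L
    17) (L 17) (L 20) (L 24))) (N (L 17) (N (L 17) (L 17) (L 17) (L 24)) (L 24) (L 24))) (L 20) (N
    (N (L 20) (L 24) (L 20) (L 24)) (L 24) (L 24) (L 24))) (N (N (L 23) (L 23) (N (N (N (L 17) (L
    23) (L 24) (L 23)) (L 23) (L 24) (L 23)) (L 23) (L 24) (L 24)) (L 23)) (N (L 23) (L 23) (L 23)
    (L 28)) (L 24) (L 28))) (N (N (L 25) (L 32) (N (L 25) (L 25) (N (L 25) (L 25) (L 28) (L 28)) (N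
    (L 25) (L 33) (N (N (L 25) (L 25) (L 28) (L 28)) (L 33) (L 28) (L 28)) (L 33))) (N (N (L 25) (L
    25) (L 25) (L 33)) (L 32) (L 33) (L 33))) (N (L 32) (L 32) (L 33) (L 38)) (N (L 28) (L 33) (L
    28) (N (L 33) (L 33) (N (L 28) (L 33) (L 34) (L 34)) (L 33))) (N (L 33) (N (L 33) (L 38) (L 33)
    (L 38)) (L 33) (L 40))) (N (N (N (L 27) (N (L 27) (N (L 20) (L 24) (L 27) (L 24)) (L 27) (L
    27)) (L 27) (L 27)) (N (L 24) (L 24) (L 30) (L 24)) (L 27) (L 30)) (N (L 30) (N (N (L 24) (L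
    28) (L 30) (L 30)) (N (L 28) (L 28) (N (L 28) (L 28) (L 30) (L 28)) (L 28)) (L 30) (N (L 30) (N
    (L 30) (L 34) (L 30) (L 34)) (L 30) (L 30))) (L 30) (L 30)) (N (N (N (L 27) (L 27) (L 27) (L
    37)) (N (L 27) (L 30) (L 37) (L 37)) (L 37) (L 37)) (N (L 30) (L 30) (L 37) (L 30)) (L 37) (L
    37)) (N (L 30) (N (L 30) (N (L 30) (L 30) (L 30) (L 34)) (N (L 30) (L 30) (L 30) (L 41)) (L
    41)) (L 37) (N (N (L 37) (L 41) (L 37) (L 37)) (L 41) (L 37) (L 41)))) (N (N (N (L 28) (L 34)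
    (L 34) (L 34)) (L 34) (L 34) (L 34)) (N (L 34) (L 40) (L 34) (L 40)) (L 41) (N (L 34) (N (L 34)
    (L 40) (L 34) (L 40)) (L 41) (L 41)))) (N (N (L 38) (N (N (N (L 38) (L 42) (L 38) (L 38)) (L
    42) (L 38) (L 42)) (L 42) (L 38) (L 42)) (N (L 38) (L 38) (L 40) (L 40)) (N (N (L 38) (N (L 38)
    (L 38) (L 38) (L 44)) (L 38) (L 44)) (N (L 42) (L 42) (L 44) (L 44)) (L 44) (L 44))) (N (L 42)
    (N (L 42) (L 49) (L 42) (L 49)) (N (L 42) (L 42) (L 44) (L 44)) (N (L 49) (L 49) (L 44) (L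
    49))) (N (L 40) (L 44) (N (L 40) (L 43) (L 43) (L 43)) (N (N (L 40) (L 44) (L 43) (L 43)) (L
    44) (L 43) (N (L 43) (L 44) (L 43) (L 43)))) (N (L 44) (N (L 44) (L 49) (L 44) (L 52)) (N (L
    44) (L 44) (N (L 44) (L 44) (N (L 44) (L 44) (L 43) (L 50)) (L 50)) (L 50)) (N (N (L 44) (L 44)
    (L 44) (L 50)) (L 52) (L 50) (L 50)))) (N (N (L 37) (N (L 37) (L 41) (L 37) (N (L 37) (L 37) (L
    37) (L 46))) (N (L 37) (L 37) (L 47) (N (L 37) (L 37) (L 47) (L 46))) (N (L 37) (L 46) (L 46)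
    (L 46))) (N (L 41) (L 41) (L 46) (L 46)) (N (N (L 47) (L 46) (L 47) (L 46)) (L 46) (L 47) (L
    46)) (L 46)) (N (N (L 43) (L 43) (L 43) (N (L 43) (L 43) (L 43) (L 50))) (L 50) (N (L 51) (N (N
    (L 43) (L 43) (L 43) (L 51)) (L 50) (L 51) (N (L 51) (L 50) (L 51) (L 51))) (L 51) (L 51)) (N
    (L 50) (L 50) (N (N (N (L 50) (L 50) (L 51) (L 50)) (L 50) (L 51) (L 56)) (L 50) (L 51) (L 56))
    (L 56)))) (N (N (N (L 49) (N (N (L 49) (L 53) (L 49) (L 49)) (L 53) (L 49) (L 53)) (L 49) (N (L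
    49) (L 53) (L 49) (N (L 49) (L 53) (L 49) (L 53)))) (L 53) (L 52) (N (N (N (L 52) (L 53) (L 52)
    (L 52)) (N (L 53) (L 53) (N (L 52) (L 53) (L 52) (N (L 52) (L 53) (L 52) (L 52))) (L 58)) (L
    52) (N (L 52) (L 58) (L 52) (L 58))) (L 58) (L 52) (L 58))) (N (N (N (N (L 53) (L 58) (L 53) (L
    53)) (L 58) (L 53) (L 58)) (L 58) (L 58) (L 58)) (L 58) (L 58) (L 58)) (N (N (L 50) (L 52) (L
    50) (L 50)) (N (N (L 52) (N (L 52) (L 52) (L 52) (L 59)) (L 52) (L 59)) (L 59) (L 59) (L 59))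
    (N (L 50) (N (L 50) (L 59) (L 50) (L 59)) (L 56) (L 56)) (L 59)) (N (L 59) (N (L 58) (L 58) (L
    58) (L 59)) (L 59) (L 59))) (N (N (N (N (L 47) (L 47) (L 47) (L 51)) (L 51) (L 57) (L 51)) (L
    51) (L 57) (N (L 51) (L 51) (L 57) (L 51))) (N (L 51) (L 56) (L 56) (L 56)) (L 57) (N (N (L 56)
    (L 56) (L 57) (L 56)) (L 56) (N (L 57) (N (L 56) (L 56) (L 57) (L 56)) (L 57) (N (L 57) (N (N
    (L 56) O O O) O O O) O O)) (N (L 56) (L 56) O O))) (N (N (L 56) (L 59) (L 56) (L 56)) (N (L 59)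
    O (N (L 59) O O O) O) (N (L 56) (N (L 56) O O O) O O) O))

/-- the tree of the left quadrant -/
def cv_t2 : QT :=
    (N (N (L 54) (N (L 54) (N (L 54) (N (L 54) (L 48) (L 48) (L 48)) (L 54) (L 48)) (L 54) (L 54))
    (L 54) (N (L 54) (L 54) (L 54) (L 55))) (N (N (L 48) (L 39) (L 48) (N (L 48) (N (L 39) (L 39)
    (L 48) (N (L 48) (L 36) (L 48) (L 36))) (L 48) (L 45))) (N (N (L 31) (N (L 31) (N (L 31) (N (L
    31) (L 22) (L 31) (L 22)) (L 31) (N (L 31) (L 22) (L 31) (L 22))) (L 31) (N (L 31) (N (L 31) (L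
    22) (L 29) (L 29)) (L 29) (L 29))) (N (L 39) (N (L 31) (L 31) (L 39) (N (L 31) (L 29) (L 39) (L
    29))) (L 39) (N (L 39) (N (L 39) (L 29) (L 36) (L 29)) (L 36) (L 36))) (L 29)) (N (N (L 22) (N
    (L 22) (N (L 11) (L 11) (N (L 11) (L 11) (L 22) (L 11)) (L 11)) (L 22) (N (L 22) (L 14) (N (L
    22) (L 14) (L 22) (L 14)) (L 14))) (N (L 22) (L 22) (L 29) (N (N (L 22) (L 22) (L 29) (L 29))
    (L 19) (L 29) (L 19))) (N (N (L 22) (L 22) (L 19) (L 19)) (N (N (L 22) (L 14) (L 19) (L 14)) (L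
    14) (L 19) (L 14)) (L 19) (L 19))) (N (N (L 11) (N (N (L 11) (N (N (L 11) (L 1) (L 1) (L 1)) (L
    1) (L 1) (L 1)) (L 11) (L 1)) (L 1) (N (L 11) (L 1) (N (L 11) (L 11) (L 11) (N (L 11) (L 11) (L
    11) (L 5))) (N (L 1) (L 1) (L 5) (L 1))) (L 1)) (L 14) (N (N (N (L 11) (N (L 11) (L 5) (L 14)
    (L 5)) (L 14) (L 14)) (L 5) (L 14) (L 5)) (L 5) (L 14) (N (L 5) (L 5) (N (L 5) (L 5) (L 14) (N
    (L 5) (L 5) (N (L 5) (L 5) (L 14) (L 8)) (N (L 5) (L 5) (L 8) (L 8)))) (L 5)))) (N (N (N (L 1)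
    I (L 1) I) I (N (L 1) (N I I (L 1) I) (L 1) (N (L 1) I (L 5) (L 5))) I) I (N (L 5) (N (N I I (L
    5) I) I (L 0) (L 0)) (N (L 5) (N (L 5) (L 0) (L 0) (L 0)) (N (L 5) (L 5) (L 8) (L 8)) (L 0)) (L
    0)) (N I I (N (L 0) (N I I (L 0) I) (L 0) (N (L 0) (L 0) (L 0) (N (L 0) (L 0) (L 0) (L 4)))) (N
    I I (N (N I I (L 4) (L 4)) (L 4) (L 4) (L 4)) (L 4)))) (N (L 14) (N (L 14) (N (N (L 14) (L 8)
    (L 8) (L 8)) (L 8) (L 8) (L 8)) (N (L 14) (N (L 14) (L 8) (L 14) (L 8)) (L 16) (L 16)) (L 8))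
    (N (L 19) (N (L 14) (L 16) (L 19) (L 16)) (L 19) (L 16)) (L 16)) (N (N (L 8) (N (L 0) (L 0) (L
    8) (L 8)) (L 8) (L 8)) (N (N (L 0) (N (L 0) (L 4) (L 4) (L 4)) (N (L 0) (N (L 0) (L 0) (L 0) (L
    4)) (L 8) (N (L 8) (L 4) (L 8) (L 4))) (L 4)) (L 4) (N (L 8) (N (L 4) (L 4) (N (L 4) (L 4) (N
    (L 4) (L 4) (L 8) (L 4)) (L 4)) (L 4)) (L 8) (N (N (N (L 8) (L 4) (L 8) (L 13)) (L 4) (L 13) (L
    13)) (L 4) (L 13) (L 13))) (L 4)) (N (L 8) (L 8) (L 13) (L 13)) (N (L 13) (N (L 13) (N (L 13)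
    (L 4) (L 13) (L 9)) (L 13) (L 9)) (L 13) (L 13)))) (N (L 29) (N (L 19) (L 19) (L 26) (N (L 19)
    (L 19) (L 19) (L 26))) (N (L 29) (L 26) (L 29) (L 26)) (L 26)) (N (N (L 19) (N (L 16) (L 16) (N
    (L 16) (L 16) (L 21) (L 16)) (L 16)) (N (L 19) (N (L 19) (L 21) (L 21) (L 21)) (L 26) (L 21))
    (L 21)) (N (N (L 13) (L 13) (L 16) (L 13)) (N (L 13) (L 13) (L 13) (N (L 13) (L 13) (L 13) (N
    (L 13) (L 13) (L 13) (L 20)))) (L 21) (N (L 21) (N (N (L 13) (L 13) (L 20) (L 20)) (L 20) (L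
    20) (L 20)) (L 21) (L 20))) (N (L 26) (L 21) (L 26) (L 21)) (N (L 21) (L 21) (L 21) (L 27))))
    (L 36) (N (N (N (N (L 26) (L 26) (L 29) (L 26)) (L 26) (L 36) (L 26)) (L 26) (N (L 36) (L 35)
    (L 35) (L 35)) (N (L 35) (N (L 26) (L 26) (L 35) (L 35)) (L 35) (L 35))) (N (N (L 26) (N (L 26)
    (L 21) (L 26) (L 27)) (L 26) (L 27)) (L 27) (N (N (L 26) (L 27) (L 35) (L 27)) (L 27) (L 35) (L
    27)) (L 27)) (L 35) (N (L 35) (N (N (L 27) (L 27) (L 35) (L 27)) (L 27) (L 35) (N (N (L 35) (L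
    27) (L 35) (L 37)) (L 37) (L 37) (L 37))) (L 35) (N (L 35) (L 37) (L 35) (L 37))))) (N (N (L
    48) (L 48) (L 55) (L 45)) (L 45) (L 55) (N (L 45) (L 45) (L 55) (L 45))) (N (N (L 45) (N (L 45)
    (L 35) (L 45) (N (L 45) (L 35) (L 45) (L 45))) (L 45) (L 45)) (N (L 35) (N (L 35) (L 37) (N (L
    35) (L 35) (L 35) (N (L 35) (L 37) (L 47) (L 37))) (L 37)) (L 47) (N (L 47) (N (L 37) (L 37) (L
    47) (L 37)) (L 47) (L 47))) (N (L 45) (L 47) (L 47) (L 47)) (L 47))) (N (N O (L 55) O (L 55))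
    (L 55) O (N (L 55) (L 55) O O)) (N (L 55) (N (N (N (L 47) (L 47) (L 55) (L 47)) (L 47) (N (L
    55) (N (L 47) (L 47) (L 55) (L 47)) (L 55) (L 55)) (N (L 47) (L 47) (L 57) (L 47))) (N (L 47)
    (L 47) (L 47) (L 57)) (N (L 55) (L 57) (L 57) (L 57)) (L 57)) (N (L 55) (L 55) (N (L 55) (L 55)
    O O) (N (L 55) (L 57) (N (L 55) (L 57) O O) (L 57))) (L 57)))

theorem cv_h1 : qchk cv_P cv_ds cv_d cv_t1 0 0 1 = true := by decide +kernel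

theorem cv_h2 : qchk cv_P cv_ds cv_d cv_t2 (-1) 0 1 = true := by decide +kernel

theorem cv_hd : okD (cv_d :: cv_ds) = true := by decide +kernel

end Pool.Agent.Helper12.HR2
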