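import Mathlib
import Pool.Agent.Helper22.Marshall.Gauss
import Pool.Agent.Helper22.Half.Defs
import Pool.Agent.Helper39.Area.Exterior

/-!
MP_16b0ee, project HR2: from bounds of finitely many exponential means (and a uniform bound near
the origin) to exponential square integrability. No convexity is used, only a covering of an
annulus by discs.
-/

set_option autoImplicit false

open MeasureTheory Set Metric Filter Topology
open scoped ENNReal NNReal Real ComplexConjugate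

namespace Pool.Agent.Helper12.HR2

open Pool.Agent.Helper22.Half (SigmaLog mInt)
open Pool.Agent.Helper22.Marshall (gauss_trunc lint_gauss)

/-- the mean of `|exp (s h)|^2` over the circle of radius `R` -/
noncomputable def mE (s : ℂ) (R : ℝ) (h : ℂ → ℂ) : ℝ :=
  (1 / (2 * π)) * ∫ θ in (0:ℝ)..(2 * π),
    ‖Complex.exp (s * h ((R : ℂ) * Complex.exp ((θ : ℂ) * Complex.I)))‖ ^ 2

theorem exp_inner' (v w : ℂ) : Real.exp (inner ℝ v w) = ‖Complex.exp (conj v / 2 * w)‖ ^ 2 := by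
  rw [Complex.norm_exp, ← Real.exp_nat_mul]
  congr 1
  rw [Complex.inner]
  have : conj v / 2 * w = ((1 / 2 : ℝ) : ℂ) * (conj v * w) := by push_cast; ring
  rw [this, Complex.re_ofReal_mul]
  push_cast
  ring_nf

theorem norm_exp_sq (z : ℂ) : ‖Complex.exp z‖ ^ 2 = Real.exp (2 * z.re) := by
  rw [Complex.norm_exp, ← Real.exp_nat_mul]
  norm_num

/-- Gaussian averaging on a measurable set where the function is small. -/
theorem gauss_average_on {a a' L k δ C : ℝ} (ha : 0 < a) (haa : a < a') (hL : 0 < L)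
    (hδ : 0 < δ) (hC : 0 ≤ C) (hbig : Real.log 4 ≤ L / (4 * a) * δ ^ 2 / 2)
    {f : ℝ → ℂ} (hf : Continuous f) {s : Set ℝ} (hs : MeasurableSet s)
    (hfb : ∀ φ ∈ s, ‖f φ‖ ≤ k * L)
    (hmean : ∀ v : ℂ, ‖v‖ ≤ 2 * a * k + δ →
      ∫⁻ φ in s, ENNReal.ofReal (Real.exp (inner ℝ v (f φ)))
        ≤ ENNReal.ofReal (C * Real.exp (L / (4 * a') * ‖v‖ ^ 2))) :
    ∫⁻ φ in s, ENNReal.ofReal (Real.exp (a * ‖f φ‖ ^ 2 / L))
      ≤ ENNReal.ofReal (2 * C / (1 - a / a')) := by
  have ha' : 0 < a' := ha.trans haa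
  have hrat : 0 < 1 - a / a' := by
    have : a / a' < 1 := (div_lt_one ha').mpr haa
    linarith
  obtain ⟨κ, hκdef⟩ : ∃ κ, κ = L / (4 * a) := ⟨_, rfl⟩
  have hκ : 0 < κ := by rw [hκdef]; positivity
  have hκ' : L / (4 * a') = κ * (a / a') := by
    rw [hκdef]; field_simp
  calc ∫⁻ φ in s, ENNReal.ofReal (Real.exp (a * ‖f φ‖ ^ 2 / L))
      ≤ ∫⁻ φ in s, ENNReal.ofReal (2 * (κ / π)) * ∫⁻ v in closedBall (0 : ℂ) (2 * a * k + δ),
        ENNReal.ofReal (Real.exp (-κ * ‖v‖ ^ 2 + inner ℝ v (f φ))) := by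
        apply setLIntegral_mono' hs
        intro φ hφ
        have := gauss_trunc ha hL hδ hbig (f φ) (hfb φ hφ)
        rw [← hκdef] at this
        exact this
    _ = ENNReal.ofReal (2 * (κ / π)) * ∫⁻ φ in s, ∫⁻ v in closedBall (0 : ℂ) (2 * a * k + δ),
        ENNReal.ofReal (Real.exp (-κ * ‖v‖ ^ 2 + inner ℝ v (f φ))) := by
        rw [lintegral_const_mul' _ _ ENNReal.ofReal_ne_top]
    _ = ENNReal.ofReal (2 * (κ / π)) * ∫⁻ v in closedBall (0 : ℂ) (2 * a * k + δ), ∫⁻ φ in s,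
        ENNReal.ofReal (Real.exp (-κ * ‖v‖ ^ 2 + inner ℝ v (f φ))) := by
        congr 1
        rw [lintegral_lintegral_swap]
        apply Measurable.aemeasurable
        apply Continuous.measurable
        apply ENNReal.continuous_ofReal.comp
        apply Real.continuous_exp.comp
        apply Continuous.add
        · fun_prop
        · exact Continuous.inner continuous_snd (hf.comp continuous_fst)
    _ ≤ ENNReal.ofReal (2 * (κ / π)) * ∫⁻ v in closedBall (0 : ℂ) (2 * a * k + δ),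
        ENNReal.ofReal C * ENNReal.ofReal (Real.exp (-(κ * (1 - a / a')) * ‖v - 0‖ ^ 2)) := by
        gcongr ENNReal.ofReal (2 * (κ / π)) * ?_
        apply setLIntegral_mono_ae
        · fun_prop
        · apply Eventually.of_forall
          intro v hv
          rw [mem_closedBall_zero_iff] at hv
          have h1 : ∀ φ, ENNReal.ofReal (Real.exp (-κ * ‖v‖ ^ 2 + inner ℝ v (f φ)))
              = ENNReal.ofReal (Real.exp (-κ * ‖v‖ ^ 2)) * ENNReal.ofReal (Real.exp (inner ℝ v (f φ))) := by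
            intro φ
            rw [Real.exp_add, ENNReal.ofReal_mul (Real.exp_pos _).le]
          simp_rw [h1]
          rw [lintegral_const_mul' _ _ ENNReal.ofReal_ne_top]
          calc ENNReal.ofReal (Real.exp (-κ * ‖v‖ ^ 2))
                * ∫⁻ φ in s, ENNReal.ofReal (Real.exp (inner ℝ v (f φ)))
              ≤ ENNReal.ofReal (Real.exp (-κ * ‖v‖ ^ 2))
                * ENNReal.ofReal (C * Real.exp (L / (4 * a') * ‖v‖ ^ 2)) := by
                gcongr
                exact hmean v hv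
            _ = ENNReal.ofReal C
                * ENNReal.ofReal (Real.exp (-(κ * (1 - a / a')) * ‖v - 0‖ ^ 2)) := by
                rw [← ENNReal.ofReal_mul (Real.exp_pos _).le, ← ENNReal.ofReal_mul hC]
                congr 1
                rw [hκ', mul_left_comm, ← Real.exp_add, sub_zero]
                congr 2
                ring
    _ ≤ ENNReal.ofReal (2 * (κ / π)) * (ENNReal.ofReal C * ENNReal.ofReal (π / (κ * (1 - a / a')))) := by
        gcongr
        rw [lintegral_const_mul' _ _ ENNReal.ofReal_ne_top]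
        gcongr
        rw [← lint_gauss (by positivity : 0 < κ * (1 - a / a')) 0]
        exact setLIntegral_le_lintegral _ _
    _ = ENNReal.ofReal (2 * C / (1 - a / a')) := by
        rw [← ENNReal.ofReal_mul hC, ← ENNReal.ofReal_mul (by positivity)]
        congr 1
        have := hrat.ne'
        field_simp

/-- the sum of the exponentials of the list -/
noncomputable def expSum (pts : List (ℂ × ℝ)) (L : ℝ) (w : ℂ) : ℝ :=
  (pts.map (fun p => ‖Complex.exp (p.1 * w)‖ ^ 2 * Real.exp (-(p.2 * L)))).sum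

theorem expSum_nonneg (pts : List (ℂ × ℝ)) (L : ℝ) (w : ℂ) : 0 ≤ expSum pts L w := by
  apply List.sum_nonneg
  intro x hx
  rw [List.mem_map] at hx
  obtain ⟨p, _, rfl⟩ := hx
  positivity

theorem expSum_ge {pts : List (ℂ × ℝ)} (L : ℝ) (w : ℂ) {p : ℂ × ℝ}
    (hp : p ∈ pts) : ‖Complex.exp (p.1 * w)‖ ^ 2 * Real.exp (-(p.2 * L)) ≤ expSum pts L w := by
  apply List.single_le_sum
  · intro x hx
    rw [List.mem_map] at hx
    obtain ⟨p, _, rfl⟩ := hx
    positivity
  · exact List.mem_map.2 ⟨p, hp, rfl⟩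

theorem expSum_cons (p : ℂ × ℝ) (pts : List (ℂ × ℝ)) (L : ℝ) (w : ℂ) : expSum (p :: pts) L w
    = ‖Complex.exp (p.1 * w)‖ ^ 2 * Real.exp (-(p.2 * L)) + expSum pts L w := by
  simp [expSum]

theorem expSum_cont (pts : List (ℂ × ℝ)) (L : ℝ) {f : ℝ → ℂ} (hf : Continuous f) :
    Continuous (fun θ => expSum pts L (f θ)) := by
  induction pts with
  | nil =>
    have : (fun θ => expSum [] L (f θ)) = fun _ => (0 : ℝ) := by
      funext θ
      simp [expSum]
    rw [this]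
    exact continuous_const
  | cons p pts ih =>
    simp_rw [expSum_cons]
    apply Continuous.add _ ih
    apply Continuous.mul _ continuous_const
    exact ((Complex.continuous_exp.comp (continuous_const.mul hf)).norm.pow 2)

theorem circle_ext {R : ℝ} (hR : 1 < R) (θ : ℝ) :
    1 < ‖(R : ℂ) * Complex.exp ((θ : ℂ) * Complex.I)‖ := by
  rw [norm_mul, Complex.norm_exp_ofReal_mul_I, mul_one, Complex.norm_real,
    Real.norm_of_nonneg (by linarith)]
  exact hR

theorem log_pos_R {R : ℝ} (hR : 1 < R) : 0 < Real.log (R ^ 2 / (R ^ 2 - 1)) := by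
  apply Real.log_pos
  rw [one_lt_div (by nlinarith)]
  linarith

theorem rpow_R {R : ℝ} (hR : 1 < R) (b : ℝ) :
    (R ^ 2 / (R ^ 2 - 1)) ^ b = Real.exp (b * Real.log (R ^ 2 / (R ^ 2 - 1))) := by
  have h1 : 0 < R ^ 2 - 1 := by nlinarith
  rw [Real.rpow_def_of_pos (by positivity), mul_comm]

theorem h_cont {R : ℝ} (hR : 1 < R) {h : ℂ → ℂ} (hh : DifferentiableOn ℂ h {z : ℂ | 1 < ‖z‖}) :
    Continuous (fun θ : ℝ => h ((R : ℂ) * Complex.exp ((θ : ℂ) * Complex.I))) :=
  hh.continuousOn.comp_continuous (by fun_prop) (circle_ext hR)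

theorem expSum_int (pts : List (ℂ × ℝ))
    (hpts : ∀ p ∈ pts, ∃ C : ℝ, ∀ ψ h : ℂ → ℂ, SigmaLog ψ h → ∀ R : ℝ, 1 < R →
      mE p.1 R h ≤ C * (R ^ 2 / (R ^ 2 - 1)) ^ p.2) :
    ∃ C : ℝ, 0 ≤ C ∧ ∀ ψ h : ℂ → ℂ, SigmaLog ψ h → ∀ R : ℝ, 1 < R →
    ∫ θ in (0:ℝ)..(2 * π), expSum pts (Real.log (R ^ 2 / (R ^ 2 - 1)))
      (h ((R : ℂ) * Complex.exp ((θ : ℂ) * Complex.I))) ≤ C := by
  have hpi := Real.pi_pos
  induction pts with
  | nil =>
    refine ⟨0, le_rfl, ?_⟩
    intro ψ h _ R _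
    simp [expSum]
  | cons p pts ih =>
    obtain ⟨C1, hC1, h1⟩ := ih (fun q hq => hpts q (by simp [hq]))
    obtain ⟨C2, h2⟩ := hpts p (by simp)
    refine ⟨2 * π * |C2| + C1, by positivity, ?_⟩
    intro ψ h hψ R hR
    have hf := h_cont hR hψ.hdiff
    have h3 := h1 ψ h hψ R hR
    have h4 := h2 ψ h hψ R hR
    rw [rpow_R hR] at h4
    obtain ⟨L, hL⟩ : ∃ L, L = Real.log (R ^ 2 / (R ^ 2 - 1)) := ⟨_, rfl⟩
    rw [← hL] at h3 h4 ⊢
    simp_rw [expSum_cons]
    rw [intervalIntegral.integral_add, intervalIntegral.integral_mul_const]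
    · unfold mE at h4
      obtain ⟨I, hI⟩ : ∃ I, I = ∫ θ in (0:ℝ)..(2 * π),
        ‖Complex.exp (p.1 * h ((R : ℂ) * Complex.exp ((θ : ℂ) * Complex.I)))‖ ^ 2 := ⟨_, rfl⟩
      rw [← hI] at h4 ⊢
      have h5 : I ≤ 2 * π * |C2| * Real.exp (p.2 * L) := by
        have h6 : 1 / (2 * π) * I ≤ |C2| * Real.exp (p.2 * L) :=
          h4.trans (mul_le_mul_of_nonneg_right (le_abs_self _) (Real.exp_pos _).le)
        rw [one_div, inv_mul_le_iff₀ (by positivity)] at h6
        linarith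
      have h7 : I * Real.exp (-(p.2 * L)) ≤ 2 * π * |C2| := by
        calc I * Real.exp (-(p.2 * L)) ≤ 2 * π * |C2| * Real.exp (p.2 * L)
              * Real.exp (-(p.2 * L)) := by gcongr
          _ = 2 * π * |C2| := by rw [mul_assoc, ← Real.exp_add, add_neg_cancel, Real.exp_zero,
              mul_one]
      linarith
    · apply Continuous.intervalIntegrable
      exact ((Complex.continuous_exp.comp (continuous_const.mul hf)).norm.pow 2).mul
        continuous_const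
    · exact (expSum_cont pts L hf).intervalIntegrable _ _

/-- **Assembly.** -/
theorem mInt_of_cover {a a1 s0 w0 : ℝ} (ha : 0 < a) (haa : a < a1)
    (hs0 : a * w0 < s0)
    (hU : ∃ C : ℝ, ∀ s : ℂ, ‖s‖ ≤ s0 → ∀ ψ h : ℂ → ℂ, SigmaLog ψ h → ∀ R : ℝ, 1 < R →
      mE s R h ≤ C * (R ^ 2 / (R ^ 2 - 1)) ^ (‖s‖ ^ 2 / a1))
    (pts : List (ℂ × ℝ))
    (hpts : ∀ p ∈ pts, ∃ C : ℝ, ∀ ψ h : ℂ → ℂ, SigmaLog ψ h → ∀ R : ℝ, 1 < R →
      mE p.1 R h ≤ C * (R ^ 2 / (R ^ 2 - 1)) ^ p.2)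
    (hcov : ∀ w : ℂ, w0 ≤ ‖w‖ → ‖w‖ ≤ 1 → ∃ p ∈ pts, a * ‖w‖ ^ 2 ≤ 2 * (p.1 * w).re - p.2) :
    ∃ C' : ℝ, ∀ R : ℝ, 1 < R → ∀ ψ h : ℂ → ℂ, SigmaLog ψ h → mInt a R h ≤ C' := by
  obtain ⟨C0, hU⟩ := hU
  obtain ⟨C2, hC2, hS⟩ := expSum_int pts hpts
  have ha1 : 0 < a1 := ha.trans haa
  have hrat : 0 < 1 - a / a1 := by
    have : a / a1 < 1 := (div_lt_one ha1).mpr haa
    linarith
  have hpi := Real.pi_pos
  obtain ⟨C1, hC1⟩ : ∃ C1 : ℝ, C1 = 2 * π * |C0| := ⟨_, rfl⟩
  have hC10 : 0 ≤ C1 := by rw [hC1]; positivity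
  obtain ⟨δ, hδ⟩ : ∃ δ : ℝ, δ = 2 * (s0 - a * w0) := ⟨_, rfl⟩
  have hδ0 : 0 < δ := by rw [hδ]; linarith
  obtain ⟨L0, hL0⟩ : ∃ L0, L0 = 8 * a * Real.log 4 / δ ^ 2 := ⟨_, rfl⟩
  refine ⟨1 / (2 * π) * (2 * π * Real.exp (a * L0) + (2 * C1 / (1 - a / a1) + C2)), ?_⟩
  intro R hR ψ h hψ
  have hm2 := hS ψ h hψ R hR
  have hLpos := log_pos_R hR
  have hf := h_cont hR hψ.hdiff
  have hfb : ∀ θ : ℝ, ‖h ((R : ℂ) * Complex.exp ((θ : ℂ) * Complex.I))‖
      ≤ Real.log (R ^ 2 / (R ^ 2 - 1)) := by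
    intro θ
    have h1 := Pool.Agent.Helper39.Area.goluzin_ext hψ.diff hψ.inj hψ.normalised hψ.hdiff
      hψ.exp_eq hψ.lim (circle_ext hR θ)
    have h2 : ‖(R : ℂ) * Complex.exp ((θ : ℂ) * Complex.I)‖ = R := by
      rw [norm_mul, Complex.norm_exp_ofReal_mul_I, mul_one, Complex.norm_real,
        Real.norm_of_nonneg (by linarith)]
    rw [h2] at h1
    exact h1
  have hgm0 : ∀ v : ℂ, ‖v‖ / 2 ≤ s0 → ∫ θ in (0:ℝ)..(2 * π), Real.exp (inner ℝ v
      (h ((R : ℂ) * Complex.exp ((θ : ℂ) * Complex.I))))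
      ≤ C1 * Real.exp (Real.log (R ^ 2 / (R ^ 2 - 1)) / (4 * a1) * ‖v‖ ^ 2) := by
    intro v hv
    have hns : ‖conj v / 2‖ = ‖v‖ / 2 := by
      rw [norm_div, RCLike.norm_conj]
      norm_num
    have h1 := hU (conj v / 2) (by rw [hns]; exact hv) ψ h hψ R hR
    simp_rw [exp_inner']
    unfold mE at h1
    rw [rpow_R hR, hns] at h1
    have h2 := h1.trans (mul_le_mul_of_nonneg_right (le_abs_self C0) (Real.exp_pos _).le)
    rw [one_div, inv_mul_le_iff₀ (by positivity)] at h2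
    refine h2.trans (le_of_eq ?_)
    have e : (‖v‖ / 2) ^ 2 / a1 * Real.log (R ^ 2 / (R ^ 2 - 1))
        = Real.log (R ^ 2 / (R ^ 2 - 1)) / (4 * a1) * ‖v‖ ^ 2 := by
      field_simp
      norm_num
    rw [hC1, e]
    ring
  unfold mInt
  obtain ⟨L, hL⟩ : ∃ L, L = Real.log (R ^ 2 / (R ^ 2 - 1)) := ⟨_, rfl⟩
  rw [← hL] at hm2 hLpos hfb hgm0 ⊢
  obtain ⟨f, hfdef⟩ : ∃ f : ℝ → ℂ, f = fun θ : ℝ =>
    h ((R : ℂ) * Complex.exp ((θ : ℂ) * Complex.I)) := ⟨_, rfl⟩
  have hfe : ∀ θ : ℝ, h ((R : ℂ) * Complex.exp ((θ : ℂ) * Complex.I)) = f θ := by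
    intro θ; rw [hfdef]
  rw [← hfdef] at hf
  simp_rw [hfe] at hfb hm2 hgm0 ⊢
  have hA1 : 0 ≤ 2 * π * Real.exp (a * L0) := by positivity
  have hA2 : 0 ≤ 2 * C1 / (1 - a / a1) := by positivity
  gcongr 1 / (2 * π) * ?_
  rcases le_total L L0 with hcase | hcase
  · -- small L
    have h1 : ∀ θ : ℝ, Real.exp (a * ‖f θ‖ ^ 2 / L) ≤ Real.exp (a * L0) := by
      intro θ
      apply Real.exp_le_exp.mpr
      rw [div_le_iff₀ hLpos]
      have h3 := hfb θ
      have h4 : ‖f θ‖ ^ 2 ≤ L ^ 2 := pow_le_pow_left₀ (norm_nonneg _) h3 2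
      calc a * ‖f θ‖ ^ 2 ≤ a * L ^ 2 := by gcongr
        _ = a * L * L := by ring
        _ ≤ a * L0 * L := by gcongr
    have h5 : ∫ θ in (0:ℝ)..(2 * π), Real.exp (a * ‖f θ‖ ^ 2 / L)
        ≤ ∫ θ in (0:ℝ)..(2 * π), Real.exp (a * L0) := by
      apply intervalIntegral.integral_mono (by positivity)
      · apply Continuous.intervalIntegrable
        exact Real.continuous_exp.comp ((continuous_const.mul (hf.norm.pow 2)).div_const L)
      · apply Continuous.intervalIntegrable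
        exact continuous_const
      · intro θ; exact h1 θ
    rw [intervalIntegral.integral_const, smul_eq_mul, sub_zero] at h5
    linarith
  · -- large L
    have hbig : Real.log 4 ≤ L / (4 * a) * δ ^ 2 / 2 := by
      have h1 : L0 * δ ^ 2 = 8 * a * Real.log 4 := by
        rw [hL0]; field_simp
      have h2 : L0 * δ ^ 2 ≤ L * δ ^ 2 := by gcongr
      rw [h1] at h2
      have h3 : L / (4 * a) * δ ^ 2 / 2 = L * δ ^ 2 / (8 * a) := by
        field_simp
        norm_num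
      rw [h3, le_div_iff₀ (by positivity)]
      linarith
    obtain ⟨S, hSdef⟩ : ∃ S : Set ℝ, S = {θ | ‖f θ‖ ≤ w0 * L} := ⟨_, rfl⟩
    have hSm : MeasurableSet S := by
      rw [hSdef]
      exact (isClosed_le hf.norm continuous_const).measurableSet
    have hgm : ∀ v : ℂ, ‖v‖ ≤ 2 * a * w0 + δ →
        ∫⁻ θ in Ioc (0:ℝ) (2 * π) ∩ S, ENNReal.ofReal (Real.exp (inner ℝ v (f θ)))
        ≤ ENNReal.ofReal (C1 * Real.exp (L / (4 * a1) * ‖v‖ ^ 2)) := by
      intro v hv
      have hcont : Continuous (fun θ : ℝ => Real.exp (inner ℝ v (f θ))) :=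
        Real.continuous_exp.comp (Continuous.inner continuous_const hf)
      refine (lintegral_mono_set inter_subset_left).trans ?_
      rw [← ofReal_integral_eq_lintegral_ofReal hcont.integrableOn_Ioc
        (Eventually.of_forall fun θ => (Real.exp_pos _).le)]
      apply ENNReal.ofReal_le_ofReal
      rw [← intervalIntegral.integral_of_le (by positivity : (0:ℝ) ≤ 2 * π)]
      exact hgm0 v (by rw [hδ] at hv; linarith)
    have h1 := gauss_average_on (L := L) (k := w0) (δ := δ) (C := C1) ha haa hLpos hδ0 hC10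
      hbig hf (measurableSet_Ioc.inter hSm) (fun θ hθ => by
        have := hθ.2
        rw [hSdef] at this
        exact this) hgm
    -- the complement
    have h2 : ∀ θ ∈ Ioc (0:ℝ) (2 * π) \ S, ENNReal.ofReal (Real.exp (a * ‖f θ‖ ^ 2 / L))
        ≤ ENNReal.ofReal (expSum pts L (f θ)) := by
      intro θ hθ
      apply ENNReal.ofReal_le_ofReal
      have hθ2 : w0 * L < ‖f θ‖ := by
        have := hθ.2
        rw [hSdef] at this
        simpa using this
      obtain ⟨w, hw⟩ : ∃ w : ℂ, w = f θ / L := ⟨_, rfl⟩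
      have hLc : (L : ℂ) ≠ 0 := by exact_mod_cast hLpos.ne'
      have hfw : f θ = L * w := by rw [hw]; field_simp
      have hnw : ‖f θ‖ = L * ‖w‖ := by
        rw [hfw, norm_mul, Complex.norm_real, Real.norm_of_nonneg hLpos.le]
      have hw1 : ‖w‖ ≤ 1 := by
        have h3 := hfb θ
        rw [hnw] at h3
        nlinarith
      have hw2 : w0 ≤ ‖w‖ := by
        rw [hnw] at hθ2
        nlinarith
      obtain ⟨p, hp, hpc⟩ := hcov w hw2 hw1
      refine le_trans ?_ (expSum_ge L (f θ) hp)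
      rw [norm_exp_sq, ← Real.exp_add]
      apply Real.exp_le_exp.mpr
      rw [hnw, hfw]
      have e1 : a * (L * ‖w‖) ^ 2 / L = L * (a * ‖w‖ ^ 2) := by field_simp
      have e2 : (p.1 * (↑L * w)).re = L * (p.1 * w).re := by
        rw [mul_left_comm, Complex.re_ofReal_mul]
      rw [e1, e2]
      nlinarith
    have h3 : ∫⁻ θ in Ioc (0:ℝ) (2 * π) \ S, ENNReal.ofReal (Real.exp (a * ‖f θ‖ ^ 2 / L))
        ≤ ENNReal.ofReal C2 := by
      refine (setLIntegral_mono' (measurableSet_Ioc.diff hSm) h2).trans ?_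
      refine (lintegral_mono_set sdiff_subset).trans ?_
      have hcont := expSum_cont pts L hf
      rw [← ofReal_integral_eq_lintegral_ofReal hcont.integrableOn_Ioc
        (Eventually.of_forall fun θ => expSum_nonneg pts L (f θ))]
      apply ENNReal.ofReal_le_ofReal
      rw [← intervalIntegral.integral_of_le (by positivity : (0:ℝ) ≤ 2 * π)]
      exact hm2
    have h4 : ∫⁻ θ in Ioc (0:ℝ) (2 * π), ENNReal.ofReal (Real.exp (a * ‖f θ‖ ^ 2 / L))
        ≤ ENNReal.ofReal (2 * C1 / (1 - a / a1) + C2) := by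
      rw [← lintegral_inter_add_sdiff _ _ hSm, ENNReal.ofReal_add hA2 hC2]
      exact add_le_add h1 h3
    have hcont : Continuous (fun θ : ℝ => Real.exp (a * ‖f θ‖ ^ 2 / L)) :=
      Real.continuous_exp.comp ((continuous_const.mul (hf.norm.pow 2)).div_const L)
    rw [← ofReal_integral_eq_lintegral_ofReal hcont.integrableOn_Ioc
      (Eventually.of_forall fun θ => (Real.exp_pos _).le)] at h4
    rw [← intervalIntegral.integral_of_le (by positivity : (0:ℝ) ≤ 2 * π)] at h4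
    have h5 := (ENNReal.ofReal_le_ofReal_iff (by linarith)).mp h4
    linarith

end Pool.Agent.Helper12.HR2
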