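import Mathlib

/-!
MP_16b0ee, project HR2: a quadtree check that a half annulus is covered by discs.
-/

set_option autoImplicit false

namespace Pool.Agent.Helper12.HR2

/-- a disc: the exponent `s = (p + q i) / sr` and the bound `b = bn / bd` -/
structure Dsc where
  /-- numerator of the real part -/
  p : ℤ
  /-- numerator of the imaginary part -/
  q : ℤ
  /-- denominator -/
  sr : ℕ
  /-- numerator of the bound -/
  bn : ℕ
  /-- denominator of the bound -/
  bd : ℕ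

/-- quadtrees with hints -/
inductive QT where
  | out : QT
  | inn : QT
  | leaf : ℕ → QT
  | node : QT → QT → QT → QT → QT

/-- the parameters: `a = an / ad`, the inner radius `1 / 2 ^ kw` -/
structure QP where
  /-- numerator of `a` -/
  an : ℕ
  /-- denominator of `a` -/
  ad : ℕ
  /-- numerator of the inner radius -/
  wn : ℕ
  /-- denominator of the inner radius -/
  wd : ℕ

/-- twice a number -/
def dbl (x : ℤ) : ℤ := Int.mul 2 x

/-- the integer value of the quadratic function of a disc at a point `(X, Y) / N` -/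
def fD (P : QP) (D : Dsc) (X Y N : ℤ) : ℤ :=
  Int.add (Int.sub
    (Int.mul (Int.ofNat (Nat.mul (Nat.mul P.an D.sr) D.bd)) (Int.add (Int.mul X X) (Int.mul Y Y)))
    (Int.mul (Int.mul (Int.ofNat (Nat.mul (Nat.mul 2 P.ad) D.bd)) N)
      (Int.sub (Int.mul D.p X) (Int.mul D.q Y))))
    (Int.mul (Int.ofNat (Nat.mul (Nat.mul D.bn P.ad) D.sr)) (Int.mul N N))

/-- a nonpositive integer -/
noncomputable def npos (x : ℤ) : Bool :=
  Int.rec (motive := fun _ => Bool) (fun n => Nat.beq n 0) (fun _ => true) x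

/-- a negative integer -/
noncomputable def isneg (x : ℤ) : Bool :=
  Int.rec (motive := fun _ => Bool) (fun _ => false) (fun _ => true) x

theorem npos_iff {x : ℤ} (h : npos x = true) : x ≤ 0 := by
  rcases x with n | n
  · have h1 : Nat.beq n 0 = true := h
    rw [Nat.eq_of_beq_eq_true h1]
    exact le_rfl
  · exact (Int.negSucc_lt_zero n).le

theorem isneg_true {x : ℤ} (h : isneg x = true) : x < 0 := by
  rcases x with n | n
  · exact absurd h (by simp [isneg])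
  · exact Int.negSucc_lt_zero n

theorem isneg_false {x : ℤ} (h : isneg x = false) : 0 ≤ x := by
  rcases x with n | n
  · exact Int.natCast_nonneg n
  · exact absurd h (by simp [isneg])

/-- look up -/
noncomputable def lkD (l : List Dsc) (d : Dsc) : ℕ → Dsc :=
  List.rec (motive := fun _ => ℕ → Dsc) (fun _ => d)
    (fun x _ ih k => Nat.rec (motive := fun _ => Dsc) x (fun k' _ => ih k') k) l

theorem lkD_mem (l : List Dsc) (d : Dsc) (k : ℕ) : lkD l d k ∈ d :: l := by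
  induction l generalizing k with
  | nil => simp [lkD]
  | cons x l ih =>
    rcases k with _ | k
    · change x ∈ d :: x :: l
      simp
    · change lkD l d k ∈ d :: x :: l
      have := ih k
      simp only [List.mem_cons] at this ⊢
      tauto

/-- the square of the distance to the origin of the point `(X, Y) / N`, minus 1 -/
noncomputable def nrm2 (X Y : ℤ) : ℤ := Int.add (Int.mul X X) (Int.mul Y Y)

/-- the check of the cell `[X, X + 1] × [Y, Y + 1] / N` -/
noncomputable def qchk (P : QP) (ds : List Dsc) (d0 : Dsc) (t : QT) : ℤ → ℤ → ℤ → Bool :=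
  QT.rec (motive := fun _ => ℤ → ℤ → ℤ → Bool)
    (fun X Y N =>
      -- the nearest point is outside the unit disc
      or (and (and (not (isneg X)) (not (isneg Y)))
          (isneg (Int.sub (Int.mul N N) (nrm2 X Y))))
        (and (and (isneg X) (not (isneg Y)))
          (isneg (Int.sub (Int.mul N N) (nrm2 (Int.add X 1) Y)))))
    (fun X Y N =>
      -- the cell is inside the small disc
      and (and (isneg (Int.sub (Int.mul (Int.ofNat (Nat.mul P.wd P.wd)) (nrm2 X Y))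
            (Int.mul (Int.ofNat (Nat.mul P.wn P.wn)) (Int.mul N N))))
          (isneg (Int.sub (Int.mul (Int.ofNat (Nat.mul P.wd P.wd)) (nrm2 (Int.add X 1) Y))
            (Int.mul (Int.ofNat (Nat.mul P.wn P.wn)) (Int.mul N N)))))
        (and (isneg (Int.sub (Int.mul (Int.ofNat (Nat.mul P.wd P.wd)) (nrm2 X (Int.add Y 1)))
            (Int.mul (Int.ofNat (Nat.mul P.wn P.wn)) (Int.mul N N))))
          (isneg (Int.sub (Int.mul (Int.ofNat (Nat.mul P.wd P.wd))
            (nrm2 (Int.add X 1) (Int.add Y 1)))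
            (Int.mul (Int.ofNat (Nat.mul P.wn P.wn)) (Int.mul N N))))))
    (fun j X Y N =>
      and (and (npos (fD P (lkD ds d0 j) X Y N)) (npos (fD P (lkD ds d0 j) (Int.add X 1) Y N)))
        (and (npos (fD P (lkD ds d0 j) X (Int.add Y 1) N))
          (npos (fD P (lkD ds d0 j) (Int.add X 1) (Int.add Y 1) N))))
    (fun _ _ _ _ i1 i2 i3 i4 X Y N =>
      and (and (i1 (dbl X) (dbl Y) (dbl N)) (i2 (Int.add (dbl X) 1) (dbl Y) (dbl N)))
        (and (i3 (dbl X) (Int.add (dbl Y) 1) (dbl N))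
          (i4 (Int.add (dbl X) 1) (Int.add (dbl Y) 1) (dbl N)))) t

/-- positivity of the denominators -/
def okD (ds : List Dsc) : Bool := ds.all (fun D => Nat.ble 1 D.sr && Nat.ble 1 D.bd)

/-! ## Soundness -/

/-- the quadratic function of a disc -/
noncomputable def gD (P : QP) (D : Dsc) (u v : ℝ) : ℝ :=
  (P.an : ℝ) * D.sr * D.bd * (u ^ 2 + v ^ 2) - 2 * P.ad * D.bd * (D.p * u - D.q * v)
    + D.bn * P.ad * D.sr

theorem fD_eq (P : QP) (D : Dsc) (X Y N : ℤ) (hN : 0 < N) :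
    ((fD P D X Y N : ℤ) : ℝ) = (N : ℝ) ^ 2 * gD P D (X / N) (Y / N) := by
  have hN' : (N : ℝ) ≠ 0 := by exact_mod_cast hN.ne'
  have h0 : fD P D X Y N = ((P.an * D.sr * D.bd : ℕ) : ℤ) * (X * X + Y * Y)
      - ((2 * P.ad * D.bd : ℕ) : ℤ) * N * (D.p * X - D.q * Y)
      + ((D.bn * P.ad * D.sr : ℕ) : ℤ) * (N * N) := rfl
  rw [h0, gD]
  push_cast
  field_simp

/-- one-dimensional convexity -/
theorem conv1 {α β γ u0 u1 u : ℝ} (hα : 0 ≤ α) (h0 : u0 ≤ u) (h1 : u ≤ u1) (hlt : u0 < u1)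
    (g0 : α * u0 ^ 2 + β * u0 + γ ≤ 0) (g1 : α * u1 ^ 2 + β * u1 + γ ≤ 0) :
    α * u ^ 2 + β * u + γ ≤ 0 := by
  have key : (u1 - u0) * (α * u ^ 2 + β * u + γ)
      = (u1 - u) * (α * u0 ^ 2 + β * u0 + γ) + (u - u0) * (α * u1 ^ 2 + β * u1 + γ)
        - α * ((u - u0) * (u1 - u) * (u1 - u0)) := by ring
  have a1 : (u1 - u) * (α * u0 ^ 2 + β * u0 + γ) ≤ 0 :=
    mul_nonpos_of_nonneg_of_nonpos (by linarith) g0
  have a2 : (u - u0) * (α * u1 ^ 2 + β * u1 + γ) ≤ 0 :=
    mul_nonpos_of_nonneg_of_nonpos (by linarith) g1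
  have a3 : 0 ≤ α * ((u - u0) * (u1 - u) * (u1 - u0)) := by
    have b1 : 0 ≤ u - u0 := by linarith
    have b2 : 0 ≤ u1 - u := by linarith
    have b3 : 0 ≤ u1 - u0 := by linarith
    positivity
  have h2 : (u1 - u0) * (α * u ^ 2 + β * u + γ) ≤ 0 := by linarith
  by_contra hneg
  have h3 : 0 < α * u ^ 2 + β * u + γ := not_le.1 hneg
  have := mul_pos (by linarith : 0 < u1 - u0) h3
  linarith

theorem gD_cell (P : QP) (D : Dsc) {u0 u1 v0 v1 u v : ℝ} (hu : u0 < u1) (hv : v0 < v1)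
    (h1 : u0 ≤ u) (h2 : u ≤ u1) (h3 : v0 ≤ v) (h4 : v ≤ v1)
    (g00 : gD P D u0 v0 ≤ 0) (g10 : gD P D u1 v0 ≤ 0) (g01 : gD P D u0 v1 ≤ 0)
    (g11 : gD P D u1 v1 ≤ 0) : gD P D u v ≤ 0 := by
  have hα : (0 : ℝ) ≤ P.an * D.sr * D.bd := by positivity
  have e1 : ∀ w : ℝ, gD P D u0 w ≤ 0 → gD P D u1 w ≤ 0 → gD P D u w ≤ 0 := by
    intro w k0 k1
    have := conv1 (α := (P.an : ℝ) * D.sr * D.bd) (β := -(2 * P.ad * D.bd * D.p))
      (γ := (P.an : ℝ) * D.sr * D.bd * w ^ 2 + 2 * P.ad * D.bd * D.q * w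
        + D.bn * P.ad * D.sr) hα h1 h2 hu (by unfold gD at k0; linarith)
        (by unfold gD at k1; linarith)
    unfold gD
    linarith
  have e2 := e1 v0 g00 g10
  have e3 := e1 v1 g01 g11
  have := conv1 (α := (P.an : ℝ) * D.sr * D.bd) (β := 2 * P.ad * D.bd * D.q)
      (γ := (P.an : ℝ) * D.sr * D.bd * u ^ 2 - 2 * P.ad * D.bd * D.p * u
        + D.bn * P.ad * D.sr) hα h3 h4 hv (by unfold gD at e2; linarith)
        (by unfold gD at e3; linarith)
  unfold gD
  linarith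

theorem nrm2_eq (X Y : ℤ) : nrm2 X Y = X * X + Y * Y := rfl

theorem sq_cell {u0 u1 u : ℝ} (h1 : u0 ≤ u) (h2 : u ≤ u1) : u ^ 2 ≤ u0 ^ 2 ∨ u ^ 2 ≤ u1 ^ 2 := by
  rcases le_total 0 u with h | h
  · right; nlinarith
  · left; nlinarith

theorem qchk_sound (P : QP) (ds : List Dsc) (d0 : Dsc) (t : QT) : ∀ X Y N : ℤ, 0 < N →
    qchk P ds d0 t X Y N = true → ∀ u v : ℝ, (X : ℝ) / N ≤ u → u ≤ ((X : ℝ) + 1) / N →
    (Y : ℝ) / N ≤ v → v ≤ ((Y : ℝ) + 1) / N → (P.wn : ℝ) ^ 2 ≤ (P.wd : ℝ) ^ 2 * (u ^ 2 + v ^ 2) →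
    u ^ 2 + v ^ 2 ≤ 1 → ∃ D ∈ d0 :: ds, gD P D u v ≤ 0 := by
  induction t with
  | out =>
    intro X Y N hN h u v hu1 hu2 hv1 hv2 _ hw
    exfalso
    have hN' : (0 : ℝ) < N := by exact_mod_cast hN
    have h' : (or (and (and (not (isneg X)) (not (isneg Y)))
          (isneg (N * N - nrm2 X Y)))
        (and (and (isneg X) (not (isneg Y)))
          (isneg (N * N - nrm2 (X + 1) Y)))) = true := h
    rw [Bool.or_eq_true, Bool.and_eq_true, Bool.and_eq_true, Bool.and_eq_true, Bool.and_eq_true]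
      at h'
    rw [div_le_iff₀ hN'] at hu1 hv1
    rw [le_div_iff₀ hN'] at hu2 hv2
    rcases h' with ⟨⟨a1, a2⟩, a3⟩ | ⟨⟨a1, a2⟩, a3⟩
    · have b1 : 0 ≤ X := isneg_false (by simpa using a1)
      have b2 : 0 ≤ Y := isneg_false (by simpa using a2)
      have b3 := isneg_true a3
      rw [nrm2_eq] at b3
      have c1 : (0 : ℝ) ≤ X := by exact_mod_cast b1
      have c2 : (0 : ℝ) ≤ Y := by exact_mod_cast b2
      have c3 : (N : ℝ) * N < X * X + Y * Y := by
        have : N * N < X * X + Y * Y := by linarith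
        exact_mod_cast this
      have d1 : (X : ℝ) * X ≤ (u * N) * (u * N) := mul_self_le_mul_self c1 hu1
      have d2 : (Y : ℝ) * Y ≤ (v * N) * (v * N) := mul_self_le_mul_self c2 hv1
      have d3 : (u ^ 2 + v ^ 2) * (N * N) ≤ 1 * ((N : ℝ) * N) := by gcongr
      linarith
    · have b1 : X + 1 ≤ 0 := by
        have := isneg_true a1
        omega
      have b2 : 0 ≤ Y := isneg_false (by simpa using a2)
      have b3 := isneg_true a3
      rw [nrm2_eq] at b3
      have c1 : ((X : ℝ) + 1) ≤ 0 := by exact_mod_cast b1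
      have c2 : (0 : ℝ) ≤ Y := by exact_mod_cast b2
      have c3 : (N : ℝ) * N < (X + 1) * (X + 1) + Y * Y := by
        have : N * N < (X + 1) * (X + 1) + Y * Y := by linarith
        exact_mod_cast this
      have d1 : ((X : ℝ) + 1) * (X + 1) ≤ (u * N) * (u * N) := by nlinarith
      have d2 : (Y : ℝ) * Y ≤ (v * N) * (v * N) := mul_self_le_mul_self c2 hv1
      have d3 : (u ^ 2 + v ^ 2) * (N * N) ≤ 1 * ((N : ℝ) * N) := by gcongr
      linarith
  | inn =>
    intro X Y N hN h u v hu1 hu2 hv1 hv2 hw _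
    exfalso
    have hN' : (0 : ℝ) < N := by exact_mod_cast hN
    have h' : (and (and (isneg (((P.wd * P.wd : ℕ) : ℤ) * nrm2 X Y
            - ((P.wn * P.wn : ℕ) : ℤ) * (N * N)))
          (isneg (((P.wd * P.wd : ℕ) : ℤ) * nrm2 (X + 1) Y
            - ((P.wn * P.wn : ℕ) : ℤ) * (N * N))))
        (and (isneg (((P.wd * P.wd : ℕ) : ℤ) * nrm2 X (Y + 1)
            - ((P.wn * P.wn : ℕ) : ℤ) * (N * N)))
          (isneg (((P.wd * P.wd : ℕ) : ℤ) * nrm2 (X + 1) (Y + 1)
            - ((P.wn * P.wn : ℕ) : ℤ) * (N * N))))) = true := h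
    rw [Bool.and_eq_true, Bool.and_eq_true, Bool.and_eq_true] at h'
    obtain ⟨⟨a1, a2⟩, a3, a4⟩ := h'
    have b1 := isneg_true a1
    have b2 := isneg_true a2
    have b3 := isneg_true a3
    have b4 := isneg_true a4
    rw [nrm2_eq] at b1 b2 b3 b4
    have c1 : (P.wd : ℝ) * P.wd * (X * X + Y * Y) < P.wn * P.wn * (N * N) := by
      have : ((P.wd * P.wd : ℕ) : ℤ) * (X * X + Y * Y) < ((P.wn * P.wn : ℕ) : ℤ) * (N * N) := by
        linarith
      exact_mod_cast this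
    have c2 : (P.wd : ℝ) * P.wd * ((X + 1) * (X + 1) + Y * Y) < P.wn * P.wn * (N * N) := by
      have : ((P.wd * P.wd : ℕ) : ℤ) * ((X + 1) * (X + 1) + Y * Y)
          < ((P.wn * P.wn : ℕ) : ℤ) * (N * N) := by
        linarith
      exact_mod_cast this
    have c3 : (P.wd : ℝ) * P.wd * (X * X + (Y + 1) * (Y + 1)) < P.wn * P.wn * (N * N) := by
      have : ((P.wd * P.wd : ℕ) : ℤ) * (X * X + (Y + 1) * (Y + 1))
          < ((P.wn * P.wn : ℕ) : ℤ) * (N * N) := by
        linarith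
      exact_mod_cast this
    have c4 : (P.wd : ℝ) * P.wd * ((X + 1) * (X + 1) + (Y + 1) * (Y + 1))
        < P.wn * P.wn * (N * N) := by
      have : ((P.wd * P.wd : ℕ) : ℤ) * ((X + 1) * (X + 1) + (Y + 1) * (Y + 1))
          < ((P.wn * P.wn : ℕ) : ℤ) * (N * N) := by
        linarith
      exact_mod_cast this
    rw [div_le_iff₀ hN'] at hu1 hv1
    rw [le_div_iff₀ hN'] at hu2 hv2
    have d0 : (P.wn : ℝ) * P.wn * (N * N) ≤ P.wd * P.wd * ((u * N) ^ 2 + (v * N) ^ 2) := by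
      have : (P.wn : ℝ) ^ 2 * (N * N) ≤ ((P.wd : ℝ) ^ 2 * (u ^ 2 + v ^ 2)) * (N * N) := by gcongr
      linarith
    have hwd : (0 : ℝ) ≤ (P.wd : ℝ) * P.wd := by positivity
    rcases sq_cell hu1 hu2 with e1 | e1 <;> rcases sq_cell hv1 hv2 with e2 | e2
    · linarith [mul_le_mul_of_nonneg_left (add_le_add e1 e2) hwd]
    · linarith [mul_le_mul_of_nonneg_left (add_le_add e1 e2) hwd]
    · linarith [mul_le_mul_of_nonneg_left (add_le_add e1 e2) hwd]
    · linarith [mul_le_mul_of_nonneg_left (add_le_add e1 e2) hwd]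
  | leaf j =>
    intro X Y N hN h u v hu1 hu2 hv1 hv2 _ _
    refine ⟨lkD ds d0 j, lkD_mem ds d0 j, ?_⟩
    have hN' : (0 : ℝ) < N := by exact_mod_cast hN
    have h' : (and (and (npos (fD P (lkD ds d0 j) X Y N)) (npos (fD P (lkD ds d0 j) (X + 1) Y N)))
        (and (npos (fD P (lkD ds d0 j) X (Y + 1) N))
          (npos (fD P (lkD ds d0 j) (X + 1) (Y + 1) N)))) = true := h
    rw [Bool.and_eq_true, Bool.and_eq_true, Bool.and_eq_true] at h'
    obtain ⟨⟨a1, a2⟩, a3, a4⟩ := h'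
    have key : ∀ X' Y' : ℤ, npos (fD P (lkD ds d0 j) X' Y' N) = true →
        gD P (lkD ds d0 j) (X' / N) (Y' / N) ≤ 0 := by
      intro X' Y' h1
      have h2 := npos_iff h1
      have h3 : ((fD P (lkD ds d0 j) X' Y' N : ℤ) : ℝ) ≤ 0 := by exact_mod_cast h2
      rw [fD_eq _ _ _ _ _ hN] at h3
      by_contra hneg
      have := mul_pos (by positivity : (0 : ℝ) < (N : ℝ) ^ 2) (not_le.1 hneg)
      linarith
    have k1 := key _ _ a1
    have k2 := key _ _ a2
    have k3 := key _ _ a3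
    have k4 := key _ _ a4
    push_cast at k2 k3 k4
    exact gD_cell P _ (by gcongr; linarith) (by gcongr; linarith) hu1 hu2 hv1 hv2 k1 k2 k3 k4
  | node t1 t2 t3 t4 i1 i2 i3 i4 =>
    intro X Y N hN h u v hu1 hu2 hv1 hv2 hw hw1
    have hN' : (0 : ℝ) < N := by exact_mod_cast hN
    have h' : (and (and (qchk P ds d0 t1 (2 * X) (2 * Y) (2 * N))
          (qchk P ds d0 t2 (2 * X + 1) (2 * Y) (2 * N)))
        (and (qchk P ds d0 t3 (2 * X) (2 * Y + 1) (2 * N))
          (qchk P ds d0 t4 (2 * X + 1) (2 * Y + 1) (2 * N)))) = true := h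
    rw [Bool.and_eq_true, Bool.and_eq_true, Bool.and_eq_true] at h'
    obtain ⟨⟨a1, a2⟩, a3, a4⟩ := h'
    have hN2 : 0 < 2 * N := by omega
    have e0 : ∀ x : ℝ, (2 * x) / (2 * N) = x / N := by intro x; field_simp
    have e1 : ∀ x : ℝ, (2 * x + 1) / (2 * N) = (x + 1 / 2) / N := by intro x; field_simp
    have e2 : ∀ x : ℝ, (2 * x + 1 + 1) / (2 * N) = (x + 1) / N := by intro x; field_simp; ring
    rcases le_total u (((X : ℝ) + 1 / 2) / N) with hu | hu <;>
      rcases le_total v (((Y : ℝ) + 1 / 2) / N) with hv | hv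
    · exact i1 _ _ _ hN2 a1 u v (by push_cast; rw [e0]; exact hu1) (by push_cast; rw [e1]; exact hu)
        (by push_cast; rw [e0]; exact hv1) (by push_cast; rw [e1]; exact hv) hw hw1
    · exact i3 _ _ _ hN2 a3 u v (by push_cast; rw [e0]; exact hu1) (by push_cast; rw [e1]; exact hu)
        (by push_cast; rw [e1]; exact hv) (by push_cast; rw [e2]; exact hv2) hw hw1
    · exact i2 _ _ _ hN2 a2 u v (by push_cast; rw [e1]; exact hu) (by push_cast; rw [e2]; exact hu2)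
        (by push_cast; rw [e0]; exact hv1) (by push_cast; rw [e1]; exact hv) hw hw1
    · exact i4 _ _ _ hN2 a4 u v (by push_cast; rw [e1]; exact hu) (by push_cast; rw [e2]; exact hu2)
        (by push_cast; rw [e1]; exact hv) (by push_cast; rw [e2]; exact hv2) hw hw1

/-- the exponent and the bound of a disc -/
noncomputable def dpt (D : Dsc) : ℂ × ℝ :=
  (((D.p : ℂ) + D.q * Complex.I) / D.sr, (D.bn : ℝ) / D.bd)

/-- the conjugate exponent -/
noncomputable def dptc (D : Dsc) : ℂ × ℝ :=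
  (((D.p : ℂ) - D.q * Complex.I) / D.sr, (D.bn : ℝ) / D.bd)

theorem gD_pt (P : QP) (D : Dsc) (hs : 1 ≤ D.sr) (hb : 1 ≤ D.bd) (ha : 1 ≤ P.ad) (w : ℂ)
    (h : gD P D w.re w.im ≤ 0) :
    (P.an : ℝ) / P.ad * ‖w‖ ^ 2 ≤ 2 * ((dpt D).1 * w).re - (dpt D).2 := by
  have h1 : (0 : ℝ) < D.sr := by exact_mod_cast hs
  have h2 : (0 : ℝ) < D.bd := by exact_mod_cast hb
  have h3 : (0 : ℝ) < P.ad := by exact_mod_cast ha
  have e1 : ‖w‖ ^ 2 = w.re ^ 2 + w.im ^ 2 := by
    rw [← Complex.normSq_eq_norm_sq, Complex.normSq_apply]; ring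
  have e2 : ((dpt D).1 * w).re = (D.p * w.re - D.q * w.im) / D.sr := by
    have : (dpt D).1 * w = ((1 / (D.sr : ℝ) : ℝ) : ℂ) * (((D.p : ℂ) + D.q * Complex.I) * w) := by
      unfold dpt
      push_cast
      ring
    rw [this, Complex.re_ofReal_mul]
    simp only [Complex.mul_re, Complex.add_re, Complex.add_im, Complex.mul_im, Complex.intCast_re,
      Complex.intCast_im, Complex.I_re, Complex.I_im]
    ring
  have e3 : (dpt D).2 = (D.bn : ℝ) / D.bd := rfl
  rw [e1, e2, e3]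
  unfold gD at h
  have h4 : (P.an : ℝ) / P.ad * (w.re ^ 2 + w.im ^ 2)
      - (2 * ((D.p * w.re - D.q * w.im) / D.sr) - (D.bn : ℝ) / D.bd)
      = ((P.an : ℝ) * D.sr * D.bd * (w.re ^ 2 + w.im ^ 2) - 2 * P.ad * D.bd
        * (D.p * w.re - D.q * w.im) + D.bn * P.ad * D.sr) / (P.ad * D.sr * D.bd) := by
    field_simp
    ring
  have h5 : (P.an : ℝ) / P.ad * (w.re ^ 2 + w.im ^ 2)
      - (2 * ((D.p * w.re - D.q * w.im) / D.sr) - (D.bn : ℝ) / D.bd) ≤ 0 := by
    rw [h4]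
    exact div_nonpos_of_nonpos_of_nonneg h (by positivity)
  linarith

/-- **The covering.** -/
theorem cover_of_check (P : QP) (ds : List Dsc) (d0 : Dsc) (t1 t2 : QT) (ha : 1 ≤ P.ad)
    (hd : okD (d0 :: ds) = true) (hwd : 1 ≤ P.wd)
    (h1 : qchk P ds d0 t1 0 0 1 = true) (h2 : qchk P ds d0 t2 (-1) 0 1 = true) :
    ∀ w : ℂ, (P.wn : ℝ) / P.wd ≤ ‖w‖ → ‖w‖ ≤ 1 →
      ∃ p ∈ (d0 :: ds).map dpt ++ (d0 :: ds).map dptc,
        (P.an : ℝ) / P.ad * ‖w‖ ^ 2 ≤ 2 * (p.1 * w).re - p.2 := by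
  have key : ∀ w : ℂ, 0 ≤ w.im → (P.wn : ℝ) / P.wd ≤ ‖w‖ → ‖w‖ ≤ 1 →
      ∃ D ∈ d0 :: ds, (P.an : ℝ) / P.ad * ‖w‖ ^ 2 ≤ 2 * ((dpt D).1 * w).re - (dpt D).2 := by
    intro w him hw0 hw1
    have h3 : (0 : ℝ) < P.wd := by exact_mod_cast hwd
    have e1 : ‖w‖ ^ 2 = w.re ^ 2 + w.im ^ 2 := by
      rw [← Complex.normSq_eq_norm_sq, Complex.normSq_apply]; ring
    have a1 : (P.wn : ℝ) ^ 2 ≤ (P.wd : ℝ) ^ 2 * (w.re ^ 2 + w.im ^ 2) := by
      rw [← e1]
      rw [div_le_iff₀ h3] at hw0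
      have := pow_le_pow_left₀ (by positivity) hw0 2
      calc (P.wn : ℝ) ^ 2 ≤ (‖w‖ * P.wd) ^ 2 := this
        _ = _ := by ring
    have a2 : w.re ^ 2 + w.im ^ 2 ≤ 1 := by
      rw [← e1]
      have := norm_nonneg w
      nlinarith
    have a3 : |w.re| ≤ 1 := (Complex.abs_re_le_norm w).trans hw1
    have a4 : |w.im| ≤ 1 := (Complex.abs_im_le_norm w).trans hw1
    have a5 := abs_le.1 a3
    have a6 := abs_le.1 a4
    have hfin : ∀ D ∈ d0 :: ds, gD P D w.re w.im ≤ 0 →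
        (P.an : ℝ) / P.ad * ‖w‖ ^ 2 ≤ 2 * ((dpt D).1 * w).re - (dpt D).2 := by
      intro D hD hg
      have h4 := (List.all_eq_true.1 hd) D hD
      rw [Bool.and_eq_true] at h4
      exact gD_pt P D (Nat.ble_eq.mp h4.1) (Nat.ble_eq.mp h4.2) ha w hg
    rcases le_total 0 w.re with hre | hre
    · obtain ⟨D, hD, hg⟩ := qchk_sound P ds d0 t1 0 0 1 one_pos h1 w.re w.im
        (by push_cast; linarith) (by push_cast; linarith) (by push_cast; linarith)
        (by push_cast; linarith) a1 a2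
      exact ⟨D, hD, hfin D hD hg⟩
    · obtain ⟨D, hD, hg⟩ := qchk_sound P ds d0 t2 (-1) 0 1 one_pos h2 w.re w.im
        (by push_cast; linarith) (by push_cast; linarith) (by push_cast; linarith)
        (by push_cast; linarith) a1 a2
      exact ⟨D, hD, hfin D hD hg⟩
  intro w hw0 hw1
  rcases le_total 0 w.im with him | him
  · obtain ⟨D, hD, hg⟩ := key w him hw0 hw1
    exact ⟨dpt D, List.mem_append_left _ (List.mem_map.2 ⟨D, hD, rfl⟩), hg⟩
  · obtain ⟨D, hD, hg⟩ := key ((starRingEnd ℂ) w) (by simp; linarith) (by simpa using hw0)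
      (by simpa using hw1)
    refine ⟨dptc D, List.mem_append_right _ (List.mem_map.2 ⟨D, hD, rfl⟩), ?_⟩
    have e1 : ((dpt D).1 * (starRingEnd ℂ) w).re = ((dptc D).1 * w).re := by
      have : (dptc D).1 * w = (starRingEnd ℂ) ((dpt D).1 * (starRingEnd ℂ) w) := by
        rw [map_mul, Complex.conj_conj]
        congr 1
        unfold dpt dptc
        rw [map_div₀, map_add, map_mul, Complex.conj_I]
        simp only [map_intCast, map_natCast]
        ring
      rw [this, Complex.conj_re]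
    have e2 : (dptc D).2 = (dpt D).2 := rfl
    have e3 : ‖(starRingEnd ℂ) w‖ = ‖w‖ := Complex.norm_conj w
    rw [e1, e3] at hg
    rw [e2]
    exact hg

end Pool.Agent.Helper12.HR2
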