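import Pool.Agent.Helper12.HR2.Cover
import Pool.Agent.Helper12.HR2.QTree
import Pool.Agent.Helper65.HR2.Fin

/-!
MP_16b0ee, project HR2: exponential square integrability from a kernel checked covering, the bounds
at its centres and the uniform bound near the origin.
-/

set_option autoImplicit false

open scoped ComplexConjugate

namespace Pool.Agent.Helper12.HR2

open Pool.Agent.Helper22.Half (SigmaLog mInt)
open Pool.Agent.Helper65.HR2 (PtOK)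

theorem mInt_of_data (P : QP) (ds : List Dsc) (d0 : Dsc) (t1 t2 : QT) (ha : 1 ≤ P.ad)
    (han : 1 ≤ P.an) (hwd : 1 ≤ P.wd) (hd : okD (d0 :: ds) = true)
    (h1 : qchk P ds d0 t1 0 0 1 = true) (h2 : qchk P ds d0 t2 (-1) 0 1 = true)
    (hok : ∀ D ∈ d0 :: ds, PtOK ⟨D.p, -D.q, D.sr, D.bn, D.bd⟩) {a1 s0 : ℝ}
    (haa : (P.an : ℝ) / P.ad < a1) (hs0 : (P.an : ℝ) / P.ad * ((P.wn : ℝ) / P.wd) < s0)
    (hU : ∃ C : ℝ, ∀ s : ℂ, ‖s‖ ≤ s0 → ∀ ψ h : ℂ → ℂ, SigmaLog ψ h → ∀ R : ℝ, 1 < R →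
      mE s R h ≤ C * (R ^ 2 / (R ^ 2 - 1)) ^ (‖s‖ ^ 2 / a1)) :
    ∃ C' : ℝ, ∀ R : ℝ, 1 < R → ∀ ψ h : ℂ → ℂ, SigmaLog ψ h →
      mInt ((P.an : ℝ) / P.ad) R h ≤ C' := by
  have h0 : (0 : ℝ) < (P.an : ℝ) / P.ad := by
    have : (0 : ℝ) < P.an := by exact_mod_cast han
    have : (0 : ℝ) < P.ad := by exact_mod_cast ha
    positivity
  refine mInt_of_cover h0 haa hs0 hU ((d0 :: ds).map dpt ++ (d0 :: ds).map dptc) ?_
    (cover_of_check P ds d0 t1 t2 ha hd hwd h1 h2)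
  intro p hp
  rcases List.mem_append.1 hp with hp | hp
  · obtain ⟨D, hD, rfl⟩ := List.mem_map.1 hp
    have h3 := (hok D hD).conj
    obtain ⟨C, hC⟩ := h3
    refine ⟨C, fun ψ h hψ R hR => ?_⟩
    have h4 := hC ψ h hψ R hR
    simp only [neg_neg] at h4
    exact h4
  · obtain ⟨D, hD, rfl⟩ := List.mem_map.1 hp
    obtain ⟨C, hC⟩ := hok D hD
    refine ⟨C, fun ψ h hψ R hR => ?_⟩
    have h4 := hC ψ h hψ R hR
    have e1 : (((D.p : ℂ) + ((-D.q : ℤ) : ℂ) * Complex.I) / D.sr) = (dptc D).1 := by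
      unfold dptc
      push_cast
      ring
    rw [e1] at h4
    exact h4

end Pool.Agent.Helper12.HR2
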