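import Mathlib

/-!
MP_16b0ee, project HR2: Hermitian polynomials in finitely many variables and their conjugates,
with Gaussian integer coefficients, and the Kronecker substitution: such a polynomial of bounded
weight with small coefficients vanishes if it vanishes at a suitable point with integer
coordinates.
-/

set_option autoImplicit false

open scoped ComplexConjugate

namespace Pool.Agent.Helper12.HR2

/-- a monomial: the indices of the variables and the indices of the conjugate variables -/
abbrev Mo := List ℕ × List ℕ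

/-- Gaussian integers -/
abbrev GZ := ℤ × ℤ

/-- the complex number of a Gaussian integer -/
noncomputable def gv (z : GZ) : ℂ := (z.1 : ℂ) + (z.2 : ℂ) * Complex.I

/-- product -/
def gmul (z w : GZ) : GZ := (z.1 * w.1 - z.2 * w.2, z.1 * w.2 + z.2 * w.1)

/-- conjugate -/
def gconj (z : GZ) : GZ := (z.1, -z.2)

/-- norm -/
def gn (z : GZ) : ℕ := z.1.natAbs + z.2.natAbs

theorem gv_mul (z w : GZ) : gv (gmul z w) = gv z * gv w := by
  simp only [gv, gmul]
  push_cast
  linear_combination (-(z.2 : ℂ) * (w.2 : ℂ)) * Complex.I_mul_I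

theorem gv_conj (z : GZ) : gv (gconj z) = conj (gv z) := by
  simp only [gv, gconj, map_add, map_mul, Complex.conj_I, map_intCast]
  push_cast
  ring

theorem gv_add (z w : GZ) : gv (z + w) = gv z + gv w := by
  simp only [gv, Prod.fst_add, Prod.snd_add]
  push_cast
  ring

theorem gv_re (z : GZ) : (gv z).re = z.1 := by simp [gv]

theorem gv_im (z : GZ) : (gv z).im = z.2 := by simp [gv]

theorem gn_mul (z w : GZ) : gn (gmul z w) ≤ gn z * gn w := by
  simp only [gn, gmul]
  have h1 : (z.1 * w.1 - z.2 * w.2).natAbs ≤ z.1.natAbs * w.1.natAbs + z.2.natAbs * w.2.natAbs := by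
    rw [← Int.natAbs_mul, ← Int.natAbs_mul]
    exact Int.natAbs_sub_le _ _
  have h2 : (z.1 * w.2 + z.2 * w.1).natAbs ≤ z.1.natAbs * w.2.natAbs + z.2.natAbs * w.1.natAbs := by
    rw [← Int.natAbs_mul, ← Int.natAbs_mul]
    exact Int.natAbs_add_le _ _
  nlinarith

theorem gn_conj (z : GZ) : gn (gconj z) = gn z := by simp [gn, gconj]

theorem norm_gv_le (z : GZ) : ‖gv z‖ ≤ gn z := by
  have h : ‖gv z‖ ≤ |(gv z).re| + |(gv z).im| := Complex.norm_le_abs_re_add_abs_im _
  rw [gv_re, gv_im] at h
  have h1 : |((z.1 : ℤ) : ℝ)| = (z.1.natAbs : ℝ) := by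
    rw [← Int.cast_abs, ← Int.natCast_natAbs]; simp
  have h2 : |((z.2 : ℤ) : ℝ)| = (z.2.natAbs : ℝ) := by
    rw [← Int.cast_abs, ← Int.natCast_natAbs]; simp
  rw [h1, h2] at h
  simpa [gn] using h

/-- polynomials -/
abbrev Pol := List (Mo × GZ)

/-- the value of a monomial -/
noncomputable def mv (φ ψ : ℕ → ℂ) (m : Mo) : ℂ := (m.1.map φ).prod * (m.2.map ψ).prod

/-- the value of a polynomial -/
noncomputable def pv (φ ψ : ℕ → ℂ) (P : Pol) : ℂ := (P.map (fun x => gv x.2 * mv φ ψ x.1)).sum

/-- product of a monomial term and a polynomial -/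
def tmul (x : Mo × GZ) (Q : Pol) : Pol :=
  Q.map (fun y => ((x.1.1 ++ y.1.1, x.1.2 ++ y.1.2), gmul x.2 y.2))

/-- product -/
def pmul (P Q : Pol) : Pol := P.flatMap (fun x => tmul x Q)

/-- conjugate -/
def pconj (P : Pol) : Pol := P.map (fun x => ((x.1.2, x.1.1), gconj x.2))

/-- the norm -/
def nrm (P : Pol) : ℕ := (P.map (fun x => gn x.2)).sum

/-- the weight -/
def wl (A : List ℕ) : ℕ := (A.map (fun k => k + 1)).sum

/-- validity of a monomial -/
def VM (n W : ℕ) (m : Mo) : Prop := (∀ i ∈ m.1, i < n) ∧ (∀ i ∈ m.2, i < n) ∧ wl m.1 + wl m.2 ≤ W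

/-- validity of a polynomial -/
def VP (n W : ℕ) (P : Pol) : Prop := ∀ x ∈ P, VM n W x.1

section Values

variable (φ ψ : ℕ → ℂ)

theorem mv_mul (m m' : Mo) : mv φ ψ (m.1 ++ m'.1, m.2 ++ m'.2) = mv φ ψ m * mv φ ψ m' := by
  simp only [mv, List.map_append, List.prod_append]
  ring

theorem pv_nil : pv φ ψ [] = 0 := rfl

theorem pv_cons (x : Mo × GZ) (P : Pol) : pv φ ψ (x :: P) = gv x.2 * mv φ ψ x.1 + pv φ ψ P := by
  simp [pv]

theorem pv_append (P Q : Pol) : pv φ ψ (P ++ Q) = pv φ ψ P + pv φ ψ Q := by
  simp [pv]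

theorem pv_tmul (x : Mo × GZ) (Q : Pol) :
    pv φ ψ (tmul x Q) = gv x.2 * mv φ ψ x.1 * pv φ ψ Q := by
  induction Q with
  | nil => simp [tmul, pv_nil]
  | cons y Q ih =>
    change pv φ ψ (((x.1.1 ++ y.1.1, x.1.2 ++ y.1.2), gmul x.2 y.2) :: tmul x Q) = _
    rw [pv_cons, pv_cons, ih, mv_mul, gv_mul]
    ring

theorem pv_mul (P Q : Pol) : pv φ ψ (pmul P Q) = pv φ ψ P * pv φ ψ Q := by
  induction P with
  | nil => simp [pmul, pv_nil]
  | cons x P ih =>
    change pv φ ψ (tmul x Q ++ pmul P Q) = _
    rw [pv_append, pv_cons, ih, pv_tmul]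
    ring

theorem prod_conj (l : List ℕ) (f : ℕ → ℂ) :
    (l.map (fun k => conj (f k))).prod = conj ((l.map f).prod) := by
  induction l with
  | nil => simp
  | cons a l ih => simp [ih]

theorem pv_conj (P : Pol) :
    pv φ ψ (pconj P) = conj (pv (fun k => conj (ψ k)) (fun k => conj (φ k)) P) := by
  induction P with
  | nil => simp [pconj, pv_nil]
  | cons x P ih =>
    change pv φ ψ (((x.1.2, x.1.1), gconj x.2) :: pconj P) = _
    rw [pv_cons, pv_cons, ih, map_add, map_mul, gv_conj]
    congr 2
    simp only [mv, map_mul, prod_conj, Complex.conj_conj]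
    ring

end Values

theorem nrm_nil : nrm [] = 0 := rfl

theorem nrm_cons (x : Mo × GZ) (P : Pol) : nrm (x :: P) = gn x.2 + nrm P := by simp [nrm]

theorem nrm_append (P Q : Pol) : nrm (P ++ Q) = nrm P + nrm Q := by simp [nrm]

theorem nrm_tmul (x : Mo × GZ) (Q : Pol) : nrm (tmul x Q) ≤ gn x.2 * nrm Q := by
  induction Q with
  | nil => simp [tmul, nrm_nil]
  | cons y Q ih =>
    change nrm (((x.1.1 ++ y.1.1, x.1.2 ++ y.1.2), gmul x.2 y.2) :: tmul x Q) ≤ _
    rw [nrm_cons, nrm_cons]
    have := gn_mul x.2 y.2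
    nlinarith

theorem nrm_mul (P Q : Pol) : nrm (pmul P Q) ≤ nrm P * nrm Q := by
  induction P with
  | nil => simp [pmul, nrm_nil]
  | cons x P ih =>
    change nrm (tmul x Q ++ pmul P Q) ≤ _
    rw [nrm_append, nrm_cons]
    have := nrm_tmul x Q
    nlinarith

theorem nrm_conj (P : Pol) : nrm (pconj P) = nrm P := by
  induction P with
  | nil => rfl
  | cons x P ih =>
    change nrm (((x.1.2, x.1.1), gconj x.2) :: pconj P) = _
    rw [nrm_cons, nrm_cons, ih, gn_conj]

theorem wl_append (A B : List ℕ) : wl (A ++ B) = wl A + wl B := by simp [wl]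

theorem wl_cons (a : ℕ) (A : List ℕ) : wl (a :: A) = (a + 1) + wl A := by simp [wl]

theorem wl_nil : wl [] = 0 := rfl

theorem VP_append {n W : ℕ} {P Q : Pol} (hP : VP n W P) (hQ : VP n W Q) : VP n W (P ++ Q) := by
  intro x hx
  rcases List.mem_append.1 hx with h | h
  · exact hP x h
  · exact hQ x h

theorem VP_nil (n W : ℕ) : VP n W [] := by
  intro x hx
  simp at hx

theorem VP_cons {n W : ℕ} {x : Mo × GZ} {P : Pol} (hx : VM n W x.1) (hP : VP n W P) :
    VP n W (x :: P) := by
  intro y hy
  rcases List.mem_cons.1 hy with h | h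
  · rw [h]; exact hx
  · exact hP y h

theorem VP_mono {n W W' : ℕ} (h : W ≤ W') {P : Pol} (hP : VP n W P) : VP n W' P :=
  fun x hx => ⟨(hP x hx).1, (hP x hx).2.1, (hP x hx).2.2.trans h⟩

theorem VP_mul {n W W' : ℕ} {P Q : Pol} (hP : VP n W P) (hQ : VP n W' Q) :
    VP n (W + W') (pmul P Q) := by
  intro x hx
  simp only [pmul, tmul, List.mem_flatMap, List.mem_map] at hx
  obtain ⟨p, hp, q, hq, rfl⟩ := hx
  obtain ⟨h1, h2, h3⟩ := hP p hp
  obtain ⟨h4, h5, h6⟩ := hQ q hq
  refine ⟨?_, ?_, ?_⟩
  · intro i hi
    rcases List.mem_append.1 hi with h | h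
    · exact h1 i h
    · exact h4 i h
  · intro i hi
    rcases List.mem_append.1 hi with h | h
    · exact h2 i h
    · exact h5 i h
  · simp only [wl_append]
    omega

theorem VP_conj {n W : ℕ} {P : Pol} (hP : VP n W P) : VP n W (pconj P) := by
  intro x hx
  simp only [pconj, List.mem_map] at hx
  obtain ⟨p, hp, rfl⟩ := hx
  obtain ⟨h1, h2, h3⟩ := hP p hp
  exact ⟨h2, h1, by simpa [add_comm] using h3⟩

/-! ## Vanishing -/

theorem vanish_aux (B : ℤ) (M : ℕ) : ∀ (l : List (ℕ × ℤ)) (V : ℕ → ℂ),
    (∀ x ∈ l, x.1 < M) → ((l.map (fun x => |x.2|)).sum < B) →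
    (l.map (fun x => x.2 * B ^ x.1)).sum = 0 → (l.map (fun x => (x.2 : ℂ) * V x.1)).sum = 0 := by
  induction M with
  | zero =>
    intro l V h _ _
    have : l = [] := by
      rcases l with _ | ⟨x, l⟩
      · rfl
      · exact absurd (h x (by simp)) (by omega)
    rw [this]
    simp
  | succ M ih =>
    intro l V hl hn h0
    have hB : 0 < B := lt_of_le_of_lt (List.sum_nonneg (by
      intro y hy
      rw [List.mem_map] at hy
      obtain ⟨x, _, rfl⟩ := hy
      exact abs_nonneg _)) hn
    -- the part with exponent zero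
    set l0 := l.filter (fun x => x.1 = 0) with hl0
    set l1 := (l.filter (fun x => ¬ x.1 = 0)).map (fun x => (x.1 - 1, x.2)) with hl1
    have key : ∀ (l : List (ℕ × ℤ)) (f : ℕ × ℤ → ℂ) (g : ℕ × ℤ → ℂ),
        (∀ x ∈ l, x.1 = 0 → f x = g x) → (∀ x ∈ l, x.1 ≠ 0 → f x = g x) →
        (l.map f).sum = ((l.filter (fun x => x.1 = 0)).map g).sum
          + ((l.filter (fun x => ¬ x.1 = 0)).map g).sum := by
      intro l f g h1 h2
      induction l with
      | nil => simp
      | cons x l ih =>
        have ih' := ih (fun y hy => h1 y (by simp [hy])) (fun y hy => h2 y (by simp [hy]))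
        by_cases hx : x.1 = 0
        · have := h1 x (by simp) hx
          simp only [List.map_cons, List.sum_cons, hx, List.filter_cons, decide_true, if_true,
            not_true, decide_false, Bool.false_eq_true, if_false, ih', this]
          ring
        · have := h2 x (by simp) hx
          simp only [List.map_cons, List.sum_cons, hx, List.filter_cons, decide_false,
            Bool.false_eq_true, if_false, not_false_iff, decide_true, if_true, ih', this]
          ring
    have keyZ : ∀ (l : List (ℕ × ℤ)) (f : ℕ × ℤ → ℤ),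
        (l.map f).sum = ((l.filter (fun x => x.1 = 0)).map f).sum
          + ((l.filter (fun x => ¬ x.1 = 0)).map f).sum := by
      intro l f
      induction l with
      | nil => simp
      | cons x l ih =>
        by_cases hx : x.1 = 0
        · simp only [List.map_cons, List.sum_cons, hx, List.filter_cons, decide_true, if_true,
            not_true, decide_false, Bool.false_eq_true, if_false, ih]
          ring
        · simp only [List.map_cons, List.sum_cons, hx, List.filter_cons, decide_false,
            Bool.false_eq_true, if_false, not_false_iff, decide_true, if_true, ih]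
          ring
    have habs := keyZ l (fun x => |x.2|)
    have hpow := keyZ l (fun x => x.2 * B ^ x.1)
    -- the exponent zero part of the power sum
    have e0 : (l0.map (fun x => x.2 * B ^ x.1)).sum = (l0.map (fun x => x.2)).sum := by
      congr 1
      apply List.map_congr_left
      intro x hx
      have : x.1 = 0 := by simpa using (List.mem_filter.1 hx).2
      simp [this]
    have e1 : ((l.filter (fun x => ¬ x.1 = 0)).map (fun x => x.2 * B ^ x.1)).sum
        = B * (l1.map (fun x => x.2 * B ^ x.1)).sum := by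
      rw [hl1, List.map_map, ← List.sum_map_mul_left]
      congr 1
      apply List.map_congr_left
      intro x hx
      have hx0 : x.1 ≠ 0 := by simpa using (List.mem_filter.1 hx).2
      simp only [Function.comp]
      obtain ⟨k, hk⟩ := Nat.exists_eq_succ_of_ne_zero hx0
      rw [hk]
      simp only [Nat.succ_sub_one, pow_succ]
      ring
    have hs0 : (l0.map (fun x => x.2)).sum = 0 := by
      have hdvd : B ∣ (l0.map (fun x => x.2)).sum := by
        rw [h0] at hpow
        rw [← hl0, e0, e1] at hpow
        exact ⟨-(l1.map (fun x => x.2 * B ^ x.1)).sum, by linarith⟩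
      have hle : |(l0.map (fun x => x.2)).sum| < B := by
        have h1 : |(l0.map (fun x => x.2)).sum| ≤ (l0.map (fun x => |x.2|)).sum := by
          clear_value l0
          clear hl0 e0 hdvd
          induction l0 with
          | nil => simp
          | cons x l0 ih =>
            simp only [List.map_cons, List.sum_cons]
            exact (abs_add_le _ _).trans (by linarith)
        have h2 : 0 ≤ ((l.filter (fun x => ¬ x.1 = 0)).map (fun x => |x.2|)).sum :=
          List.sum_nonneg (by
            intro y hy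
            rw [List.mem_map] at hy
            obtain ⟨x, _, rfl⟩ := hy
            exact abs_nonneg _)
        linarith
      exact Int.eq_zero_of_abs_lt_dvd hdvd hle
    have hl1s : (l1.map (fun x => x.2 * B ^ x.1)).sum = 0 := by
      rw [h0] at hpow
      rw [← hl0, e0, e1, hs0] at hpow
      have : B * (l1.map (fun x => x.2 * B ^ x.1)).sum = 0 := by linarith
      exact (mul_eq_zero.1 this).resolve_left hB.ne'
    have hl1n : (l1.map (fun x => |x.2|)).sum < B := by
      have h1 : (l1.map (fun x => |x.2|)).sum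
          = ((l.filter (fun x => ¬ x.1 = 0)).map (fun x => |x.2|)).sum := by
        rw [hl1, List.map_map]
        rfl
      have h2 : 0 ≤ (l0.map (fun x => |x.2|)).sum := List.sum_nonneg (by
        intro y hy
        rw [List.mem_map] at hy
        obtain ⟨x, _, rfl⟩ := hy
        exact abs_nonneg _)
      rw [h1]
      linarith
    have hl1b : ∀ x ∈ l1, x.1 < M := by
      intro x hx
      rw [hl1, List.mem_map] at hx
      obtain ⟨y, hy, rfl⟩ := hx
      have h1 := hl y (List.mem_filter.1 hy).1
      have h2 : y.1 ≠ 0 := by simpa using (List.mem_filter.1 hy).2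
      simp only
      omega
    have hfin := ih l1 (fun N => V (N + 1)) hl1b hl1n hl1s
    have hk := key l (fun x => (x.2 : ℂ) * V x.1) (fun x => (x.2 : ℂ) * V x.1)
      (fun _ _ _ => rfl) (fun _ _ _ => rfl)
    rw [hk]
    have f0 : ((l.filter (fun x => x.1 = 0)).map (fun x => (x.2 : ℂ) * V x.1)).sum = 0 := by
      have : ((l.filter (fun x => x.1 = 0)).map (fun x => (x.2 : ℂ) * V x.1)).sum
          = (((l0.map (fun x => x.2)).sum : ℤ) : ℂ) * V 0 := by
        rw [← hl0]
        clear_value l0
        have hall : ∀ x ∈ l0, x.1 = 0 := by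
          intro x hx
          rw [hl0] at hx
          simpa using (List.mem_filter.1 hx).2
        clear hl0 hs0 e0
        induction l0 with
        | nil => simp
        | cons x l0 ih =>
          simp only [List.map_cons, List.sum_cons]
          rw [ih (fun y hy => hall y (by simp [hy])), hall x (by simp)]
          push_cast
          ring
      rw [this, hs0]
      simp
    have f1 : ((l.filter (fun x => ¬ x.1 = 0)).map (fun x => (x.2 : ℂ) * V x.1)).sum = 0 := by
      rw [← hfin, hl1, List.map_map]
      congr 1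
      apply List.map_congr_left
      intro x hx
      have hx0 : x.1 ≠ 0 := by simpa using (List.mem_filter.1 hx).2
      simp only [Function.comp]
      rw [Nat.sub_add_cancel (Nat.one_le_iff_ne_zero.2 hx0)]
    rw [f0, f1, add_zero]

/-- small coefficients: the vanishing of the number gives the vanishing of all linear
functionals -/
theorem vanish (B : ℤ) (l : List (ℕ × ℤ)) (V : ℕ → ℂ) (hn : (l.map (fun x => |x.2|)).sum < B)
    (h0 : (l.map (fun x => x.2 * B ^ x.1)).sum = 0) :
    (l.map (fun x => (x.2 : ℂ) * V x.1)).sum = 0 := by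
  refine vanish_aux B (((l.map (fun x => x.1)).sum) + 1) l V ?_ hn h0
  intro x hx
  have : x.1 ≤ (l.map (fun x => x.1)).sum :=
    List.single_le_sum (by simp) _ (List.mem_map.2 ⟨x, hx, rfl⟩)
  omega

/-- the code of a monomial -/
def code (a b : ℕ → ℕ) (m : Mo) : ℕ := (m.1.map a).sum + (m.2.map b).sum

theorem prod_pow_map (B : ℂ) (a : ℕ → ℕ) (l : List ℕ) :
    (l.map (fun k => B ^ a k)).prod = B ^ (l.map a).sum := by
  induction l with
  | nil => simp
  | cons x l ih => simp [ih, pow_add]

theorem mv_code (B : ℂ) (a b : ℕ → ℕ) (m : Mo) :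
    mv (fun k => B ^ a k) (fun k => B ^ b k) m = B ^ code a b m := by
  rw [mv, code, prod_pow_map, prod_pow_map, pow_add]

/-- injectivity of a code on the valid monomials -/
def Inj (n W : ℕ) (a b : ℕ → ℕ) : Prop :=
  ∀ m m' : Mo, VM n W m → VM n W m' → code a b m = code a b m' →
    ∀ φ ψ : ℕ → ℂ, mv φ ψ m = mv φ ψ m'

theorem abs_eq_natAbs (z : ℤ) : |z| = (z.natAbs : ℤ) := Int.abs_eq_natAbs z

theorem sum_abs_fst_le (P : Pol) (a b : ℕ → ℕ) :
    ((P.map (fun x => (code a b x.1, x.2.1))).map (fun x => |x.2|)).sum ≤ (nrm P : ℤ) := by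
  induction P with
  | nil => simp [nrm_nil]
  | cons x P ih =>
    rw [nrm_cons]
    simp only [List.map_cons, List.sum_cons, gn]
    push_cast
    have := abs_nonneg x.2.2
    linarith

theorem sum_abs_snd_le (P : Pol) (a b : ℕ → ℕ) :
    ((P.map (fun x => (code a b x.1, x.2.2))).map (fun x => |x.2|)).sum ≤ (nrm P : ℤ) := by
  induction P with
  | nil => simp [nrm_nil]
  | cons x P ih =>
    rw [nrm_cons]
    simp only [List.map_cons, List.sum_cons, gn]
    push_cast
    have := abs_nonneg x.2.1
    linarith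

theorem pv_split (B : ℤ) (a b : ℕ → ℕ) (P : Pol) :
    pv (fun k => (B : ℂ) ^ a k) (fun k => (B : ℂ) ^ b k) P
      = ((((P.map (fun x => (code a b x.1, x.2.1))).map (fun x => x.2 * B ^ x.1)).sum : ℤ) : ℂ)
      + ((((P.map (fun x => (code a b x.1, x.2.2))).map (fun x => x.2 * B ^ x.1)).sum : ℤ) : ℂ)
        * Complex.I := by
  induction P with
  | nil => simp [pv_nil]
  | cons x P ih =>
    rw [pv_cons, ih, mv_code]
    simp only [List.map_cons, List.sum_cons, gv]
    push_cast
    ring

/-- **Kronecker substitution.** -/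
theorem pv_eq_zero {n W : ℕ} {a b : ℕ → ℕ} (hinj : Inj n W a b) (B : ℕ) {P : Pol}
    (hV : VP n W P) (hn : nrm P < B)
    (h0 : pv (fun k => (B : ℂ) ^ a k) (fun k => (B : ℂ) ^ b k) P = 0) (φ ψ : ℕ → ℂ) :
    pv φ ψ P = 0 := by
  classical
  have hsp := pv_split (B : ℤ) a b P
  have h0' : pv (fun k => (((B : ℤ)) : ℂ) ^ a k) (fun k => (((B : ℤ)) : ℂ) ^ b k) P = 0 := by
    simpa using h0
  rw [h0'] at hsp
  have hri : ∀ u v : ℤ, (0 : ℂ) = (u : ℂ) + (v : ℂ) * Complex.I → u = 0 ∧ v = 0 := by
    intro u v h
    have h1 := congrArg Complex.re h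
    have h2 := congrArg Complex.im h
    simp only [Complex.zero_re, Complex.zero_im, Complex.add_re, Complex.add_im, Complex.mul_re,
      Complex.mul_im, Complex.intCast_re, Complex.intCast_im, Complex.I_re, Complex.I_im, mul_zero,
      mul_one, add_zero, zero_add, sub_self] at h1 h2
    exact ⟨by exact_mod_cast h1.symm, by exact_mod_cast h2.symm⟩
  obtain ⟨hre, him⟩ := hri _ _ hsp
  -- the value of a code
  let V : ℕ → ℂ := fun N =>
    if h : ∃ m : Mo, VM n W m ∧ code a b m = N then mv φ ψ h.choose else 0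
  have hV' : ∀ m : Mo, VM n W m → V (code a b m) = mv φ ψ m := by
    intro m hm
    have h : ∃ m' : Mo, VM n W m' ∧ code a b m' = code a b m := ⟨m, hm, rfl⟩
    have h2 : V (code a b m) = mv φ ψ h.choose := dif_pos h
    rw [h2]
    exact hinj _ _ h.choose_spec.1 hm h.choose_spec.2 φ ψ
  have h1 := vanish (B : ℤ) _ V (lt_of_le_of_lt (sum_abs_fst_le P a b) (by exact_mod_cast hn)) hre
  have h2 := vanish (B : ℤ) _ V (lt_of_le_of_lt (sum_abs_snd_le P a b) (by exact_mod_cast hn)) him
  rw [List.map_map] at h1 h2
  have h3 : ∀ Q : Pol, VP n W Q → pv φ ψ Q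
      = (Q.map ((fun x : ℕ × ℤ => (x.2 : ℂ) * V x.1) ∘ fun x => (code a b x.1, x.2.1))).sum
      + (Q.map ((fun x : ℕ × ℤ => (x.2 : ℂ) * V x.1) ∘ fun x => (code a b x.1, x.2.2))).sum
        * Complex.I := by
    intro Q hQ
    induction Q with
    | nil => simp [pv_nil]
    | cons x Q ih =>
      rw [pv_cons, ih (fun y hy => hQ y (by simp [hy]))]
      simp only [List.map_cons, List.sum_cons, Function.comp]
      rw [hV' x.1 (hQ x (by simp)), gv]
      ring
  rw [h3 P hV, h1, h2]
  simp

/-! ## Injectivity of a code -/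

/-- enumeration of the exponent vectors -/
def en : List ℕ → ℕ → List (List ℕ)
  | [], _ => [[]]
  | (w :: ws), W =>
    (List.range (W / w + 1)).flatMap (fun e => (en ws (W - e * w)).map (fun l => e :: l))

/-- scalar product -/
def dot : List ℕ → List ℕ → ℕ
  | [], _ => 0
  | _, [] => 0
  | (x :: l), (y :: m) => x * y + dot l m

theorem mem_en : ∀ (ws : List ℕ) (_ : ∀ w ∈ ws, 0 < w) (W : ℕ) (e : List ℕ),
    e.length = ws.length → dot e ws ≤ W → e ∈ en ws W := by
  intro ws
  induction ws with
  | nil =>
    intro _ W e he _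
    have : e = [] := List.length_eq_zero_iff.1 he
    simp [en, this]
  | cons w ws ih =>
    intro hw W e he hd
    rcases e with _ | ⟨x, e⟩
    · simp at he
    · simp only [dot] at hd
      simp only [en, List.mem_flatMap, List.mem_range, List.mem_map]
      have hw0 : 0 < w := hw w (by simp)
      refine ⟨x, ?_, e, ?_, rfl⟩
      · have : x ≤ W / w := (Nat.le_div_iff_mul_le hw0).2 (by omega)
        omega
      · exact ih (fun v hv => hw v (by simp [hv])) _ e (by simpa using he) (by omega)

/-- all elements are different and not in the set with the indicator `M` (a check for the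
kernel) -/
def distM : List ℕ → ℕ → Bool
  | [], _ => true
  | (x :: l), M => (!(Nat.testBit M x)) && distM l (M ||| (1 <<< x))

theorem nodup_of_distM : ∀ (l : List ℕ) (M : ℕ), distM l M = true →
    l.Nodup ∧ ∀ x ∈ l, Nat.testBit M x = false := by
  intro l
  induction l with
  | nil =>
    intro M _
    exact ⟨List.nodup_nil, by simp⟩
  | cons x l ih =>
    intro M h
    simp only [distM, Bool.and_eq_true, Bool.not_eq_true'] at h
    obtain ⟨h1, h2⟩ := ih _ h.2
    have h3 : ∀ y ∈ l, Nat.testBit M y = false ∧ y ≠ x := by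
      intro y hy
      have h4 := h2 y hy
      rw [Nat.testBit_or, Bool.or_eq_false_iff] at h4
      refine ⟨h4.1, ?_⟩
      rintro rfl
      have h5 := h4.2
      rw [Nat.one_shiftLeft, Nat.testBit_two_pow_self] at h5
      exact Bool.false_ne_true h5.symm
    refine ⟨List.nodup_cons.2 ⟨fun hx => (h3 x hx).2 rfl, h1⟩, ?_⟩
    intro y hy
    rcases List.mem_cons.1 hy with h4 | h4
    · rw [h4]; exact h.1
    · exact (h3 y h4).1

/-- all elements are different -/
def dist (l : List ℕ) : Bool := distM l 0

theorem nodup_of_dist (l : List ℕ) (h : dist l = true) : l.Nodup := (nodup_of_distM l 0 h).1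

theorem prod_count {M : Type*} [CommMonoid M] (n : ℕ) (A : List ℕ) (hA : ∀ i ∈ A, i < n)
    (f : ℕ → M) : (A.map f).prod = ∏ k ∈ Finset.range n, f k ^ A.count k := by
  rw [Finset.prod_list_map_count]
  apply Finset.prod_subset
  · intro i hi
    exact Finset.mem_range.2 (hA i (List.mem_toFinset.1 hi))
  · intro i _ hi
    have : A.count i = 0 := List.count_eq_zero.2 (fun h => hi (List.mem_toFinset.2 h))
    rw [this, pow_zero]

theorem sum_count (n : ℕ) (A : List ℕ) (hA : ∀ i ∈ A, i < n)
    (f : ℕ → ℕ) : (A.map f).sum = ∑ k ∈ Finset.range n, A.count k * f k := by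
  rw [Finset.sum_list_map_count]
  simp only [smul_eq_mul]
  apply Finset.sum_subset
  · intro i hi
    exact Finset.mem_range.2 (hA i (List.mem_toFinset.1 hi))
  · intro i _ hi
    have : A.count i = 0 := List.count_eq_zero.2 (fun h => hi (List.mem_toFinset.2 h))
    rw [this, zero_mul]

theorem dot_append : ∀ (l l' m m' : List ℕ), l.length = m.length →
    dot (l ++ l') (m ++ m') = dot l m + dot l' m' := by
  intro l
  induction l with
  | nil =>
    intro l' m m' h
    have : m = [] := List.length_eq_zero_iff.1 h.symm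
    simp [this, dot]
  | cons x l ih =>
    intro l' m m' h
    rcases m with _ | ⟨y, m⟩
    · simp at h
    · simp only [List.cons_append, dot, ih l' m m' (by simpa using h)]
      ring

theorem dot_map_range (n : ℕ) (f g : ℕ → ℕ) :
    dot ((List.range n).map f) ((List.range n).map g) = ∑ k ∈ Finset.range n, f k * g k := by
  induction n with
  | zero => simp [dot]
  | succ n ih =>
    rw [List.range_succ, List.map_append, List.map_append, dot_append _ _ _ _ (by simp), ih,
      Finset.sum_range_succ]
    simp [dot]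

/-- the exponent vector of a monomial -/
def exv (n : ℕ) (m : Mo) : List ℕ :=
  (List.range n).map (fun k => m.1.count k) ++ (List.range n).map (fun k => m.2.count k)

/-- the weights of the variables -/
def wsl (n : ℕ) : List ℕ := (List.range n).map (fun k => k + 1) ++ (List.range n).map (fun k => k + 1)

/-- the codes of the variables -/
def csl (n : ℕ) (a b : ℕ → ℕ) : List ℕ := (List.range n).map a ++ (List.range n).map b

theorem inj_of_dist (n W : ℕ) (a b : ℕ → ℕ)
    (h : dist ((en (wsl n) W).map (fun e => dot e (csl n a b))) = true) : Inj n W a b := by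
  intro m m' hm hm' hc φ ψ
  have hnd := nodup_of_dist _ h
  have hcode : ∀ m : Mo, VM n W m → dot (exv n m) (csl n a b) = code a b m := by
    intro m hm
    rw [exv, csl, dot_append _ _ _ _ (by simp), dot_map_range, dot_map_range, code,
      sum_count n m.1 hm.1 a, sum_count n m.2 hm.2.1 b]
  have hmem : ∀ m : Mo, VM n W m → exv n m ∈ en (wsl n) W := by
    intro m hm
    refine mem_en _ ?_ _ _ ?_ ?_
    · intro w hw
      simp only [wsl, List.mem_append, List.mem_map] at hw
      rcases hw with ⟨k, _, rfl⟩ | ⟨k, _, rfl⟩ <;> omega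
    · simp [exv, wsl]
    · rw [exv, wsl, dot_append _ _ _ _ (by simp), dot_map_range, dot_map_range]
      have := hm.2.2
      rw [wl, wl, sum_count n m.1 hm.1, sum_count n m.2 hm.2.1] at this
      exact this
  have heq : exv n m = exv n m' := by
    refine List.inj_on_of_nodup_map hnd (hmem m hm) (hmem m' hm') ?_
    rw [hcode m hm, hcode m' hm', hc]
  have h2 := List.append_inj heq (by simp)
  have hcount1 : ∀ k < n, m.1.count k = m'.1.count k := by
    intro k hk
    exact List.map_inj_left.1 h2.1 k (List.mem_range.2 hk)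
  have hcount2 : ∀ k < n, m.2.count k = m'.2.count k := by
    intro k hk
    exact List.map_inj_left.1 h2.2 k (List.mem_range.2 hk)
  rw [mv, mv, prod_count n m.1 hm.1, prod_count n m.2 hm.2.1, prod_count n m'.1 hm'.1,
    prod_count n m'.2 hm'.2.1]
  congr 1
  · apply Finset.prod_congr rfl
    intro k hk
    rw [hcount1 k (Finset.mem_range.1 hk)]
  · apply Finset.prod_congr rfl
    intro k hk
    rw [hcount2 k (Finset.mem_range.1 hk)]

end Pool.Agent.Helper12.HR2
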