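import Mathlib
import Pool.Agent.Helper12.HR2.Kron
import Pool.Agent.Helper12.HR2.Core

/-!
MP_16b0ee, project HR2: soundness of the kernel check of a certificate.
-/

set_option autoImplicit false

open scoped ComplexConjugate

namespace Pool.Agent.Helper12.HR2

/-! ## The kernel functions and the polynomials -/

/-- the point of evaluation -/
noncomputable def kv (al : List ℕ) (k : ℕ) : ℂ := (2 : ℂ) ^ lk al k

theorem conj_kv (al : List ℕ) : (fun k => conj (kv al k)) = kv al := by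
  funext k
  have h2 : (2 : ℂ) = ((2 : ℝ) : ℂ) := by norm_num
  simp only [kv]
  rw [h2, map_pow, Complex.conj_ofReal]

theorem gv_kadd (x y : GZ) : gv (kadd x y) = gv x + gv y := gv_add x y

theorem gv_kmul (x y : GZ) : gv (kmul x y) = gv x * gv y := gv_mul x y

theorem gv_kcj (x : GZ) : gv (kcj x) = conj (gv x) := gv_conj x

theorem gv_ksc (n : ℤ) (x : GZ) : gv (ksc n x) = n * gv x := by
  change ((n * x.1 : ℤ) : ℂ) + ((n * x.2 : ℤ) : ℂ) * Complex.I = _
  rw [gv]
  push_cast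
  ring

theorem gv_zero : gv (0, 0) = 0 := by simp [gv]

theorem shf_cons (al : List ℕ) (a : ℕ) (A : List ℕ) : shf al (a :: A) = lk al a + shf al A := rfl

theorem prod_kv (al A : List ℕ) : (A.map (kv al)).prod = (2 : ℂ) ^ shf al A := by
  induction A with
  | nil => simp [shf]
  | cons a A ih =>
    rw [List.map_cons, List.prod_cons, ih, shf_cons, pow_add, kv]

theorem mv_kv (al be : List ℕ) (m : Mo) :
    mv (kv al) (kv be) m = (2 : ℂ) ^ (shf al m.1 + shf be m.2) := by
  rw [mv, prod_kv, prod_kv, pow_add]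

theorem wtk_eq (A : List ℕ) : wtk A = wl A := by
  induction A with
  | nil => rfl
  | cons a A ih =>
    change Nat.succ a + wtk A = _
    rw [ih, wl_cons]

/-- unpacking -/
def upl (w h : ℕ) : List Mo → ℕ → ℕ → Pol
  | [], _, _ => []
  | (m :: ms), x, y =>
    (m, (((x % w : ℕ) : ℤ) - h, ((y % w : ℕ) : ℤ) - h)) :: upl w h ms (x / w) (y / w)

theorem pk_cons (w e : ℕ) (es : List ℕ) (n : ℕ) :
    pk w (e :: es) n = (n % w) * 2 ^ e + pk w es (n / w) := by
  change (n % w) <<< e + pk w es (n / w) = _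
  rw [Nat.shiftLeft_eq]

theorem sm_cons (e : ℕ) (es : List ℕ) : sm (e :: es) = 2 ^ e + sm es := by
  change 1 <<< e + sm es = _
  rw [Nat.shiftLeft_eq, one_mul]

theorem gv_rowv (w h : ℕ) (es : List ℕ) (x y : ℕ) :
    gv (rowv w h es x y) = ((pk w es x : ℂ) - h * sm es) + ((pk w es y : ℂ) - h * sm es)
      * Complex.I := by
  have h1 : ∀ u : ℕ, Int.subNatNat (pk w es u) (h * sm es) = (pk w es u : ℤ) - (h * sm es : ℕ) :=
    fun u => Int.subNatNat_eq_coe
  change gv (Int.subNatNat (pk w es x) (h * sm es), Int.subNatNat (pk w es y) (h * sm es)) = _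
  rw [h1, h1, gv]
  push_cast
  ring

theorem pv_upl (w h : ℕ) (al be : List ℕ) : ∀ (ms : List Mo) (x y : ℕ),
    pv (kv al) (kv be) (upl w h ms x y)
      = gv (rowv w h (ms.map (fun m => shf al m.1 + shf be m.2)) x y) := by
  intro ms
  induction ms with
  | nil =>
    intro x y
    rw [gv_rowv]
    simp [upl, pv_nil, pk, sm]
  | cons m ms ih =>
    intro x y
    rw [upl, pv_cons, ih, gv_rowv, gv_rowv, mv_kv]
    simp only [List.map_cons]
    rw [pk_cons, pk_cons, sm_cons, gv]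
    simp only [Int.cast_sub, Int.cast_natCast, Nat.cast_add, Nat.cast_mul, Nat.cast_pow,
      Nat.cast_ofNat]
    ring

/-- multiplication by the weight of the second factor -/
def wgt (P : Pol) : Pol := P.map (fun t => (t.1, ((wl t.1.2 : ℤ) * t.2.1, (wl t.1.2 : ℤ) * t.2.2)))

theorem pkm_cons (w : ℕ) (e : ℕ × ℕ) (es : List (ℕ × ℕ)) (n : ℕ) :
    pkm w (e :: es) n = e.2 * (n % w) * 2 ^ e.1 + pkm w es (n / w) := by
  change (e.2 * (n % w)) <<< e.1 + pkm w es (n / w) = _
  rw [Nat.shiftLeft_eq]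

theorem smm_cons (e : ℕ × ℕ) (es : List (ℕ × ℕ)) : smm (e :: es) = e.2 * 2 ^ e.1 + smm es := by
  change e.2 <<< e.1 + smm es = _
  rw [Nat.shiftLeft_eq]

theorem gv_rowm (w h : ℕ) (es : List (ℕ × ℕ)) (x y : ℕ) :
    gv (rowm w h es x y) = ((pkm w es x : ℂ) - h * smm es) + ((pkm w es y : ℂ) - h * smm es)
      * Complex.I := by
  have h1 : ∀ u : ℕ, Int.subNatNat (pkm w es u) (h * smm es)
      = (pkm w es u : ℤ) - (h * smm es : ℕ) := fun u => Int.subNatNat_eq_coe
  change gv (Int.subNatNat (pkm w es x) (h * smm es), Int.subNatNat (pkm w es y) (h * smm es)) = _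
  rw [h1, h1, gv]
  push_cast
  ring

theorem pv_wgt_upl (w h : ℕ) (al be : List ℕ) : ∀ (Bs : List (List ℕ)) (x y : ℕ),
    pv (kv al) (kv be) (wgt (upl w h (Bs.map (fun B => ([], B))) x y))
      = gv (rowm w h (Bs.map (fun B => (shf be B, wl B))) x y) := by
  intro Bs
  induction Bs with
  | nil =>
    intro x y
    rw [gv_rowm]
    simp [upl, wgt, pv_nil, pkm, smm]
  | cons B Bs ih =>
    intro x y
    have h1 : wgt (upl w h ((B :: Bs).map (fun B => (([] : List ℕ), B))) x y)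
        = ((([] : List ℕ), B), ((wl B : ℤ) * (((x % w : ℕ) : ℤ) - h),
            (wl B : ℤ) * (((y % w : ℕ) : ℤ) - h)))
          :: wgt (upl w h (Bs.map (fun B => ([], B))) (x / w) (y / w)) := rfl
    rw [h1, pv_cons, ih, gv_rowm, gv_rowm, mv_kv]
    simp only [List.map_cons]
    rw [pkm_cons, pkm_cons, smm_cons, gv]
    have h2 : shf al [] = 0 := rfl
    simp only [h2, zero_add]
    simp only [Int.cast_sub, Int.cast_mul, Int.cast_natCast, Nat.cast_add, Nat.cast_mul,
      Nat.cast_pow, Nat.cast_ofNat]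
    ring

/-- the squares of the rows -/
def rwp (w h : ℕ) : List Mo → List (ℕ × ℕ) → Pol
  | _, [] => []
  | ms, (r :: rs) =>
    pmul (upl w h ms r.1 r.2) (pconj (upl w h ms r.1 r.2)) ++ rwp w h ms.tail rs

theorem pv_conj_kv (al be : List ℕ) (P : Pol) :
    pv (kv al) (kv be) (pconj P) = conj (pv (kv be) (kv al) P) := by
  rw [pv_conj, conj_kv, conj_kv]

theorem pv_rwp (w h : ℕ) (al be : List ℕ) : ∀ (rs : List (ℕ × ℕ)) (ms : List Mo),
    pv (kv al) (kv be) (rwp w h ms rs)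
      = gv (rws w h rs (ms.map (fun m => shf al m.1 + shf be m.2))
          (ms.map (fun m => shf be m.1 + shf al m.2))) := by
  intro rs
  induction rs with
  | nil =>
    intro ms
    change pv _ _ [] = gv (0, 0)
    rw [gv_zero, pv_nil]
  | cons r rs ih =>
    intro ms
    change pv _ _ (pmul (upl w h ms r.1 r.2) (pconj (upl w h ms r.1 r.2)) ++ rwp w h ms.tail rs)
      = gv (kadd (kmul (rowv w h _ r.1 r.2) (kcj (rowv w h _ r.1 r.2)))
        (rws w h rs (List.tail _) (List.tail _)))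
    rw [pv_append, pv_mul, pv_conj_kv, pv_upl, pv_upl, ih, gv_kadd, gv_kmul, gv_kcj,
      List.map_tail, List.map_tail]

/-! ## The derivative -/

/-- derivative of a variable -/
def dpol : ℕ → Pol
  | 0 => [(([1], []), (3, 0)), (([0, 0], []), (-1, 0))]
  | (k + 1) => (([k + 2], []), ((k : ℤ) + 4, 0)) ::
      (List.range k).map (fun i => (([i + 1, k - i], []), (1, 0)))

/-- derivative of a monomial -/
def Dpol : List ℕ → Pol
  | [] => []
  | (a :: A) => pmul (dpol a) [((A, []), (1, 0))] ++ pmul [(([a], []), (1, 0))] (Dpol A)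

/-- derivative of a variable -/
noncomputable def dvl (c : ℕ → ℂ) (n : ℕ) : ℂ :=
  if n = 0 then 3 * c 1 - c 0 ^ 2
  else ((n : ℂ) + 3) * c (n + 1) + ∑ i ∈ Finset.range (n - 1), c (i + 1) * c (n - 1 - i)

/-- derivative of a monomial -/
noncomputable def Dvl (c : ℕ → ℂ) : List ℕ → ℂ
  | [] => 0
  | a :: A => dvl c a * (A.map c).prod + c a * Dvl c A

theorem pv_map_range (φ ψ : ℕ → ℂ) (k : ℕ) (f : ℕ → Mo) :
    pv φ ψ ((List.range k).map (fun i => (f i, ((1, 0) : GZ))))
      = ∑ i ∈ Finset.range k, mv φ ψ (f i) := by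
  rw [pv, List.map_map, Finset.sum_range]
  have : ∀ n : ℕ, ((List.range n).map ((fun x : Mo × GZ => gv x.2 * mv φ ψ x.1) ∘
      fun i => (f i, ((1, 0) : GZ)))).sum = ∑ i ∈ Finset.range n, mv φ ψ (f i) := by
    intro n
    induction n with
    | zero => simp
    | succ n ih =>
      rw [List.range_succ, List.map_append, List.sum_append, ih, Finset.sum_range_succ]
      simp [gv]
  rw [this, Finset.sum_range]

theorem pv_dpol (φ ψ : ℕ → ℂ) (n : ℕ) : pv φ ψ (dpol n) = dvl φ n := by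
  rcases n with _ | k
  · simp only [dpol, pv_cons, pv_nil, dvl, gv, mv]
    simp
    ring
  · rw [dpol, pv_cons, pv_map_range, dvl, if_neg (Nat.succ_ne_zero k)]
    simp only [mv, gv, List.map_cons, List.map_nil, List.prod_cons, List.prod_nil, mul_one]
    simp only [Nat.add_sub_cancel]
    push_cast
    ring

theorem pv_Dpol (φ ψ : ℕ → ℂ) (A : List ℕ) : pv φ ψ (Dpol A) = Dvl φ A := by
  induction A with
  | nil => rfl
  | cons a A ih =>
    rw [Dpol, pv_append, pv_mul, pv_mul, ih, pv_dpol, pv_cons, pv_cons, pv_nil, Dvl]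
    simp [gv, mv]

theorem dsum_eq (al : List ℕ) (k j : ℕ) :
    ((dsum al k j : ℕ) : ℂ) = ∑ i ∈ Finset.range j, kv al (i + 1) * kv al (k - i) := by
  induction j with
  | zero => simp [dsum]
  | succ j ih =>
    have : dsum al k (j + 1) = dsum al k j + 1 <<< (lk al (j + 1) + lk al (k - j)) := rfl
    rw [this, Finset.sum_range_succ, ← ih, Nat.shiftLeft_eq, kv, kv]
    push_cast
    rw [pow_add]
    ring

theorem dk_eq (al : List ℕ) (n : ℕ) : ((dk al n : ℤ) : ℂ) = dvl (kv al) n := by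
  rcases n with _ | k
  · have h0 : dk al 0 = Int.subNatNat (3 <<< lk al 1) (1 <<< (2 * lk al 0)) := rfl
    rw [h0, Int.subNatNat_eq_coe, Nat.shiftLeft_eq, Nat.shiftLeft_eq, dvl, if_pos rfl, kv, kv]
    push_cast
    rw [pow_mul']
    ring
  · have h0 : dk al (k + 1) = (((k + 4) <<< lk al (k + 2) + dsum al k k : ℕ) : ℤ) := rfl
    rw [h0, Nat.shiftLeft_eq, dvl, if_neg (Nat.succ_ne_zero k)]
    push_cast
    rw [dsum_eq, kv]
    ring

theorem Dk_eq (al A : List ℕ) : ((Dk al A : ℤ) : ℂ) = Dvl (kv al) A := by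
  induction A with
  | nil =>
    change ((0 : ℤ) : ℂ) = _
    simp [Dvl]
  | cons a A ih =>
    have h0 : Dk al (a :: A) = dk al a * ((1 <<< shf al A : ℕ) : ℤ)
        + ((1 <<< lk al a : ℕ) : ℤ) * Dk al A := rfl
    rw [h0, Nat.shiftLeft_eq, Nat.shiftLeft_eq, Dvl, prod_kv, ← ih, ← dk_eq, kv]
    push_cast
    ring

/-! ## The blocks -/

/-- the first factor -/
def EP (P : Par) (A : List ℕ) : Pol :=
  pmul [(([], []), (((P.bd * P.sr : ℕ) : ℤ), 0))] (Dpol A) ++
    [((0 :: A, []), (-(2 * P.bd * P.p), -(2 * P.bd * P.q))),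
      ((A, []), (-((P.sr * (P.bn + P.bd * wl A) : ℕ) : ℤ), 0))]

theorem gv_EK (P : Par) (al : List ℕ) (A : List ℕ) (ψ : ℕ → ℂ) :
    gv (EK P al A) = pv (kv al) ψ (EP P A) := by
  have h0 : EK P al A = (((P.bd * P.sr : ℕ) : ℤ) * Dk al A
      - ((2 * P.bd : ℕ) : ℤ) * P.p * ((1 <<< (lk al 0 + shf al A) : ℕ) : ℤ)
      - (((P.sr * (P.bn + P.bd * wtk A)) <<< shf al A : ℕ) : ℤ),
      -(((2 * P.bd : ℕ) : ℤ) * P.q * ((1 <<< (lk al 0 + shf al A) : ℕ) : ℤ))) := rfl
  rw [h0, EP, pv_append, pv_mul, pv_cons, pv_cons, pv_cons, pv_nil, pv_Dpol, ← Dk_eq,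
    wtk_eq, Nat.shiftLeft_eq, Nat.shiftLeft_eq]
  simp only [mv, gv, List.map_nil, List.map_cons, List.prod_cons, List.prod_nil, prod_kv, kv]
  push_cast
  rw [pow_add]
  ring

/-- a block -/
def TP (P : Par) (w h : ℕ) (Bs : List (List ℕ)) (g : List ℕ × ℕ × ℕ) : Pol :=
  pmul (EP P g.1) (upl w h (Bs.map (fun B => ([], B))) g.2.1 g.2.2) ++
    pmul [((g.1, []), (-((P.sr * P.bd : ℕ) : ℤ), 0))]
      (wgt (upl w h (Bs.map (fun B => ([], B))) g.2.1 g.2.2))

theorem gv_tA (P : Par) (w h : ℕ) (al be : List ℕ) (Bs : List (List ℕ)) (g : List ℕ × ℕ × ℕ) :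
    gv (tA P w h al (Bs.map (fun B => shf be B)) (Bs.map (fun B => (shf be B, wl B))) g)
      = pv (kv al) (kv be) (TP P w h Bs g) := by
  rw [TP, pv_append, pv_mul, pv_mul, pv_upl, pv_wgt_upl, ← gv_EK P al g.1 (kv be)]
  have h0 : tA P w h al (Bs.map (fun B => shf be B)) (Bs.map (fun B => (shf be B, wl B))) g
      = kadd (kmul (EK P al g.1) (rowv w h (Bs.map (fun B => shf be B)) g.2.1 g.2.2))
        (ksc (-(((P.sr * P.bd) <<< shf al g.1 : ℕ) : ℤ))
          (rowm w h (Bs.map (fun B => (shf be B, wl B))) g.2.1 g.2.2)) := rfl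
  rw [h0, gv_kadd, gv_kmul, gv_ksc, pv_cons, pv_nil, Nat.shiftLeft_eq, List.map_map]
  have h1 : ((fun m : Mo => shf al m.1 + shf be m.2) ∘ fun B : List ℕ => (([] : List ℕ), B))
      = fun B => shf be B := by
    funext B
    change 0 + shf be B = _
    rw [zero_add]
  rw [h1]
  simp only [mv, gv, List.map_nil, List.prod_nil, prod_kv]
  push_cast
  ring

/-- the relation polynomials of the decoded multipliers -/
noncomputable def rel (s b : ℂ) (c : ℕ → ℂ) (P : Pol) : ℂ :=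
  (P.map (fun t => gv t.2 * (((-2 * s * c 0 * (t.1.1.map c).prod + Dvl c t.1.1)
    - (b + wl t.1.1 + wl t.1.2) * (t.1.1.map c).prod) * conj ((t.1.2.map c).prod)))).sum

theorem rel_nil (s b : ℂ) (c : ℕ → ℂ) : rel s b c [] = 0 := rfl

theorem rel_cons (s b : ℂ) (c : ℕ → ℂ) (t : Mo × GZ) (P : Pol) :
    rel s b c (t :: P) = gv t.2 * (((-2 * s * c 0 * (t.1.1.map c).prod + Dvl c t.1.1)
    - (b + wl t.1.1 + wl t.1.2) * (t.1.1.map c).prod) * conj ((t.1.2.map c).prod))
      + rel s b c P := by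
  simp [rel]

theorem rel_append (s b : ℂ) (c : ℕ → ℂ) (P Q : Pol) :
    rel s b c (P ++ Q) = rel s b c P + rel s b c Q := by
  simp [rel]

/-- the decoded multipliers of a block -/
def dec (w h : ℕ) (Bs : List (List ℕ)) (g : List ℕ × ℕ × ℕ) : Pol :=
  upl w h (Bs.map (fun B => (g.1, B))) g.2.1 g.2.2

theorem pv_EP (P : Par) (hs : P.sr ≠ 0) (hb : P.bd ≠ 0) (c ψ : ℕ → ℂ) (A : List ℕ) :
    pv c ψ (EP P A) = (P.sr * P.bd : ℂ) * ((-2 * (((P.p : ℂ) + P.q * Complex.I) / P.sr) * c 0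
      * (A.map c).prod + Dvl c A) - ((P.bn : ℂ) / P.bd + wl A) * (A.map c).prod) := by
  have h1 : (P.sr : ℂ) ≠ 0 := Nat.cast_ne_zero.2 hs
  have h2 : (P.bd : ℂ) ≠ 0 := Nat.cast_ne_zero.2 hb
  rw [EP, pv_append, pv_mul, pv_cons, pv_cons, pv_cons, pv_nil, pv_Dpol]
  simp only [mv, gv, List.map_nil, List.map_cons, List.prod_cons, List.prod_nil]
  push_cast
  field_simp
  ring

theorem pv_TP (P : Par) (hs : P.sr ≠ 0) (hb : P.bd ≠ 0) (w h : ℕ) (c : ℕ → ℂ)
    (A : List ℕ) : ∀ (Bs : List (List ℕ)) (x y : ℕ),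
    pv c (fun k => conj (c k)) (TP P w h Bs (A, x, y))
      = (P.sr * P.bd : ℂ) * rel (((P.p : ℂ) + P.q * Complex.I) / P.sr) ((P.bn : ℂ) / P.bd) c
        (dec w h Bs (A, x, y)) := by
  intro Bs x y
  rw [TP, pv_append, pv_mul, pv_mul, pv_EP P hs hb]
  simp only
  induction Bs generalizing x y with
  | nil => simp [dec, upl, wgt, pv_nil, rel_nil]
  | cons B Bs ih =>
    have ih' := ih (x / w) (y / w)
    have e1 : upl w h ((B :: Bs).map (fun B => (([] : List ℕ), B))) x y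
        = ((([] : List ℕ), B), ((((x % w : ℕ) : ℤ) - h), (((y % w : ℕ) : ℤ) - h)))
          :: upl w h (Bs.map (fun B => ([], B))) (x / w) (y / w) := rfl
    have e2 : wgt (upl w h ((B :: Bs).map (fun B => (([] : List ℕ), B))) x y)
        = ((([] : List ℕ), B), ((wl B : ℤ) * (((x % w : ℕ) : ℤ) - h),
            (wl B : ℤ) * (((y % w : ℕ) : ℤ) - h)))
          :: wgt (upl w h (Bs.map (fun B => ([], B))) (x / w) (y / w)) := rfl
    have e3 : dec w h (B :: Bs) (A, x, y)
        = ((A, B), ((((x % w : ℕ) : ℤ) - h), (((y % w : ℕ) : ℤ) - h)))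
          :: dec w h Bs (A, x / w, y / w) := rfl
    rw [e2, e1, e3, pv_cons, pv_cons, rel_cons]
    rw [pv_cons, pv_nil] at ih' ⊢
    have e4 : mv c (fun k => conj (c k)) ([], B) = conj ((B.map c).prod) := by
      simp only [mv, List.map_nil, List.prod_nil, one_mul]
      exact prod_conj B c
    have e5 : mv c (fun k => conj (c k)) (A, []) = (A.map c).prod := by
      simp [mv]
    rw [e5] at ih' ⊢
    rw [e4]
    simp only [gv] at ih' ⊢
    push_cast at ih' ⊢
    linear_combination ih'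

/-! ## The groups -/

/-- a group of blocks -/
def GP (P : Par) (w h : ℕ) (Bs : List (List ℕ)) : List (List ℕ × ℕ × ℕ) → Pol
  | [] => []
  | (g :: G) => TP P w h Bs g ++ GP P w h Bs G

/-- all blocks -/
def GsP (P : Par) (w h : ℕ) : List (List (List ℕ × ℕ × ℕ)) → List (List (List ℕ)) → Pol
  | [], _ => []
  | (_ :: _), [] => []
  | (G :: Gs), (Bs :: Bt) => GP P w h Bs G ++ GsP P w h Gs Bt

/-- the decoded multipliers of a group -/
def decG (w h : ℕ) (Bs : List (List ℕ)) : List (List ℕ × ℕ × ℕ) → Pol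
  | [] => []
  | (g :: G) => dec w h Bs g ++ decG w h Bs G

/-- the decoded multipliers -/
def decGs (w h : ℕ) : List (List (List ℕ × ℕ × ℕ)) → List (List (List ℕ)) → Pol
  | [], _ => []
  | (_ :: _), [] => []
  | (G :: Gs), (Bs :: Bt) => decG w h Bs G ++ decGs w h Gs Bt

/-- the table of the shifts -/
noncomputable def tbl (be : List ℕ) (Bt : List (List (List ℕ))) : List (List ℕ × List (ℕ × ℕ)) :=
  Bt.map (fun Bs => (Bs.map (fun B => shf be B), Bs.map (fun B => (shf be B, wl B))))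

theorem gv_tG (P : Par) (w h : ℕ) (al be : List ℕ) (Bs : List (List ℕ))
    (G : List (List ℕ × ℕ × ℕ)) :
    gv (tG P w h al (Bs.map (fun B => shf be B)) (Bs.map (fun B => (shf be B, wl B))) G)
      = pv (kv al) (kv be) (GP P w h Bs G) := by
  induction G with
  | nil =>
    change gv (0, 0) = pv _ _ []
    rw [gv_zero, pv_nil]
  | cons g G ih =>
    change gv (kadd (tA P w h al _ _ g) (tG P w h al _ _ G)) = _
    rw [gv_kadd, gv_tA, ih, GP, pv_append]

theorem gv_tGs (P : Par) (w h : ℕ) (al be : List ℕ) : ∀ (Gs : List (List (List ℕ × ℕ × ℕ)))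
    (Bt : List (List (List ℕ))),
    gv (tGs P w h al Gs (tbl be Bt)) = pv (kv al) (kv be) (GsP P w h Gs Bt) := by
  intro Gs
  induction Gs with
  | nil =>
    intro Bt
    change gv (0, 0) = pv _ _ []
    rw [gv_zero, pv_nil]
  | cons G Gs ih =>
    intro Bt
    rcases Bt with _ | ⟨Bs, Bt⟩
    · change gv (0, 0) = pv _ _ []
      rw [gv_zero, pv_nil]
    · change gv (kadd (tG P w h al _ _ G) (tGs P w h al Gs (tbl be Bt))) = _
      rw [gv_kadd, gv_tG, ih, GsP, pv_append]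

theorem pv_GP (P : Par) (hs : P.sr ≠ 0) (hb : P.bd ≠ 0) (w h : ℕ) (c : ℕ → ℂ)
    (Bs : List (List ℕ)) (G : List (List ℕ × ℕ × ℕ)) :
    pv c (fun k => conj (c k)) (GP P w h Bs G)
      = (P.sr * P.bd : ℂ) * rel (((P.p : ℂ) + P.q * Complex.I) / P.sr) ((P.bn : ℂ) / P.bd) c
        (decG w h Bs G) := by
  induction G with
  | nil => simp [GP, decG, pv_nil, rel_nil]
  | cons g G ih =>
    obtain ⟨A, x, y⟩ := g
    rw [GP, decG, pv_append, rel_append, ih, pv_TP P hs hb]
    ring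

theorem pv_GsP (P : Par) (hs : P.sr ≠ 0) (hb : P.bd ≠ 0) (w h : ℕ) (c : ℕ → ℂ) :
    ∀ (Gs : List (List (List ℕ × ℕ × ℕ))) (Bt : List (List (List ℕ))),
    pv c (fun k => conj (c k)) (GsP P w h Gs Bt)
      = (P.sr * P.bd : ℂ) * rel (((P.p : ℂ) + P.q * Complex.I) / P.sr) ((P.bn : ℂ) / P.bd) c
        (decGs w h Gs Bt) := by
  intro Gs
  induction Gs with
  | nil =>
    intro Bt
    simp [GsP, decGs, pv_nil, rel_nil]
  | cons G Gs ih =>
    intro Bt
    rcases Bt with _ | ⟨Bs, Bt⟩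
    · simp [GsP, decGs, pv_nil, rel_nil]
    · rw [GsP, decGs, pv_append, rel_append, ih, pv_GP P hs hb]
      ring

theorem gv_evk (al be : List ℕ) (Q : Pol) : gv (evk al be Q) = pv (kv al) (kv be) Q := by
  induction Q with
  | nil =>
    change gv (0, 0) = pv _ _ []
    rw [gv_zero, pv_nil]
  | cons x Q ih =>
    change gv (kadd (ksc ((1 <<< (shf al x.1.1 + shf be x.1.2) : ℕ) : ℤ) x.2) (evk al be Q)) = _
    rw [gv_kadd, gv_ksc, ih, pv_cons, mv_kv, Nat.shiftLeft_eq]
    push_cast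
    ring

/-! ## The identity -/

/-- constant polynomial -/
def cst (z : ℤ) : Pol := [(([], []), (z, 0))]

theorem pv_cst (φ ψ : ℕ → ℂ) (z : ℤ) : pv φ ψ (cst z) = z := by
  simp [cst, pv, mv, gv]

/-- the left side -/
def TPol (C : Cert) (Bt : List (List (List ℕ))) : Pol :=
  (cst ((C.P.sr * C.P.bd * C.eta : ℕ) : ℤ) ++ pmul (cst ((C.P.sr * C.P.bd : ℕ) : ℤ)) C.qf)
    ++ pmul (cst C.mL) (GsP C.P C.wL C.hL C.G Bt)

theorem gv_TK (C : Cert) (al be : List ℕ) (Bt : List (List (List ℕ))) :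
    gv (TK C al be (tbl be Bt)) = pv (kv al) (kv be) (TPol C Bt) := by
  have h0 : TK C al be (tbl be Bt) = kadd (kadd (((C.P.sr * C.P.bd * C.eta : ℕ) : ℤ), 0)
    (ksc ((C.P.sr * C.P.bd : ℕ) : ℤ) (evk al be C.qf)))
    (ksc (C.mL : ℤ) (tGs C.P C.wL C.hL al C.G (tbl be Bt))) := rfl
  rw [h0, gv_kadd, gv_kadd, gv_ksc, gv_ksc, gv_tGs, gv_evk, TPol, pv_append, pv_append, pv_mul,
    pv_mul, pv_cst, pv_cst, pv_cst, gv]
  push_cast
  ring

/-- the product of a basis monomial and a conjugate basis monomial -/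
def prd (p : Mo × Mo) : Mo := (p.1.1 ++ p.2.2, p.1.2 ++ p.2.1)

/-- the sum of the squares of the moduli -/
def sqp (bas : List Mo) : Pol := bas.map (fun v => (prd (v, v), (1, 0)))

/-- the whole identity -/
def FPol (C : Cert) (bas : List Mo) (prs : List (Mo × Mo)) (Bt : List (List (List ℕ))) : Pol :=
  (pmul (cst C.m1) (TPol C Bt ++ pconj (TPol C Bt)) ++
    pmul (cst C.m2) (rwp C.wU C.hU bas C.U)) ++
  (pmul (cst C.eps) (sqp bas) ++
    (upl C.wR C.hR (prs.map prd) C.rx C.ry ++ pconj (upl C.wR C.hR (prs.map prd) C.rx C.ry)))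

/-- correctness of the tables -/
structure TabOK (t : Tab) (bas : List Mo) (prs : List (Mo × Mo)) (Bt : List (List (List ℕ)))
    (n W K : ℕ) : Prop where
  ba : t.ba = bas.map (fun m => shf t.a m.1 + shf t.b m.2)
  bb : t.bb = bas.map (fun m => shf t.b m.1 + shf t.a m.2)
  bc : t.bc = (bas.map (fun v => prd (v, v))).map (fun m => shf t.a m.1 + shf t.b m.2)
  ra : t.ra = (prs.map prd).map (fun m => shf t.a m.1 + shf t.b m.2)
  rb : t.rb = (prs.map prd).map (fun m => shf t.b m.1 + shf t.a m.2)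
  ta : t.ta = tbl t.b Bt
  tb : t.tb = tbl t.a Bt
  inj : ∃ a' b' : ℕ → ℕ, (∀ k, lk t.a k = K * a' k) ∧ (∀ k, lk t.b k = K * b' k) ∧
    Inj (n + 1) (W + 1) a' b'
  basV : ∃ V, 2 * V ≤ W + 1 ∧ ∀ m ∈ bas, VM (n + 1) V m
  prsM : ∀ p ∈ prs, p.1 ∈ bas ∧ p.2 ∈ bas
  BtV : ∀ Bs ∈ Bt, ∀ B ∈ Bs, ∀ i ∈ B, i < n + 1

theorem gv_sm (al be : List ℕ) (ms : List Mo) :
    ((sm (ms.map (fun m => shf al m.1 + shf be m.2)) : ℕ) : ℂ)
      = pv (kv al) (kv be) (ms.map (fun m => (m, ((1, 0) : GZ)))) := by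
  induction ms with
  | nil => simp [sm, pv_nil]
  | cons m ms ih =>
    simp only [List.map_cons]
    rw [sm_cons, pv_cons, ← ih, mv_kv]
    simp [gv]

theorem gv_FK {t : Tab} {bas : List Mo} {prs : List (Mo × Mo)} {Bt : List (List (List ℕ))}
    {n W K : ℕ} (ht : TabOK t bas prs Bt n W K) (C : Cert) :
    gv (FK t C) = pv (kv t.a) (kv t.b) (FPol C bas prs Bt) := by
  have h0 : FK t C = kadd (kadd (ksc (C.m1 : ℤ) (kadd (TK C t.a t.b t.ta)
      (kcj (TK C t.b t.a t.tb)))) (ksc (C.m2 : ℤ) (rws C.wU C.hU C.U t.ba t.bb)))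
    (kadd (((C.eps * sm t.bc : ℕ) : ℤ), 0)
      (kadd (rowv C.wR C.hR t.ra C.rx C.ry) (kcj (rowv C.wR C.hR t.rb C.rx C.ry)))) := rfl
  rw [h0, ht.ta, ht.tb, ht.ba, ht.bb, ht.ra, ht.rb]
  simp only [gv_kadd, gv_ksc, gv_kcj]
  rw [gv_TK, gv_TK, ← pv_rwp, ← pv_upl, ← pv_upl]
  rw [FPol]
  simp only [pv_append, pv_mul, pv_cst, pv_conj_kv]
  have h1 : gv (((C.eps * sm t.bc : ℕ) : ℤ), 0) = (C.eps : ℂ) * pv (kv t.a) (kv t.b) (sqp bas) := by
    have h2 : sqp bas = (bas.map (fun v => prd (v, v))).map (fun m => (m, ((1, 0) : GZ))) := by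
      rw [List.map_map]
      rfl
    rw [h2, ← gv_sm, ← ht.bc, gv]
    push_cast
    ring
  rw [h1]
  push_cast
  ring

/-! ## Norms -/

theorem len_eq {α : Type} (l : List α) : len l = l.length := by
  induction l with
  | nil => rfl
  | cons x l ih =>
    change Nat.succ (len l) = _
    rw [ih, List.length_cons]

theorem nrk_eq (Q : Pol) : nrk Q = nrm Q := by
  induction Q with
  | nil => rfl
  | cons x Q ih =>
    change (x.2.1.natAbs + x.2.2.natAbs) + nrk Q = _
    rw [ih, nrm_cons]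
    rfl

theorem nrm_upl (w h : ℕ) (hw : h < w) : ∀ (ms : List Mo) (x y : ℕ),
    nrm (upl w h ms x y) ≤ 2 * ms.length * w := by
  intro ms
  induction ms with
  | nil => intro x y; simp [upl, nrm_nil]
  | cons m ms ih =>
    intro x y
    rw [upl, nrm_cons, List.length_cons]
    have h1 := ih (x / w) (y / w)
    have h2 : ∀ u : ℕ, ((((u % w : ℕ) : ℤ) - h).natAbs) ≤ w := by
      intro u
      have h3 : u % w < w := Nat.mod_lt _ (by omega)
      omega
    have h4 := h2 x
    have h5 := h2 y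
    simp only [gn]
    nlinarith

theorem nrm_wgt (V w h : ℕ) (hw : h < w) : ∀ (Bs : List (List ℕ)) (x y : ℕ),
    (∀ B ∈ Bs, wl B ≤ V) →
    nrm (wgt (upl w h (Bs.map (fun B => ([], B))) x y)) ≤ V * (2 * Bs.length * w) := by
  intro Bs
  induction Bs with
  | nil => intro x y _; simp [upl, wgt, nrm_nil]
  | cons B Bs ih =>
    intro x y hV
    have e2 : wgt (upl w h ((B :: Bs).map (fun B => (([] : List ℕ), B))) x y)
        = ((([] : List ℕ), B), ((wl B : ℤ) * (((x % w : ℕ) : ℤ) - h),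
            (wl B : ℤ) * (((y % w : ℕ) : ℤ) - h)))
          :: wgt (upl w h (Bs.map (fun B => ([], B))) (x / w) (y / w)) := rfl
    rw [e2, nrm_cons, List.length_cons]
    have h1 := ih (x / w) (y / w) (fun C hC => hV C (by simp [hC]))
    have h2 : ∀ u : ℕ, ((((u % w : ℕ) : ℤ) - h).natAbs) ≤ w := by
      intro u
      have h3 : u % w < w := Nat.mod_lt _ (by omega)
      omega
    have h4 := h2 x
    have h5 := h2 y
    have h6 := hV B (by simp)
    simp only [gn, Int.natAbs_mul, Int.natAbs_natCast]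
    have h7 : wl B * ((((x % w : ℕ) : ℤ) - h).natAbs) ≤ V * w := Nat.mul_le_mul h6 h4
    have h8 : wl B * ((((y % w : ℕ) : ℤ) - h).natAbs) ≤ V * w := Nat.mul_le_mul h6 h5
    nlinarith

theorem nrm_dpol (k : ℕ) : nrm (dpol k) ≤ 4 * (k + 1) := by
  rcases k with _ | k
  · simp [dpol, nrm, gn]
  · have h1 : nrm (dpol (k + 1)) = ((k : ℤ) + 4).natAbs + k := by
      rw [dpol, nrm_cons]
      have : ∀ j : ℕ, nrm ((List.range j).map (fun i => ((([i + 1, k - i] : List ℕ),
          ([] : List ℕ)), ((1, 0) : GZ)))) = j := by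
        intro j
        induction j with
        | zero => simp [nrm_nil]
        | succ j ih =>
          rw [List.range_succ, List.map_append, nrm_append, ih]
          simp [nrm, gn]
      rw [this]
      simp [gn]
    rw [h1]
    omega

theorem nrm_Dpol (A : List ℕ) : nrm (Dpol A) ≤ 4 * wl A := by
  induction A with
  | nil => simp [Dpol, nrm_nil, wl_nil]
  | cons a A ih =>
    rw [Dpol, nrm_append, wl_cons]
    have h1 := nrm_mul (dpol a) [((A, []), (1, 0))]
    have h2 := nrm_mul [((([a] : List ℕ), ([] : List ℕ)), ((1, 0) : GZ))] (Dpol A)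
    have h3 : nrm [((A, ([] : List ℕ)), ((1, 0) : GZ))] = 1 := by simp [nrm, gn]
    have h4 : nrm [((([a] : List ℕ), ([] : List ℕ)), ((1, 0) : GZ))] = 1 := by simp [nrm, gn]
    rw [h3] at h1
    rw [h4] at h2
    have h5 := nrm_dpol a
    omega

theorem nrm_EP (P : Par) (A : List ℕ) (W : ℕ) (hA : wl A ≤ W) :
    nrm (EP P A) ≤ P.bd * P.sr * (4 * W) + 2 * P.bd * (P.p.natAbs + P.q.natAbs)
      + P.sr * (P.bn + P.bd * W) := by
  rw [EP, nrm_append]
  have h1 := nrm_mul [((([] : List ℕ), ([] : List ℕ)), ((((P.bd * P.sr : ℕ) : ℤ), 0) : GZ))]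
    (Dpol A)
  have h2 : nrm [((([] : List ℕ), ([] : List ℕ)), ((((P.bd * P.sr : ℕ) : ℤ), 0) : GZ))]
      = P.bd * P.sr := by
    simp only [nrm, gn, List.map_cons, List.map_nil, List.sum_cons, List.sum_nil,
      Int.natAbs_natCast, Int.natAbs_zero, add_zero]
  rw [h2] at h1
  have h3 : P.bd * P.sr * nrm (Dpol A) ≤ P.bd * P.sr * (4 * W) :=
    Nat.mul_le_mul_left _ ((nrm_Dpol A).trans (by omega))
  have h4 : nrm [((0 :: A, ([] : List ℕ)), ((-(2 * P.bd * P.p), -(2 * P.bd * P.q)) : GZ)),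
      ((A, []), (-((P.sr * (P.bn + P.bd * wl A) : ℕ) : ℤ), 0))]
      = 2 * P.bd * (P.p.natAbs + P.q.natAbs) + P.sr * (P.bn + P.bd * wl A) := by
    simp only [nrm, gn, List.map_cons, List.map_nil, List.sum_cons, List.sum_nil,
      Int.natAbs_natCast, Int.natAbs_zero, add_zero, Int.natAbs_neg, Int.natAbs_mul]
    have h20 : (2 : ℤ).natAbs = 2 := rfl
    rw [h20]
    ring
  rw [h4]
  have h5 : P.sr * (P.bn + P.bd * wl A) ≤ P.sr * (P.bn + P.bd * W) :=
    Nat.mul_le_mul_left _ (Nat.add_le_add_left (Nat.mul_le_mul_left _ hA) _)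
  omega

theorem nrm_TP (P : Par) (w h : ℕ) (hw : h < w) (W : ℕ) (Bs : List (List ℕ))
    (hB : ∀ B ∈ Bs, wl B ≤ W) (g : List ℕ × ℕ × ℕ) (hA : wl g.1 ≤ W) :
    nrm (TP P w h Bs g) ≤ (P.bd * P.sr * (5 * W) + 2 * P.bd * (P.p.natAbs + P.q.natAbs)
      + P.sr * (P.bn + P.bd * W)) * (2 * Bs.length * w) := by
  rw [TP, nrm_append]
  have h1 := nrm_mul (EP P g.1) (upl w h (Bs.map (fun B => ([], B))) g.2.1 g.2.2)
  have h2 := nrm_upl w h hw (Bs.map (fun B => (([] : List ℕ), B))) g.2.1 g.2.2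
  rw [List.length_map] at h2
  have h3 := nrm_EP P g.1 W hA
  have h4 := nrm_mul [((g.1, ([] : List ℕ)), ((-((P.sr * P.bd : ℕ) : ℤ), 0) : GZ))]
      (wgt (upl w h (Bs.map (fun B => ([], B))) g.2.1 g.2.2))
  have h5 := nrm_wgt W w h hw Bs g.2.1 g.2.2 hB
  have h6 : nrm [((g.1, ([] : List ℕ)), ((-((P.sr * P.bd : ℕ) : ℤ), 0) : GZ))]
      = P.sr * P.bd := by
    simp only [nrm, gn, List.map_cons, List.map_nil, List.sum_cons, List.sum_nil,
      Int.natAbs_natCast, Int.natAbs_zero, add_zero, Int.natAbs_neg]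
  rw [h6] at h4
  calc _ ≤ (P.bd * P.sr * (4 * W) + 2 * P.bd * (P.p.natAbs + P.q.natAbs)
      + P.sr * (P.bn + P.bd * W)) * (2 * Bs.length * w)
      + P.sr * P.bd * (W * (2 * Bs.length * w)) :=
        Nat.add_le_add (h1.trans (Nat.mul_le_mul h3 h2)) (h4.trans (Nat.mul_le_mul_left _ h5))
    _ = _ := by ring

theorem nrm_cst (z : ℤ) : nrm (cst z) = z.natAbs := by
  simp only [cst, nrm, gn, List.map_cons, List.map_nil, List.sum_cons, List.sum_nil,
    Int.natAbs_zero, add_zero]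

/-! ## Validity -/

theorem VP_upl (n V w h : ℕ) : ∀ (ms : List Mo) (x y : ℕ), (∀ m ∈ ms, VM n V m) →
    VP n V (upl w h ms x y) := by
  intro ms
  induction ms with
  | nil => intro x y _; exact VP_nil _ _
  | cons m ms ih =>
    intro x y hm
    exact VP_cons (hm m (by simp)) (ih _ _ (fun m' h' => hm m' (by simp [h'])))

theorem VP_wgt {n V : ℕ} {P : Pol} (hP : VP n V P) : VP n V (wgt P) := by
  intro x hx
  simp only [wgt, List.mem_map] at hx
  obtain ⟨y, hy, rfl⟩ := hx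
  exact hP y hy

theorem VP_dpol (n k : ℕ) (hk : k < n) : VP (n + 1) (k + 2) (dpol k) := by
  rcases k with _ | k
  · intro x hx
    simp only [dpol, List.mem_cons, List.not_mem_nil, or_false] at hx
    rcases hx with rfl | rfl
    · refine ⟨?_, ?_, ?_⟩
      · intro i hi
        simp only [List.mem_cons, List.not_mem_nil, or_false] at hi
        omega
      · intro i hi
        simp at hi
      · simp [wl]
    · refine ⟨?_, ?_, ?_⟩
      · intro i hi
        simp only [List.mem_cons, List.not_mem_nil, or_false] at hi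
        omega
      · intro i hi
        simp at hi
      · simp [wl]
  · intro x hx
    simp only [dpol, List.mem_cons, List.mem_map, List.mem_range] at hx
    rcases hx with rfl | ⟨i, hi, rfl⟩
    · refine ⟨?_, ?_, ?_⟩
      · intro i hi
        simp only [List.mem_cons, List.not_mem_nil, or_false] at hi
        omega
      · intro i hi
        simp at hi
      · simp [wl]
    · refine ⟨?_, ?_, ?_⟩
      · intro j hj
        simp only [List.mem_cons, List.not_mem_nil, or_false] at hj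
        omega
      · intro i hi
        simp at hi
      · simp only [wl, List.map_cons, List.map_nil, List.sum_cons, List.sum_nil]
        omega

theorem VP_Dpol (n : ℕ) (A : List ℕ) (hA : ∀ i ∈ A, i < n) : VP (n + 1) (wl A + 1) (Dpol A) := by
  induction A with
  | nil => exact VP_nil _ _
  | cons a A ih =>
    have ha := hA a (by simp)
    have h1 := VP_dpol n a ha
    have h2 : VP (n + 1) (wl A) [((A, ([] : List ℕ)), ((1, 0) : GZ))] := by
      refine VP_cons ⟨?_, ?_, ?_⟩ (VP_nil _ _)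
      · intro i hi
        have := hA i (by simp [hi])
        omega
      · intro i hi
        simp at hi
      · simp [wl]
    have h3 : VP (n + 1) (a + 1) [((([a] : List ℕ), ([] : List ℕ)), ((1, 0) : GZ))] := by
      refine VP_cons ⟨?_, ?_, ?_⟩ (VP_nil _ _)
      · intro i hi
        simp only [List.mem_cons, List.not_mem_nil, or_false] at hi
        omega
      · intro i hi
        simp at hi
      · simp [wl]
    have h4 := ih (fun i hi => hA i (by simp [hi]))
    rw [Dpol]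
    refine VP_append ?_ ?_
    · refine VP_mono ?_ (VP_mul h1 h2)
      rw [wl_cons]
      omega
    · refine VP_mono ?_ (VP_mul h3 h4)
      rw [wl_cons]
      omega

theorem VP_cst (n V : ℕ) (z : ℤ) : VP n V (cst z) := by
  refine VP_cons ⟨?_, ?_, ?_⟩ (VP_nil _ _)
  · intro i hi
    simp at hi
  · intro i hi
    simp at hi
  · simp [wl]

theorem VP_EP (n : ℕ) (P : Par) (A : List ℕ) (hA : ∀ i ∈ A, i < n) :
    VP (n + 1) (wl A + 1) (EP P A) := by
  rw [EP]
  refine VP_append ?_ ?_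
  · refine VP_mono (by omega) (VP_mul (VP_cst (n + 1) 0 _) (VP_Dpol n A hA))
  · refine VP_cons ⟨?_, ?_, ?_⟩ (VP_cons ⟨?_, ?_, ?_⟩ (VP_nil _ _))
    · intro i hi
      rcases List.mem_cons.1 hi with h | h
      · omega
      · have := hA i h
        omega
    · intro i hi
      simp at hi
    · rw [wl_cons, wl_nil]
      omega
    · intro i hi
      have := hA i hi
      omega
    · intro i hi
      simp at hi
    · rw [wl_nil]
      simp only
      omega

theorem VP_TP (n V : ℕ) (P : Par) (w h : ℕ) (Bs : List (List ℕ)) (g : List ℕ × ℕ × ℕ)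
    (hA : ∀ i ∈ g.1, i < n) (hB : ∀ B ∈ Bs, (∀ i ∈ B, i < n + 1) ∧ wl B ≤ V) :
    VP (n + 1) (wl g.1 + 1 + V) (TP P w h Bs g) := by
  have h1 : VP (n + 1) V (upl w h (Bs.map (fun B => (([] : List ℕ), B))) g.2.1 g.2.2) := by
    refine VP_upl _ _ _ _ _ _ _ ?_
    intro m hm
    rw [List.mem_map] at hm
    obtain ⟨B, hB', rfl⟩ := hm
    refine ⟨?_, (hB B hB').1, ?_⟩
    · intro i hi
      simp at hi
    · rw [wl_nil, zero_add]
      exact (hB B hB').2
  rw [TP]
  refine VP_append (VP_mul (VP_EP n P g.1 hA) h1) ?_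
  refine VP_mono (W := wl g.1 + V) (by omega) (VP_mul ?_ (VP_wgt h1))
  refine VP_cons ⟨?_, ?_, ?_⟩ (VP_nil _ _)
  · intro i hi
    have := hA i hi
    omega
  · intro i hi
    simp at hi
  · simp [wl]

/-! ## The check -/

theorem alt_iff (n : ℕ) (A : List ℕ) : alt n A = true → ∀ i ∈ A, i < n := by
  induction A with
  | nil => intro _ i hi; simp at hi
  | cons a A ih =>
    intro h i hi
    have h1 : (and (Nat.ble (Nat.succ a) n) (alt n A)) = true := h
    rw [Bool.and_eq_true] at h1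
    rcases List.mem_cons.1 hi with h2 | h2
    · rw [h2]
      exact Nat.ble_eq.mp h1.1
    · exact ih h1.2 i h2

theorem mwt_le (be : List ℕ) (Bs : List (List ℕ)) :
    ∀ B ∈ Bs, wl B ≤ mwt (Bs.map (fun B => (shf be B, wl B))) := by
  induction Bs with
  | nil => intro B hB; simp at hB
  | cons C Bs ih =>
    intro B hB
    have h0 : mwt ((C :: Bs).map (fun B => (shf be B, wl B)))
        = Bool.rec (mwt (Bs.map (fun B => (shf be B, wl B)))) (wl C)
          (Nat.ble (mwt (Bs.map (fun B => (shf be B, wl B)))) (wl C)) := rfl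
    rcases hb : Nat.ble (mwt (Bs.map (fun B => (shf be B, wl B)))) (wl C) with _ | _
    · rw [hb] at h0
      rw [h0]
      have h1 : ¬ mwt (Bs.map (fun B => (shf be B, wl B))) ≤ wl C := by
        intro h2
        rw [Nat.ble_eq.mpr h2] at hb
        exact Bool.false_ne_true hb.symm
      rcases List.mem_cons.1 hB with h2 | h2
      · rw [h2]
        change wl C ≤ mwt (Bs.map (fun B => (shf be B, wl B)))
        omega
      · exact ih B h2
    · rw [hb] at h0
      rw [h0]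
      have h1 := Nat.ble_eq.mp hb
      rcases List.mem_cons.1 hB with h2 | h2
      · rw [h2]
      · exact (ih B h2).trans h1

theorem okG_spec (n V : ℕ) (G : List (List ℕ × ℕ × ℕ)) (h : okG n V G = true) :
    ∀ g ∈ G, (∀ i ∈ g.1, i < n) ∧ wl g.1 ≤ V := by
  induction G with
  | nil => intro g hg; simp at hg
  | cons g G ih =>
    intro g' hg'
    have h1 : (and (and (alt n g.1) (Nat.ble (wtk g.1) V)) (okG n V G)) = true := h
    rw [Bool.and_eq_true, Bool.and_eq_true] at h1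
    rcases List.mem_cons.1 hg' with h2 | h2
    · rw [h2]
      refine ⟨alt_iff n g.1 h1.1.1, ?_⟩
      rw [← wtk_eq]
      exact Nat.ble_eq.mp h1.1.2
    · exact ih h1.2 g' h2

theorem GP_spec (n W : ℕ) (P : Par) (w h : ℕ) (hw : h < w) (be : List ℕ) (Bs : List (List ℕ))
    (hB : ∀ B ∈ Bs, ∀ i ∈ B, i < n + 1) (G : List (List ℕ × ℕ × ℕ))
    (hm : mwt (Bs.map (fun B => (shf be B, wl B))) ≤ W)
    (hG : okG n (W - mwt (Bs.map (fun B => (shf be B, wl B)))) G = true) :
    VP (n + 1) (W + 1) (GP P w h Bs G) ∧ nrm (GP P w h Bs G) ≤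
      G.length * ((P.bd * P.sr * (5 * (W + 1)) + 2 * P.bd * (P.p.natAbs + P.q.natAbs)
      + P.sr * (P.bn + P.bd * (W + 1))) * (2 * Bs.length * w)) := by
  have hG' := okG_spec _ _ _ hG
  clear hG
  induction G with
  | nil => exact ⟨VP_nil _ _, by simp [GP, nrm_nil]⟩
  | cons g G ih =>
    obtain ⟨ih1, ih2⟩ := ih (fun g' hg' => hG' g' (by simp [hg']))
    obtain ⟨h1, h2⟩ := hG' g (by simp)
    have hle := mwt_le be Bs
    have h3 := VP_TP n (mwt (Bs.map (fun B => (shf be B, wl B)))) P w h Bs g h1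
      (fun B hB' => ⟨hB B hB', hle B hB'⟩)
    have h4 := nrm_TP P w h hw (W + 1) Bs (fun B hB' => (hle B hB').trans (by omega)) g (by omega)
    constructor
    · exact VP_append (VP_mono (by omega) h3) ih1
    · rw [GP, nrm_append, List.length_cons]
      calc _ ≤ _ := Nat.add_le_add h4 ih2
        _ = _ := by ring

theorem GsP_spec (n W : ℕ) (P : Par) (w h : ℕ) (hw : h < w) (be : List ℕ) :
    ∀ (Gs : List (List (List ℕ × ℕ × ℕ))) (Bt : List (List (List ℕ))),
    (∀ Bs ∈ Bt, ∀ B ∈ Bs, ∀ i ∈ B, i < n + 1) → okGs n W Gs (tbl be Bt) = true →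
    VP (n + 1) (W + 1) (GsP P w h Gs Bt) ∧
      nrm (GsP P w h Gs Bt) ≤ nGs P w (W + 1) Gs (tbl be Bt) := by
  intro Gs
  induction Gs with
  | nil => intro Bt _ _; exact ⟨VP_nil _ _, by simp [GsP, nrm_nil]⟩
  | cons G Gs ih =>
    intro Bt hB h1
    rcases Bt with _ | ⟨Bs, Bt⟩
    · exact ⟨VP_nil _ _, by simp [GsP, nrm_nil]⟩
    · have h2 : (and (and (okG n (W - mwt (Bs.map (fun B => (shf be B, wl B)))) G)
          (Nat.ble (mwt (Bs.map (fun B => (shf be B, wl B)))) W)) (okGs n W Gs (tbl be Bt)))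
          = true := h1
      rw [Bool.and_eq_true, Bool.and_eq_true] at h2
      obtain ⟨h3, h4⟩ := GP_spec n W P w h hw be Bs (hB Bs (by simp)) G (Nat.ble_eq.mp h2.1.2)
        h2.1.1
      obtain ⟨h5, h6⟩ := ih Bt (fun Bs' h' => hB Bs' (by simp [h'])) h2.2
      have h7 : nGs P w (W + 1) (G :: Gs) (tbl be (Bs :: Bt))
          = (len G * ((P.bd * P.sr * (5 * (W + 1)) + 2 * P.bd * (P.p.natAbs + P.q.natAbs)
      + P.sr * (P.bn + P.bd * (W + 1))) * (2 * len (Bs.map (fun B => shf be B)) * w)))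
          + nGs P w (W + 1) Gs (tbl be Bt) := rfl
      rw [h7, len_eq, len_eq, List.length_map, GsP, nrm_append]
      exact ⟨VP_append h3 h5, Nat.add_le_add h4 h6⟩

theorem okP_spec (n V : ℕ) (Q : Pol) (h : okP n V Q = true) : VP n V Q := by
  induction Q with
  | nil => exact VP_nil _ _
  | cons x Q ih =>
    have h1 : (and (and (and (alt n x.1.1) (alt n x.1.2))
      (Nat.ble (wtk x.1.1 + wtk x.1.2) V)) (okP n V Q)) = true := h
    rw [Bool.and_eq_true, Bool.and_eq_true, Bool.and_eq_true, wtk_eq, wtk_eq] at h1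
    exact VP_cons ⟨alt_iff n _ h1.1.1.1, alt_iff n _ h1.1.1.2, Nat.ble_eq.mp h1.1.2⟩ (ih h1.2)

theorem rwp_spec (n V w h : ℕ) (hw : h < w) (L : ℕ) : ∀ (rs : List (ℕ × ℕ)) (ms : List Mo),
    (∀ m ∈ ms, VM n V m) → ms.length ≤ L →
    VP n (V + V) (rwp w h ms rs) ∧
      nrm (rwp w h ms rs) ≤ rs.length * ((2 * L * w) * (2 * L * w)) := by
  intro rs
  induction rs with
  | nil => intro ms _ _; exact ⟨VP_nil _ _, by simp [rwp, nrm_nil]⟩
  | cons r rs ih =>
    intro ms hm hL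
    have h1 := VP_upl n V w h ms r.1 r.2 hm
    obtain ⟨h2, h3⟩ := ih ms.tail (fun m h' => hm m (List.mem_of_mem_tail h'))
      (by rw [List.length_tail]; omega)
    have h4 := nrm_upl w h hw ms r.1 r.2
    have h5 : 2 * ms.length * w ≤ 2 * L * w := Nat.mul_le_mul_right _ (by omega)
    have h6 := nrm_mul (upl w h ms r.1 r.2) (pconj (upl w h ms r.1 r.2))
    rw [nrm_conj] at h6
    constructor
    · exact VP_append (VP_mul h1 (VP_conj h1)) h2
    · rw [rwp, nrm_append, List.length_cons]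
      have h7 := Nat.mul_le_mul (h4.trans h5) (h4.trans h5)
      calc _ ≤ _ := Nat.add_le_add (h6.trans h7) h3
        _ = _ := by ring

theorem nrm_ones (ms : List Mo) : nrm (ms.map (fun m => (m, ((1, 0) : GZ)))) = ms.length := by
  induction ms with
  | nil => rfl
  | cons m ms ih =>
    rw [List.map_cons, nrm_cons, ih, List.length_cons]
    simp only [gn]
    omega

/-- everything that is needed from the check -/
theorem F_vanish {t : Tab} {bas : List Mo} {prs : List (Mo × Mo)} {Bt : List (List (List ℕ))}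
    {n W K : ℕ} (ht : TabOK t bas prs Bt n W K) (C : Cert) (h : check t n W K C = true)
    (φ ψ : ℕ → ℂ) : pv φ ψ (FPol C bas prs Bt) = 0 := by
  simp only [check, Bool.and_eq_true] at h
  obtain ⟨⟨⟨⟨hz1, hz2⟩, hn⟩, hok, hq⟩, heps, hsr, hbd, hm1, hL, hU, hR⟩ := h
  have hL' : C.hL < C.wL := Nat.ble_eq.mp hL
  have hU' : C.hU < C.wU := Nat.ble_eq.mp hU
  have hR' : C.hR < C.wR := Nat.ble_eq.mp hR
  obtain ⟨a', b', ha, hb, hinj⟩ := ht.inj
  obtain ⟨V, hV, hbas⟩ := ht.basV
  -- validity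
  rw [ht.ta] at hok
  obtain ⟨g1, g2⟩ := GsP_spec n W C.P C.wL C.hL hL' t.b C.G Bt ht.BtV hok
  have g3 : VP (n + 1) (W + 1) C.qf := okP_spec _ _ _ hq
  have g4 : VP (n + 1) (W + 1) (TPol C Bt) := by
    refine VP_append (VP_append (VP_cst _ _ _) ?_) ?_
    · exact VP_mono (by omega) (VP_mul (VP_cst (n + 1) 0 _) g3)
    · exact VP_mono (by omega) (VP_mul (VP_cst (n + 1) 0 _) g1)
  obtain ⟨g5, g6⟩ := rwp_spec (n + 1) V C.wU C.hU hU' bas.length C.U bas hbas le_rfl
  have g7 : VP (n + 1) (W + 1) (sqp bas) := by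
    intro x hx
    simp only [sqp, List.mem_map] at hx
    obtain ⟨v, hv, rfl⟩ := hx
    obtain ⟨k1, k2, k3⟩ := hbas v hv
    refine ⟨?_, ?_, ?_⟩
    · intro i hi
      rcases List.mem_append.1 hi with h' | h'
      · exact k1 i h'
      · exact k2 i h'
    · intro i hi
      rcases List.mem_append.1 hi with h' | h'
      · exact k2 i h'
      · exact k1 i h'
    · simp only [prd, wl_append]
      omega
  have g8 : VP (n + 1) (W + 1) (upl C.wR C.hR (prs.map prd) C.rx C.ry) := by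
    refine VP_upl _ _ _ _ _ _ _ ?_
    intro m hm
    rw [List.mem_map] at hm
    obtain ⟨p, hp, rfl⟩ := hm
    obtain ⟨k1, k2⟩ := ht.prsM p hp
    obtain ⟨k3, k4, k5⟩ := hbas _ k1
    obtain ⟨k6, k7, k8⟩ := hbas _ k2
    refine ⟨?_, ?_, ?_⟩
    · intro i hi
      rcases List.mem_append.1 hi with h' | h'
      · exact k3 i h'
      · exact k7 i h'
    · intro i hi
      rcases List.mem_append.1 hi with h' | h'
      · exact k4 i h'
      · exact k6 i h'
    · simp only [prd, wl_append]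
      omega
  have g9 : VP (n + 1) (W + 1) (FPol C bas prs Bt) := by
    refine VP_append (VP_append ?_ ?_) (VP_append ?_ (VP_append g8 (VP_conj g8)))
    · exact VP_mono (by omega) (VP_mul (VP_cst (n + 1) 0 _) (VP_append g4 (VP_conj g4)))
    · exact VP_mono (by omega) (VP_mul (VP_cst (n + 1) 0 _) g5)
    · exact VP_mono (by omega) (VP_mul (VP_cst (n + 1) 0 _) g7)
  -- norm
  have n1 : nrm (TPol C Bt) ≤ C.P.sr * C.P.bd * (C.eta + nrk C.qf)
      + C.mL * nGs C.P C.wL (W + 1) C.G (tbl t.b Bt) := by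
    rw [TPol, nrm_append, nrm_append, nrm_cst, Int.natAbs_natCast, nrk_eq]
    have := nrm_mul (cst ((C.P.sr * C.P.bd : ℕ) : ℤ)) C.qf
    rw [nrm_cst, Int.natAbs_natCast] at this
    have h2 := nrm_mul (cst C.mL) (GsP C.P C.wL C.hL C.G Bt)
    rw [nrm_cst, Int.natAbs_natCast] at h2
    calc _ ≤ (C.P.sr * C.P.bd * C.eta + C.P.sr * C.P.bd * nrm C.qf)
        + C.mL * nGs C.P C.wL (W + 1) C.G (tbl t.b Bt) :=
          Nat.add_le_add (Nat.add_le_add_left this _) (h2.trans (Nat.mul_le_mul_left _ g2))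
      _ = _ := by ring
  have n2 : nrm (sqp bas) = bas.length := by
    have h2 : sqp bas = (bas.map (fun v => prd (v, v))).map (fun m => (m, ((1, 0) : GZ))) := by
      rw [List.map_map]
      rfl
    rw [h2, nrm_ones, List.length_map]
  have n3 := nrm_upl C.wR C.hR hR' (prs.map prd) C.rx C.ry
  rw [List.length_map] at n3
  have n4 : nrm (FPol C bas prs Bt) ≤ (2 * C.m1 * (C.P.sr * C.P.bd * (C.eta + nrk C.qf)
      + C.mL * nGs C.P C.wL (W + 1) C.G (tbl t.b Bt)) + C.m2 * (C.U.length *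
        ((2 * bas.length * C.wU) * (2 * bas.length * C.wU))))
      + (C.eps * bas.length + 2 * (2 * prs.length * C.wR)) := by
    rw [FPol, nrm_append, nrm_append, nrm_append, nrm_append, nrm_conj]
    have m1 := nrm_mul (cst C.m1) (TPol C Bt ++ pconj (TPol C Bt))
    rw [nrm_cst, Int.natAbs_natCast, nrm_append, nrm_conj] at m1
    have m2 := nrm_mul (cst C.m2) (rwp C.wU C.hU bas C.U)
    rw [nrm_cst, Int.natAbs_natCast] at m2
    have m3 := nrm_mul (cst C.eps) (sqp bas)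
    rw [nrm_cst, Int.natAbs_natCast, n2] at m3
    have m4 : C.m1 * (nrm (TPol C Bt) + nrm (TPol C Bt)) ≤ 2 * C.m1 * (C.P.sr * C.P.bd
        * (C.eta + nrk C.qf) + C.mL * nGs C.P C.wL (W + 1) C.G (tbl t.b Bt)) := by
      calc _ = 2 * C.m1 * nrm (TPol C Bt) := by ring
        _ ≤ _ := Nat.mul_le_mul_left _ n1
    refine Nat.add_le_add (Nat.add_le_add (m1.trans m4) (m2.trans (Nat.mul_le_mul_left _ g6)))
      (Nat.add_le_add m3 ?_)
    omega
  have n5 : nF t C (W + 1) = (2 * C.m1 * (C.P.sr * C.P.bd * (C.eta + nrk C.qf)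
      + C.mL * nGs C.P C.wL (W + 1) C.G (tbl t.b Bt)) + C.m2 * (C.U.length *
        ((2 * bas.length * C.wU) * (2 * bas.length * C.wU))))
      + (C.eps * bas.length + 2 * (2 * prs.length * C.wR)) := by
    have : nF t C (W + 1) = (2 * C.m1 * (C.P.sr * C.P.bd * (C.eta + nrk C.qf)
      + C.mL * nGs C.P C.wL (W + 1) C.G t.ta) + C.m2 * (len C.U *
        ((2 * len t.ba * C.wU) * (2 * len t.ba * C.wU))))
      + (C.eps * len t.bc + 2 * (2 * len t.ra * C.wR)) := rfl
    rw [this, len_eq, len_eq, len_eq, len_eq, ht.ta, ht.ba, ht.bc, ht.ra]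
    simp only [List.length_map]
  have n6 : nrm (FPol C bas prs Bt) < 2 ^ K := by
    have h1 : nF t C (W + 1) < 2 ^ K := Nat.ble_eq.mp hn
    rw [n5] at h1
    omega
  -- the value
  have hval := gv_FK ht C
  have hzero : gv (FK t C) = 0 := by
    have isz0 : ∀ x : ℤ, isz x = true → x = 0 := by
      intro x hx
      rcases x with m | m
      · have h1 : Nat.beq m 0 = true := hx
        rw [Nat.eq_of_beq_eq_true h1]
        rfl
      · exact absurd hx (by simp [isz])
    have h1 : FK t C = (0, 0) := Prod.ext (isz0 _ hz1) (isz0 _ hz2)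
    rw [h1, gv_zero]
  rw [hzero] at hval
  have ka : kv t.a = fun k => ((2 ^ K : ℕ) : ℂ) ^ a' k := by
    funext k
    rw [kv, ha, pow_mul]
    push_cast
    rfl
  have kb : kv t.b = fun k => ((2 ^ K : ℕ) : ℂ) ^ b' k := by
    funext k
    rw [kv, hb, pow_mul]
    push_cast
    rfl
  rw [ka, kb] at hval
  exact pv_eq_zero hinj (2 ^ K) g9 n6 hval.symm φ ψ

/-! ## The inequality -/

theorem re_mul_conj_self (z : ℂ) : 0 ≤ (z * conj z).re := by
  rw [Complex.mul_conj]
  exact_mod_cast Complex.normSq_nonneg z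

theorem rwp_nonneg (w h : ℕ) (c : ℕ → ℂ) : ∀ (rs : List (ℕ × ℕ)) (ms : List Mo),
    0 ≤ (pv c (fun k => conj (c k)) (rwp w h ms rs)).re := by
  intro rs
  induction rs with
  | nil => intro ms; simp [rwp, pv_nil]
  | cons r rs ih =>
    intro ms
    rw [rwp, pv_append, pv_mul, pv_conj, Complex.add_re]
    simp only [Complex.conj_conj]
    exact add_nonneg (re_mul_conj_self _) (ih _)

theorem mv_prd (c : ℕ → ℂ) (p : Mo × Mo) : mv c (fun k => conj (c k)) (prd p)
    = mv c (fun k => conj (c k)) p.1 * conj (mv c (fun k => conj (c k)) p.2) := by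
  simp only [mv, prd, List.map_append, List.prod_append, map_mul, prod_conj, Complex.conj_conj]
  ring

theorem sab_cons (w h e : ℕ) (es : List ℕ) (n : ℕ) :
    sab w h (e :: es) n = ((n % w - h) + (h - n % w)) + sab w h es (n / w) := rfl

theorem upl_ge (w h : ℕ) (c : ℕ → ℂ) (S : ℝ) (f : Mo → ℕ) : ∀ (prs : List (Mo × Mo)) (x y : ℕ),
    (∀ p ∈ prs, ‖mv c (fun k => conj (c k)) p.1‖ ^ 2 ≤ S ∧
      ‖mv c (fun k => conj (c k)) p.2‖ ^ 2 ≤ S) →
    |(pv c (fun k => conj (c k)) (upl w h (prs.map prd) x y)).re|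
      ≤ ((sab w h ((prs.map prd).map f) x + sab w h ((prs.map prd).map f) y : ℕ) : ℝ) * S := by
  intro prs
  induction prs with
  | nil => intro x y _; simp [upl, pv_nil, sab]
  | cons p prs ih =>
    intro x y hp
    have ih' := ih (x / w) (y / w) (fun p' h' => hp p' (by simp [h']))
    obtain ⟨h1, h2⟩ := hp p (by simp)
    simp only [List.map_cons]
    rw [upl, pv_cons, sab_cons, sab_cons, Complex.add_re, mv_prd]
    set u := mv c (fun k => conj (c k)) p.1
    set v := mv c (fun k => conj (c k)) p.2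
    have hS : 0 ≤ S := (sq_nonneg _).trans h1
    have h3 : ‖u * conj v‖ ≤ S := by
      rw [norm_mul, Complex.norm_conj]
      nlinarith [sq_nonneg (‖u‖ - ‖v‖)]
    have h4 : ∀ z : ℕ, (((z % w : ℕ) : ℤ) - h).natAbs = (z % w - h) + (h - z % w) := by
      intro z
      omega
    have h5 := norm_gv_le ((((x % w : ℕ) : ℤ) - h, ((y % w : ℕ) : ℤ) - h))
    simp only [gn] at h5
    rw [h4, h4] at h5
    have h6 : |(gv ((((x % w : ℕ) : ℤ) - h, ((y % w : ℕ) : ℤ) - h)) * (u * conj v)).re|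
        ≤ (((x % w - h) + (h - x % w) + ((y % w - h) + (h - y % w)) : ℕ) : ℝ) * S := by
      refine (Complex.abs_re_le_norm _).trans ?_
      rw [norm_mul]
      exact mul_le_mul h5 h3 (norm_nonneg _) (Nat.cast_nonneg _)
    refine (abs_add_le _ _).trans ((add_le_add h6 ih').trans (le_of_eq ?_))
    push_cast
    ring

/-- **Soundness of the check.** -/
theorem sound {t : Tab} {bas : List Mo} {prs : List (Mo × Mo)} {Bt : List (List (List ℕ))}
    {n W K : ℕ} (ht : TabOK t bas prs Bt n W K) (C : Cert) (h : check t n W K C = true)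
    (c : ℕ → ℂ) :
    (C.eta : ℝ) + (pv c (fun k => conj (c k)) C.qf).re
      + C.mL * (rel (((C.P.p : ℂ) + C.P.q * Complex.I) / C.P.sr) ((C.P.bn : ℂ) / C.P.bd) c
        (decGs C.wL C.hL C.G Bt)).re ≤ 0 := by
  have hF := F_vanish ht C h c (fun k => conj (c k))
  simp only [check, Bool.and_eq_true] at h
  obtain ⟨⟨⟨⟨hz1, hz2⟩, hn⟩, hok, hq⟩, heps, hsr, hbd, hm1, hL, hU, hR⟩ := h
  have hsr' : 1 ≤ C.P.sr := Nat.ble_eq.mp hsr
  have hbd' : 1 ≤ C.P.bd := Nat.ble_eq.mp hbd
  have hm1' : 1 ≤ C.m1 := Nat.ble_eq.mp hm1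
  have heps' : 2 * (sab C.wR C.hR t.ra C.rx + sab C.wR C.hR t.ra C.ry) ≤ C.eps :=
    Nat.ble_eq.mp heps
  set T := (C.eta : ℝ) + (pv c (fun k => conj (c k)) C.qf).re
      + C.mL * (rel (((C.P.p : ℂ) + C.P.q * Complex.I) / C.P.sr) ((C.P.bn : ℂ) / C.P.bd) c
        (decGs C.wL C.hL C.G Bt)).re with hT
  have hre := congrArg Complex.re hF
  rw [FPol] at hre
  simp only [pv_append, pv_mul, pv_cst, pv_conj, Complex.conj_conj, Complex.add_re,
    Complex.zero_re, Complex.conj_re] at hre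
  have e1 : (((C.m1 : ℤ) : ℂ) * (pv c (fun k => conj (c k)) (TPol C Bt)
      + conj (pv c (fun k => conj (c k)) (TPol C Bt)))).re
      = C.m1 * (2 * ((C.P.sr * C.P.bd : ℝ) * T)) := by
    have h1 : (pv c (fun k => conj (c k)) (TPol C Bt)).re = (C.P.sr * C.P.bd : ℝ) * T := by
      rw [TPol, pv_append, pv_append, pv_mul, pv_mul, pv_cst, pv_cst, pv_cst,
        pv_GsP C.P (by omega) (by omega), hT]
      have hmL : ∀ z w : ℂ, ((C.mL : ℤ) : ℂ) * ((C.P.sr * C.P.bd : ℂ) * z)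
          = (C.P.sr * C.P.bd : ℂ) * (((C.mL : ℝ) : ℂ) * z) := by
        intro z w
        push_cast
        ring
      rw [hmL _ 0]
      have h2 : ∀ z : ℂ, ((C.P.sr * C.P.bd : ℂ) * z).re = (C.P.sr * C.P.bd : ℝ) * z.re := by
        intro z
        have : (C.P.sr * C.P.bd : ℂ) = ((C.P.sr * C.P.bd : ℝ) : ℂ) := by push_cast; rfl
        rw [this, Complex.re_ofReal_mul]
      have h3 : (((C.P.sr * C.P.bd : ℕ) : ℤ) : ℂ) = (C.P.sr * C.P.bd : ℂ) := by push_cast; rfl
      rw [Complex.add_re, Complex.add_re, h3, h2, h2, Complex.re_ofReal_mul]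
      have h4 : ((((C.P.sr * C.P.bd * C.eta : ℕ) : ℤ) : ℂ)).re
          = (C.P.sr * C.P.bd : ℝ) * C.eta := by
        have : (((C.P.sr * C.P.bd * C.eta : ℕ) : ℤ) : ℂ)
            = ((((C.P.sr * C.P.bd : ℝ) * C.eta : ℝ)) : ℂ) := by push_cast; rfl
        rw [this, Complex.ofReal_re]
      rw [h4]
      ring
    have h5 : ∀ z : ℂ, z + conj z = ((2 * z.re : ℝ) : ℂ) := by
      intro z
      rw [Complex.add_conj]
    rw [h5, h1]
    have h6 : ((C.m1 : ℤ) : ℂ) = ((C.m1 : ℝ) : ℂ) := by push_cast; rfl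
    rw [h6, ← Complex.ofReal_mul, Complex.ofReal_re]
  have e2 : 0 ≤ (((C.m2 : ℤ) : ℂ) * pv c (fun k => conj (c k)) (rwp C.wU C.hU bas C.U)).re := by
    have h6 : ((C.m2 : ℤ) : ℂ) = ((C.m2 : ℝ) : ℂ) := by push_cast; rfl
    rw [h6, Complex.re_ofReal_mul]
    exact mul_nonneg (Nat.cast_nonneg _) (rwp_nonneg _ _ _ _ _)
  -- the sum of squares
  obtain ⟨S, hS1, hS2⟩ : ∃ S : ℝ, (pv c (fun k => conj (c k)) (sqp bas)).re = S ∧
      ∀ m ∈ bas, ‖mv c (fun k => conj (c k)) m‖ ^ 2 ≤ S := by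
    refine ⟨_, rfl, ?_⟩
    have key : ∀ l : List Mo, 0 ≤ (pv c (fun k => conj (c k)) (sqp l)).re ∧
        ∀ m ∈ l, ‖mv c (fun k => conj (c k)) m‖ ^ 2 ≤ (pv c (fun k => conj (c k)) (sqp l)).re := by
      intro l
      induction l with
      | nil => exact ⟨by simp [sqp, pv_nil], by intro m hm; simp at hm⟩
      | cons v l ih =>
        have h1 : (pv c (fun k => conj (c k)) (sqp (v :: l))).re
            = ‖mv c (fun k => conj (c k)) v‖ ^ 2 + (pv c (fun k => conj (c k)) (sqp l)).re := by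
          have h2 : sqp (v :: l) = (prd (v, v), (1, 0)) :: sqp l := rfl
          rw [h2, pv_cons, Complex.add_re, mv_prd, Complex.mul_conj]
          have h3 : gv (1, 0) = 1 := by simp [gv]
          rw [h3, one_mul, Complex.ofReal_re, Complex.normSq_eq_norm_sq]
        refine ⟨?_, ?_⟩
        · rw [h1]
          exact add_nonneg (sq_nonneg _) ih.1
        · intro m hm
          rw [h1]
          rcases List.mem_cons.1 hm with h2 | h2
          · rw [h2]
            linarith [ih.1]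
          · have := ih.2 m h2
            linarith [sq_nonneg ‖mv c (fun k => conj (c k)) v‖]
    exact (key bas).2
  have e3 : (((C.eps : ℤ) : ℂ) * pv c (fun k => conj (c k)) (sqp bas)).re = C.eps * S := by
    have h6 : ((C.eps : ℤ) : ℂ) = ((C.eps : ℝ) : ℂ) := by push_cast; rfl
    rw [h6, Complex.re_ofReal_mul, hS1]
  have e4 := upl_ge C.wR C.hR c S (fun m => shf t.a m.1 + shf t.b m.2) prs C.rx C.ry (by
    intro p hp
    obtain ⟨k1, k2⟩ := ht.prsM p hp
    exact ⟨hS2 _ k1, hS2 _ k2⟩)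
  rw [← ht.ra] at e4
  have hS0 : 0 ≤ (sab C.wR C.hR t.ra C.rx + sab C.wR C.hR t.ra C.ry : ℕ) * S := by
    exact (abs_nonneg _).trans e4
  have e5 : 2 * ((sab C.wR C.hR t.ra C.rx + sab C.wR C.hR t.ra C.ry : ℕ) : ℝ) * S
      ≤ C.eps * S := by
    rcases bas with _ | ⟨v, l⟩
    · have hpr : prs = [] := by
        rcases prs with _ | ⟨p, prs⟩
        · rfl
        · have := (ht.prsM p (by simp)).1
          simp at this
      have hra : t.ra = [] := by rw [ht.ra, hpr]; rfl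
      have hS : S = 0 := by rw [← hS1]; simp [sqp, pv_nil]
      rw [hS]
      simp
    · have hS : 0 ≤ S := (sq_nonneg _).trans (hS2 v (by simp))
      have h1 : ((2 * (sab C.wR C.hR t.ra C.rx + sab C.wR C.hR t.ra C.ry) : ℕ) : ℝ) ≤ C.eps := by
        exact_mod_cast heps'
      have h2 := mul_le_mul_of_nonneg_right h1 hS
      push_cast at h2 ⊢
      linarith
  rw [e1, e3] at hre
  have h7 := neg_abs_le (pv c (fun k => conj (c k)) (upl C.wR C.hR (prs.map prd) C.rx C.ry)).re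
  have h8 : (C.m1 : ℝ) * (2 * ((C.P.sr * C.P.bd : ℝ) * T)) ≤ 0 := by
    nlinarith [e2, e4, e5, h7, hre]
  have h9 : (0 : ℝ) < C.m1 * (2 * (C.P.sr * C.P.bd)) := by
    have a1 : (0 : ℝ) < C.m1 := by exact_mod_cast hm1'
    have a2 : (0 : ℝ) < C.P.sr := by exact_mod_cast hsr'
    have a3 : (0 : ℝ) < C.P.bd := by exact_mod_cast hbd'
    positivity
  by_contra hneg
  rw [not_le] at hneg
  have := mul_pos h9 hneg
  nlinarith

end Pool.Agent.Helper12.HR2
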